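import Mathlib
import Pool.Agent.Helper35.YG.Basic

set_option autoImplicit false

namespace Pool.Agent.Helper99.YG3

open Pool.Agent.Helper35.YG

/-- the coset enumeration, abstractly -/
lemma finite_step {G : Type*} [Group G] {ι : Type*} [Finite ι] (a : G) (b : ι → G)
    (H : Subgroup G) [Finite H] (hb : ∀ k, b k ∈ H)
    (ha3 : a * a * a = 1) (hb3 : ∀ k, b k * b k * b k = 1)
    (hab : ∀ k, (b k * a) * (b k * a) = 1)
    (hbb : ∀ k l, k ≠ l → (b k * b l) * (b k * b l) = 1)
    (hgen : Subgroup.closure (insert a (Set.range b)) = ⊤) : Finite G := by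
  classical
  let T : Set G := {1, a, a⁻¹} ∪ Set.range (fun k => a⁻¹ * b k)
  have hT : T.Finite := (Set.toFinite _).union (Set.finite_range _)
  let S : Set G := Set.image2 (fun h t => h * t) (H : Set G) T
  have hS : S.Finite := Set.Finite.image2 _ (Set.toFinite _) hT
  -- basic rewriting
  have ha2 : a * a = a⁻¹ := eq_inv_of_mul_eq_one_left ha3
  have hb2 : ∀ k, b k * b k = (b k)⁻¹ := fun k => eq_inv_of_mul_eq_one_left (hb3 k)
  have hba : ∀ k, b k * a = a⁻¹ * (b k)⁻¹ := by
    intro k
    have := eq_inv_of_mul_eq_one_left (hab k)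
    rw [this]; group
  have hab' : ∀ k, a * b k = (b k)⁻¹ * a⁻¹ := by
    intro k
    have h1 : a * b k = (b k)⁻¹ * (b k * a) * b k := by group
    rw [h1, hba k]; group
  have hbb' : ∀ k l, k ≠ l → b k * b l = (b l)⁻¹ * (b k)⁻¹ := by
    intro k l hkl
    have := eq_inv_of_mul_eq_one_left (hbb k l hkl)
    rw [this]; group
  have mem1 : ∀ h ∈ H, h ∈ S := fun h hh => ⟨h, hh, 1, by simp [T], by simp⟩
  have mema : ∀ h ∈ H, h * a ∈ S := fun h hh => ⟨h, hh, a, by simp [T], rfl⟩
  have mema' : ∀ h ∈ H, h * a⁻¹ ∈ S := fun h hh => ⟨h, hh, a⁻¹, by simp [T], rfl⟩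
  have memb : ∀ h ∈ H, ∀ k, h * (a⁻¹ * b k) ∈ S :=
    fun h hh k => ⟨h, hh, a⁻¹ * b k, Or.inr ⟨k, rfl⟩, rfl⟩
  have closed_a : ∀ g ∈ S, g * a ∈ S := by
    rintro _ ⟨h, hh, t, ht, rfl⟩
    rcases ht with ht | ⟨k, rfl⟩
    · simp only [Set.mem_insert_iff, Set.mem_singleton_iff] at ht
      rcases ht with ht | ht | ht
      · rw [ht]; simpa using mema h hh
      · have : h * a * a = h * a⁻¹ := by rw [mul_assoc, ha2]
        rw [ht]
        change h * a * a ∈ S
        rw [this]; exact mema' h hh
      · have : h * a⁻¹ * a = h := by group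
        rw [ht]
        change h * a⁻¹ * a ∈ S
        rw [this]; exact mem1 h hh
    · have e : a⁻¹ * b k * a = (b k)⁻¹ * (a⁻¹ * b k) := by
        calc a⁻¹ * b k * a = a⁻¹ * (b k * a) := by group
          _ = a⁻¹ * a⁻¹ * (b k)⁻¹ := by rw [hba k]; group
          _ = (a * a)⁻¹ * (b k)⁻¹ := by group
          _ = a * (b k)⁻¹ := by rw [ha2, inv_inv]
          _ = a * (b k * b k) := by rw [hb2 k]
          _ = (a * b k) * b k := by group
          _ = (b k)⁻¹ * (a⁻¹ * b k) := by rw [hab' k]; group
      change h * (a⁻¹ * b k) * a ∈ S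
      have : h * (a⁻¹ * b k) * a = (h * (b k)⁻¹) * (a⁻¹ * b k) := by
        rw [mul_assoc, e]; group
      rw [this]
      exact memb _ (H.mul_mem hh (H.inv_mem (hb k))) k
  have closed_b : ∀ g ∈ S, ∀ l, g * b l ∈ S := by
    rintro _ ⟨h, hh, t, ht, rfl⟩ l
    rcases ht with ht | ⟨k, rfl⟩
    · simp only [Set.mem_insert_iff, Set.mem_singleton_iff] at ht
      rcases ht with ht | ht | ht
      · rw [ht]
        change h * 1 * b l ∈ S
        rw [mul_one]; exact mem1 _ (H.mul_mem hh (hb l))
      · rw [ht]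
        change h * a * b l ∈ S
        have : h * a * b l = (h * (b l)⁻¹) * a⁻¹ := by rw [mul_assoc, hab' l]; group
        rw [this]; exact mema' _ (H.mul_mem hh (H.inv_mem (hb l)))
      · rw [ht]
        change h * a⁻¹ * b l ∈ S
        rw [mul_assoc]; exact memb h hh l
    · change h * (a⁻¹ * b k) * b l ∈ S
      by_cases hkl : k = l
      · subst hkl
        have : h * (a⁻¹ * b k) * b k = (h * b k) * a := by
          calc h * (a⁻¹ * b k) * b k = h * (a⁻¹ * (b k * b k)) := by group
            _ = h * (a⁻¹ * (b k)⁻¹) := by rw [hb2 k]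
            _ = h * (b k * a) := by rw [hba k]
            _ = (h * b k) * a := by group
        rw [this]; exact mema _ (H.mul_mem hh (hb k))
      · have e : a⁻¹ * b k * b l = b l * (b k)⁻¹ * (a⁻¹ * b k) := by
          calc a⁻¹ * b k * b l = a⁻¹ * (b k * b l) := by group
            _ = (a⁻¹ * (b l)⁻¹) * (b k)⁻¹ := by rw [hbb' k l hkl]; group
            _ = (b l * a) * (b k * b k) := by rw [hba l, hb2 k]
            _ = b l * (a * b k) * b k := by group
            _ = b l * (b k)⁻¹ * (a⁻¹ * b k) := by rw [hab' k]; group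
        have : h * (a⁻¹ * b k) * b l = (h * (b l * (b k)⁻¹)) * (a⁻¹ * b k) := by
          rw [mul_assoc, e]; group
        rw [this]
        exact memb _ (H.mul_mem hh (H.mul_mem (hb l) (H.inv_mem (hb k)))) k
  have key : ∀ g : G, g ∈ S := by
    intro g
    have hg : g ∈ Subgroup.closure (insert a (Set.range b)) := by rw [hgen]; trivial
    induction hg using Subgroup.closure_induction_right with
    | one => exact mem1 1 H.one_mem
    | mul_right x y _ hy ih =>
      rcases hy with hy | ⟨k, rfl⟩
      · rw [hy]; exact closed_a _ ih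
      · exact closed_b _ ih k
    | mul_inv_cancel x y _ hy ih =>
      rcases hy with hy | ⟨k, rfl⟩
      · rw [hy, ← ha2, ← mul_assoc]; exact closed_a _ (closed_a _ ih)
      · rw [← hb2, ← mul_assoc]; exact closed_b _ (closed_b _ ih k) k
  have : (Set.univ : Set G).Finite := hS.subset (fun g _ => key g)
  exact Set.finite_univ_iff.mp this

theorem Y_three_finite (m : ℕ) : Finite (Y m 3) := by
  induction m with
  | zero =>
    have : Subsingleton (Y 0 3) := by
      have h := closure_gen (m := 0) (n := 3)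
      have : Set.range (gen 0 3) = ∅ := Set.range_eq_empty _
      rw [this, Subgroup.closure_empty] at h
      exact (Subgroup.subsingleton_iff (G := Y 0 3)).mp (subsingleton_of_bot_eq_top h)
    infer_instance
  | succ m ih =>
    have hY : YRel 3 (gen (m + 1) 3) := yrel_gen (by norm_num)
    have hY' : YRel 3 (fun k : Fin m => gen (m + 1) 3 k.castSucc) :=
      ⟨fun k => hY.pow _, fun k l hkl i => hY.rel _ _ (fun h => hkl (Fin.castSucc_injective _ h)) i⟩
    obtain ⟨f, hf⟩ := exists_hom hY'
    have cube : ∀ k, gen (m + 1) 3 k * gen (m + 1) 3 k * gen (m + 1) 3 k = 1 := by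
      intro k
      have := hY.pow k
      rwa [pow_succ, pow_two] at this
    have rel : ∀ k l, k ≠ l → (gen (m + 1) 3 k * gen (m + 1) 3 l) *
        (gen (m + 1) 3 k * gen (m + 1) 3 l) = 1 := by
      intro k l hkl
      have := hY.rel k l hkl 1
      simpa using this
    have : Finite f.range := Finite.of_surjective _ f.rangeRestrict_surjective
    refine finite_step (gen (m + 1) 3 (Fin.last m)) (fun k : Fin m => gen (m + 1) 3 k.castSucc)
      f.range (fun k => ⟨gen m 3 k, hf k⟩) (cube _) (fun k => cube _)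
      (fun k => rel _ _ (Fin.castSucc_lt_last k).ne)
      (fun k l hkl => rel _ _ (fun h => hkl (Fin.castSucc_injective _ h))) ?_
    rw [← closure_gen (m := m + 1) (n := 3)]
    congr 1
    ext g
    constructor
    · rintro (rfl | ⟨k, rfl⟩)
      · exact ⟨_, rfl⟩
      · exact ⟨_, rfl⟩
    · rintro ⟨k, rfl⟩
      refine Fin.lastCases ?_ (fun k => ?_) k
      · exact Or.inl rfl
      · exact Or.inr ⟨k, rfl⟩

end Pool.Agent.Helper99.YG3
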