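import Mathlib
import Pool.Agent.Helper85.FC.Defs

set_option autoImplicit false

namespace Pool.Agent.Helper99.FCRuns

open Pool.Agent.Helper85.FC

/-! ### slices -/
section slices
variable {A : Type*}

/-- the factor of `W` between positions `x` and `y` -/
def sl (W : List A) (x y : ℕ) : List A := (W.take y).drop x

lemma sl_empty (W : List A) {x y : ℕ} (h : y ≤ x) : sl W x y = [] :=
  List.drop_eq_nil_of_le (by simp; omega)

lemma sl_append (W : List A) {x y z : ℕ} (h1 : x ≤ y) (h2 : y ≤ z) :
    sl W x y ++ sl W y z = sl W x z := by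
  unfold sl
  by_cases hy : y ≤ W.length
  · have e : W.take z = W.take y ++ (W.take z).drop y := by
      conv_lhs => rw [← List.take_append_drop y (W.take z)]
      rw [List.take_take, min_eq_left h2]
    conv_rhs => rw [e]
    rw [List.drop_append_of_le_length (by rw [List.length_take]; omega)]
  · push Not at hy
    rw [List.take_of_length_le (by omega : W.length ≤ y),
      List.take_of_length_le (by omega : W.length ≤ z),
      List.drop_eq_nil_of_le (by omega : W.length ≤ y), List.append_nil]

lemma sl_infix (W : List A) (x y : ℕ) : sl W x y <:+: W :=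
  (List.drop_suffix _ _).isInfix.trans (List.take_prefix _ _).isInfix

/-- cumulative lengths -/
def cu (U : List (List A)) (i : ℕ) : ℕ := ((U.take i).flatten).length

lemma cu_zero (U : List (List A)) : cu U 0 = 0 := by simp [cu]

lemma cu_succ (U : List (List A)) {i : ℕ} (hi : i < U.length) :
    cu U (i + 1) = cu U i + (U[i]).length := by
  unfold cu
  rw [List.take_succ_eq_append_getElem hi, List.flatten_append, List.length_append,
    List.flatten_singleton]

lemma cu_length (U : List (List A)) : cu U U.length = U.flatten.length := by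
  simp [cu]

lemma cu_mono (U : List (List A)) : Monotone (cu U) := by
  apply monotone_nat_of_le_succ
  intro i
  by_cases hi : i < U.length
  · rw [cu_succ U hi]; omega
  · unfold cu
    rw [List.take_of_length_le (by omega), List.take_of_length_le (by omega)]

lemma sl_flat (U : List (List A)) {i : ℕ} (hi : i < U.length) :
    sl U.flatten (cu U i) (cu U (i + 1)) = U[i] := by
  have e : U.flatten = (U.take i).flatten ++ (U[i] ++ (U.drop (i + 1)).flatten) := by
    conv_lhs => rw [← List.take_append_drop i U]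
    rw [List.flatten_append, List.drop_eq_getElem_cons hi, List.flatten_cons]
  rw [cu_succ U hi]
  unfold sl
  rw [e]
  unfold cu
  rw [List.take_length_add_append, List.drop_left, List.take_left]

lemma row_aux (W : List A) (v : ℕ → ℕ) (hv : Monotone v) {a b : ℕ} (hab : a ≤ b) (n : ℕ) :
    (List.range n).flatMap (fun j => sl W (max a (v j)) (min b (v (j + 1)))) =
      sl W (max a (v 0)) (min b (v n)) := by
  induction n with
  | zero =>
    rw [sl_empty]
    · simp
    · omega
  | succ n ih =>
    rw [List.range_succ, List.flatMap_append, ih]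
    simp only [List.flatMap_singleton]
    have h0 : v 0 ≤ v n := hv (Nat.zero_le _)
    have h1 : v n ≤ v (n + 1) := hv (Nat.le_succ _)
    rcases le_or_gt (v n) a with h | h
    · rw [sl_empty W (x := max a (v 0)) (by omega), List.nil_append]
      congr 1
      omega
    · rcases le_or_gt b (v n) with h2 | h2
      · rw [sl_empty W (x := max a (v n)) (by omega), List.append_nil]
        congr 1
        omega
      · have e1 : min b (v n) = v n := by omega
        have e2 : max a (v n) = v n := by omega
        rw [e1, e2, sl_append W (by omega) (by omega)]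

/-- swapping the order of concatenation, inner step -/
lemma swap_aux {κ : Type*} (x c : κ → List A) (J : List κ)
    (h : J.Pairwise (fun j j' => c j = [] ∨ x j' = [])) :
    J.flatMap (fun j => x j ++ c j) = J.flatMap x ++ J.flatMap c := by
  induction J with
  | nil => simp
  | cons j0 J ih =>
    rw [List.pairwise_cons] at h
    simp only [List.flatMap_cons]
    rw [ih h.2]
    by_cases hc : c j0 = []
    · rw [hc]; simp
    · have : J.flatMap x = [] := by
        rw [List.flatMap_eq_nil_iff]
        intro j hj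
        exact (h.1 j hj).resolve_left hc
      rw [this]; simp

/-- swapping the order of concatenation -/
lemma swap {ι κ : Type*} (r : ι → ι → Prop) (s : κ → κ → Prop) (w : ι → κ → List A) (I : List ι)
    (J : List κ) (hI : I.Pairwise r) (hJ : J.Pairwise s)
    (h : ∀ i i' j j', r i i' → s j j' → w i j' = [] ∨ w i' j = []) :
    I.flatMap (fun i => J.flatMap (fun j => w i j)) =
      J.flatMap (fun j => I.flatMap (fun i => w i j)) := by
  induction I with
  | nil => simp
  | cons i0 I ih =>
    rw [List.pairwise_cons] at hI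
    simp only [List.flatMap_cons]
    rw [ih hI.2, swap_aux]
    refine hJ.imp ?_
    intro j j' hjj
    by_cases hx : w i0 j' = []
    · exact Or.inr hx
    · left
      rw [List.flatMap_eq_nil_iff]
      intro i hi
      exact (h i0 i j j' (hI.1 i hi) hjj).resolve_left hx

end slices

/-! ### runs -/
section runs
variable {A : Type} (f : ℕ → A)

lemma length_run (s l : ℕ) : (run f s l).length = l := by simp [run]

lemma run_zero (s : ℕ) : run f s 0 = [] := by simp [run]

lemma run_add (s l1 l2 : ℕ) : run f s (l1 + l2) = run f s l1 ++ run f (s + l1) l2 := by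
  unfold run
  rw [List.range_add, List.map_append, List.map_map]
  congr 1
  apply List.map_congr_left
  intro i _
  simp [add_assoc]

lemma take_run (s l n : ℕ) : (run f s l).take n = run f s (min n l) := by
  rcases le_total n l with h | h
  · obtain ⟨k, rfl⟩ := Nat.exists_eq_add_of_le h
    rw [run_add, min_eq_left h, List.take_left' (length_run f s n)]
  · rw [List.take_of_length_le (by rw [length_run]; exact h), min_eq_right h]

variable {f}

lemma run_shift {d : ℕ} (hf : ∀ i, f (i + d) = f i) (k s l : ℕ) :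
    run f (s + k * d) l = run f s l := by
  have h : ∀ i, f (i + k * d) = f i := by
    induction k with
    | zero => simp
    | succ k ih => intro i; rw [Nat.succ_mul, ← add_assoc, hf, ih]
  unfold run
  apply List.map_congr_left
  intro i _
  rw [← h (s + i)]
  congr 1
  omega

lemma run_append_split {X Z : List A} {s l : ℕ} (h : X ++ Z = run f s l) :
    X = run f s X.length ∧ Z = run f (s + X.length) Z.length := by
  have hl : l = X.length + Z.length := by
    rw [← List.length_append, h, length_run]
  rw [hl, run_add] at h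
  exact List.append_inj h (by rw [length_run])

lemma infix_run {v : List A} {s l : ℕ} (h : v <:+: run f s l) : ∃ s', v = run f s' v.length := by
  obtain ⟨X, Z, h⟩ := h
  rw [List.append_assoc] at h
  obtain ⟨-, h2⟩ := run_append_split h
  obtain ⟨h3, -⟩ := run_append_split h2
  exact ⟨_, h3⟩

/-- shortening the pieces of a run -/
lemma run_pieces {d : ℕ} (hf : ∀ i, f (i + d) = f i) {κ : Type*} (w : κ → List A) (n' m : κ → ℕ)
    (J : List κ) (s L : ℕ) (h : J.flatMap w = run f s L)
    (hn : ∀ j ∈ J, (w j).length = n' j + m j * d) :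
    J.flatMap (fun j => (w j).take (n' j)) = run f s (J.map n').sum := by
  induction J generalizing s L with
  | nil => simp [run]
  | cons j0 J ih =>
    rw [List.flatMap_cons] at h
    obtain ⟨h1, h2⟩ := run_append_split h
    rw [List.flatMap_cons, List.map_cons, List.sum_cons, run_add]
    have e := hn j0 (by simp)
    congr 1
    · rw [h1, take_run, min_eq_left (by omega)]
    · rw [ih _ _ h2 (fun j hj => hn j (by simp [hj])), e, ← add_assoc, run_shift hf]

end runs

/-! ### finite monoids -/

lemma exists_idem {M : Type*} [Monoid M] [Finite M] :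
    ∃ n : ℕ, 0 < n ∧ ∀ m : M, m ^ n * m ^ n = m ^ n := by
  classical
  have h1 : ∀ m : M, ∃ n : ℕ, 0 < n ∧ m ^ n * m ^ n = m ^ n := by
    intro m
    obtain ⟨i, j, hij, h⟩ := Finite.exists_ne_map_eq_of_infinite (fun n : ℕ => m ^ (n + 1))
    wlog hlt : i < j generalizing i j
    · exact this j i hij.symm h.symm (by omega)
    -- period t from i+1 on
    obtain ⟨t, ht⟩ := Nat.exists_eq_add_of_lt hlt
    have hp : ∀ a, i + 1 ≤ a → m ^ (a + (t + 1)) = m ^ a := by
      intro a ha
      obtain ⟨b, rfl⟩ := Nat.exists_eq_add_of_le ha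
      have e : i + 1 + b + (t + 1) = (j + 1) + b := by omega
      rw [e, pow_add, pow_add m (i + 1) b]
      rw [h]
    have hp2 : ∀ k a, i + 1 ≤ a → m ^ (a + k * (t + 1)) = m ^ a := by
      intro k
      induction k with
      | zero => intro a _; simp
      | succ k ih =>
        intro a ha
        rw [Nat.succ_mul, ← add_assoc, hp _ (by omega), ih a ha]
    refine ⟨(i + 1) * (t + 1), by positivity, ?_⟩
    rw [← pow_add]
    apply hp2
    nlinarith
  choose N hN0 hN using h1
  have hN' : ∀ m, ∀ k, 0 < k → m ^ (N m * k) * m ^ (N m * k) = m ^ (N m * k) := by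
    intro m k hk
    have h2 : IsIdempotentElem (m ^ N m) := hN m
    have h3 := h2.pow k
    rw [← pow_mul] at h3
    exact h3
  have := Fintype.ofFinite M
  refine ⟨∏ m, N m, Finset.prod_pos (fun m _ => hN0 m), fun m => ?_⟩
  rw [← Finset.mul_prod_erase Finset.univ N (Finset.mem_univ m)]
  exact hN' m _ (Finset.prod_pos (fun m _ => hN0 m))

lemma h_run {A M : Type} [Monoid M] {h : List A → M} (h1 : h [] = 1)
    (h2 : ∀ u v, h (u ++ v) = h u * h v) {f : ℕ → A} {d : ℕ} (hf : ∀ i, f (i + d) = f i)
    {n : ℕ} (hn : ∀ m : M, m ^ n * m ^ n = m ^ n) (s l k : ℕ) (hl : n * d ≤ l) :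
    h (run f s (l + k * (n * d))) = h (run f s l) := by
  have hpow : ∀ k s, h (run f s (k * d)) = h (run f s d) ^ k := by
    intro k
    induction k with
    | zero => intro s; simp [run_zero, h1]
    | succ k ih =>
      intro s
      rw [Nat.succ_mul, run_add, h2, run_shift hf, ih, pow_succ]
  induction k with
  | zero => simp
  | succ k ih =>
    obtain ⟨l', hl'⟩ : ∃ l', l + k * (n * d) = n * d + l' :=
      ⟨l + k * (n * d) - n * d, by omega⟩
    have e : l + (k + 1) * (n * d) = n * d + (n * d + l') := by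
      rw [← hl']; ring
    rw [e, run_add, h2, run_shift hf, run_add, h2, run_shift hf, ← mul_assoc, hpow, hn,
      ← ih, hl', run_add, h2, run_shift hf, hpow]

/-! ### Dickson's lemma -/

lemma dickson {ι : Type*} [Finite ι] (S : Set (ι → ℕ)) :
    ∃ B : ℕ, ∀ x ∈ S, ∃ y ∈ S, y ≤ x ∧ ∀ i, y i ≤ B := by
  classical
  have hfin : {y | Minimal (· ∈ S) y}.Finite := by
    apply WellQuasiOrderedLE.finite_of_isAntichain
    exact setOfPred_minimal_antichain _
  have := Fintype.ofFinite ι
  refine ⟨∑ y ∈ hfin.toFinset, ∑ i, y i, fun x hx => ?_⟩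
  obtain ⟨y, hy, hmin⟩ : ∃ y, y ≤ x ∧ Minimal (· ∈ S) y := by
    have hwf : WellFounded ((· < ·) : (ι → ℕ) → (ι → ℕ) → Prop) := wellFounded_lt
    obtain ⟨y, ⟨hyS, hyx⟩, hm⟩ := hwf.has_min {y | y ∈ S ∧ y ≤ x} ⟨x, hx, le_rfl⟩
    refine ⟨y, hyx, hyS, fun z hz hzy => ?_⟩
    by_contra hne
    exact hm z ⟨hz, hzy.trans hyx⟩ (lt_of_le_not_ge hzy hne)
  refine ⟨y, hmin.prop, hy, fun i => ?_⟩
  calc y i ≤ ∑ i, y i := Finset.single_le_sum (f := y) (fun _ _ => Nat.zero_le _) (Finset.mem_univ i)
    _ ≤ _ := Finset.single_le_sum (f := fun y : ι → ℕ => ∑ i, y i) (fun _ _ => Nat.zero_le _)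
      (hfin.mem_toFinset.mpr hmin)

/-! ### the refinement matrix -/

lemma infix_flatMap {A κ : Type*} (w : κ → List A) (J : List κ) {j : κ} (hj : j ∈ J) :
    w j <:+: J.flatMap w := by
  obtain ⟨s, t, rfl⟩ := List.append_of_mem hj
  rw [List.flatMap_append, List.flatMap_cons, ← List.append_assoc]
  exact List.infix_append _ _ _

lemma flatMap_get {A Y : Type*} (l : List Y) (σ : Y → List A) :
    l.flatMap σ = (List.finRange l.length).flatMap (fun i => σ (l.get i)) := by
  conv_lhs => rw [← List.map_get_finRange l]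
  rw [List.flatMap_map]

lemma exists_matrix {A : Type*} {n m : ℕ} (U : Fin n → List A) (V : Fin m → List A)
    (h : (List.finRange n).flatMap U = (List.finRange m).flatMap V) :
    ∃ w : Fin n → Fin m → List A, (∀ i, (List.finRange m).flatMap (w i) = U i) ∧
      (∀ j, (List.finRange n).flatMap (fun i => w i j) = V j) ∧
      (∀ i i' j j', i < i' → j < j' → w i j' = [] ∨ w i' j = []) := by
  have hU : (List.ofFn U).flatten = (List.finRange n).flatMap U := by
    rw [List.ofFn_eq_map]; rfl
  have hV : (List.ofFn V).flatten = (List.finRange m).flatMap V := by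
    rw [List.ofFn_eq_map]; rfl
  have hUV : (List.ofFn V).flatten = (List.ofFn U).flatten := by rw [hU, hV, h]
  set u := cu (List.ofFn U) with hu
  set v := cu (List.ofFn V) with hv
  have um : Monotone u := cu_mono _
  have vm : Monotone v := cu_mono _
  have u0 : u 0 = 0 := cu_zero _
  have v0 : v 0 = 0 := cu_zero _
  have un : u n = (List.ofFn U).flatten.length := by
    have := cu_length (List.ofFn U)
    rwa [List.length_ofFn] at this
  have vn : v m = (List.ofFn U).flatten.length := by
    have := cu_length (List.ofFn V)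
    rwa [List.length_ofFn, hUV] at this
  refine ⟨fun i j => sl (List.ofFn U).flatten (max (u i) (v j)) (min (u (i + 1)) (v (j + 1))),
    ?_, ?_, ?_⟩
  · intro i
    have h1 := row_aux (List.ofFn U).flatten v vm (um (Nat.le_succ i.val)) m
    rw [← List.map_coe_finRange_eq_range, List.flatMap_map] at h1
    refine h1.trans ?_
    have h2 : u (i + 1) ≤ u n := um (by omega)
    have h3 := sl_flat (List.ofFn U) (i := i) (by rw [List.length_ofFn]; exact i.2)
    rw [List.getElem_ofFn] at h3
    rw [v0, vn, ← un, max_eq_left (Nat.zero_le _)]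
    simp only [Nat.succ_eq_add_one]
    rw [min_eq_left h2]
    exact h3
  · intro j
    have h1 := row_aux (List.ofFn U).flatten u um (vm (Nat.le_succ j.val)) n
    rw [← List.map_coe_finRange_eq_range, List.flatMap_map] at h1
    have e : (List.finRange n).flatMap (fun i : Fin n => sl (List.ofFn U).flatten
        (max (u i) (v j)) (min (u (i + 1)) (v (j + 1)))) = (List.finRange n).flatMap
        (fun i : Fin n => sl (List.ofFn U).flatten
        (max (v j) (u i)) (min (v (j + 1)) (u (i + 1)))) := by
      congr 1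
      ext i
      rw [max_comm, min_comm]
    rw [e]
    refine h1.trans ?_
    have h2 : v (j + 1) ≤ v m := vm (by omega)
    have h3 := sl_flat (List.ofFn V) (i := j) (by rw [List.length_ofFn]; exact j.2)
    rw [List.getElem_ofFn, hUV] at h3
    rw [u0, un, ← vn, max_eq_left (Nat.zero_le _)]
    simp only [Nat.succ_eq_add_one]
    rw [min_eq_left h2]
    exact h3
  · intro i i' j j' hi hj
    have h1 : u (i + 1) ≤ u i' := um (by omega)
    have h2 : v (j + 1) ≤ v j' := vm (by omega)
    by_contra hcon
    push Not at hcon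
    obtain ⟨c1, c2⟩ := hcon
    have d1 : max (u i) (v j') < min (u (i + 1)) (v (j' + 1)) := by
      by_contra h3
      exact c1 (sl_empty _ (by omega))
    have d2 : max (u i') (v j) < min (u (i' + 1)) (v (j + 1)) := by
      by_contra h3
      exact c2 (sl_empty _ (by omega))
    omega

/-! ### rows -/

lemma length_fr {A : Type*} {m : ℕ} (w : Fin m → List A) :
    ((List.finRange m).flatMap w).length = ∑ j, (w j).length := by
  rw [List.length_flatMap, Fin.sum_univ_def]

lemma bound_claim {A : Type*} {g m : ℕ} (hg : 0 < g) (w : Fin m → List A) (U : List A)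
    (hU : (List.finRange m).flatMap w = U) (a : Fin m → ℕ) (ha : ∀ j, a j * g ≤ (w j).length)
    (hb : ∀ j, (w j).length ≤ a j * g + g) :
    ∃ t : Fin (m + 1), U.length / g = ∑ j, a j + t := by
  have hl : U.length = ∑ j, (w j).length := by rw [← hU, length_fr]
  have h1 : (∑ j, a j) * g ≤ U.length := by
    rw [hl, Finset.sum_mul]; exact Finset.sum_le_sum (fun j _ => ha j)
  have h2 : U.length ≤ g * (∑ j, a j + m) := by
    rw [hl]
    calc ∑ j, (w j).length ≤ ∑ j, (a j * g + g) := Finset.sum_le_sum (fun j _ => hb j)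
      _ = g * (∑ j, a j + m) := by
        rw [Finset.sum_add_distrib, ← Finset.sum_mul]
        simp
        ring
  have h3 : ∑ j, a j ≤ U.length / g := (Nat.le_div_iff_mul_le hg).mpr h1
  have h4 : U.length / g ≤ ∑ j, a j + m := Nat.div_le_of_le_mul h2
  exact ⟨⟨U.length / g - ∑ j, a j, by omega⟩, by simp; omega⟩

lemma row_claim {A : Type} {f : ℕ → A} {d : ℕ} (hf : ∀ i, f (i + d) = f i) {g c : ℕ}
    (hg : g = c * d) {m : ℕ} (w : Fin m → List A) (U : List A)
    (hU : (List.finRange m).flatMap w = U) (a b : Fin m → ℕ) (hab : ∀ j, b j ≤ a j)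
    (ha : ∀ j, a j * g ≤ (w j).length) {s l : ℕ} (hrun : U = run f s l) {x y t : ℕ}
    (hx : x = ∑ j, a j + t) (hy : y = ∑ j, b j + t) :
    (List.finRange m).flatMap (fun j => (w j).take ((w j).length - (a j - b j) * g)) =
      U.take (U.length - (x - y) * g) := by
  have hl : U.length = ∑ j, (w j).length := by rw [← hU, length_fr]
  have hj : ∀ j, (a j - b j) * g ≤ (w j).length := fun j =>
    le_trans (Nat.mul_le_mul_right _ (Nat.sub_le _ _)) (ha j)
  have h1 := run_pieces hf w (fun j => (w j).length - (a j - b j) * g)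
    (fun j => (a j - b j) * c) (List.finRange m) s l (hU.trans hrun) (by
      intro j _
      have := hj j
      have e : (a j - b j) * c * d = (a j - b j) * g := by rw [hg]; ring
      simp only [e]
      omega)
  rw [h1, ← Fin.sum_univ_def]
  have e1 : ∑ j, ((w j).length - (a j - b j) * g) + (x - y) * g = U.length := by
    have e2 : x - y = ∑ j, (a j - b j) := by
      have : ∑ j, a j = ∑ j, (a j - b j) + ∑ j, b j := by
        rw [← Finset.sum_add_distrib]
        exact Finset.sum_congr rfl (fun j _ => by have := hab j; omega)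
      omega
    rw [e2, Finset.sum_mul, ← Finset.sum_add_distrib, hl]
    exact Finset.sum_congr rfl (fun j _ => by have := hj j; omega)
  have e3 : U.length = l := by rw [hrun, length_run]
  have e4 : ∑ j, ((w j).length - (a j - b j) * g) = U.length - (x - y) * g := by omega
  rw [e4]
  conv_rhs => rw [hrun]
  rw [take_run, length_run, e3]
  congr 1
  omega

/-! ### the theorem -/

theorem sr : SRStatement := by
  intro A Y M _ _ _ h h1 h2 eqs
  classical
  obtain ⟨n0, hn0, hn⟩ := exists_idem (M := M)
  have hdick := fun (τ : Set Y × Set Y ×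
      ((e : Fin eqs.length) → Fin (eqs.get e).1.length → Fin ((eqs.get e).2.length + 1)) ×
      ((e : Fin eqs.length) → Fin (eqs.get e).2.length → Fin ((eqs.get e).1.length + 1))) =>
    dickson {x : (Σ e : Fin eqs.length, Fin (eqs.get e).1.length × Fin (eqs.get e).2.length) ⊕ Y
      → ℕ | (∀ e i, (eqs.get e).1.get i ∈ τ.1 → x (Sum.inr ((eqs.get e).1.get i)) =
        ∑ j, x (Sum.inl ⟨e, i, j⟩) + τ.2.2.1 e i) ∧
        (∀ e j, (eqs.get e).2.get j ∈ τ.1 → x (Sum.inr ((eqs.get e).2.get j)) =
        ∑ i, x (Sum.inl ⟨e, i, j⟩) + τ.2.2.2 e j) ∧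
        (∀ y, x (Sum.inr y) = 0 ↔ y ∈ τ.2.1)}
  choose B hB using hdick
  obtain ⟨Q, hQ⟩ : ∃ Q, ∀ τ, B τ ≤ Q := by
    obtain ⟨Q, hQ⟩ := (Set.finite_range B).bddAbove
    exact ⟨Q, fun τ => hQ ⟨τ, rfl⟩⟩
  refine ⟨2 * n0 * (Q + 1), ?_⟩
  intro f d lam hd hf hlam σ Y1 hσ hY1 hnY1
  -- the unit
  obtain ⟨g, c, hgc, hc, hg0, hglam, hgle⟩ : ∃ g c : ℕ, g = c * (n0 * d) ∧ 0 < c ∧ 0 < g ∧
      lam ≤ g ∧ g ≤ 2 * n0 * lam := by
    refine ⟨(lam / d + 1) * (n0 * d), lam / d + 1, rfl, by positivity, by positivity, ?_, ?_⟩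
    · have h3 : lam < d * (lam / d + 1) := Nat.lt_mul_div_succ lam hd
      calc lam ≤ d * (lam / d + 1) := h3.le
        _ ≤ (d * (lam / d + 1)) * n0 := Nat.le_mul_of_pos_right _ hn0
        _ = _ := by ring
    · have h3 : lam / d * d ≤ lam := Nat.div_mul_le_self lam d
      calc (lam / d + 1) * (n0 * d) = n0 * (lam / d * d + d) := by ring
        _ ≤ n0 * (lam + lam) := Nat.mul_le_mul_left _ (by omega)
        _ = 2 * n0 * lam := by ring
  -- the matrices
  have hmat : ∀ e : Fin eqs.length, ∃ w : Fin (eqs.get e).1.length → Fin (eqs.get e).2.length →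
      List A, (∀ i, (List.finRange _).flatMap (w i) = σ ((eqs.get e).1.get i)) ∧
      (∀ j, (List.finRange _).flatMap (fun i => w i j) = σ ((eqs.get e).2.get j)) ∧
      (∀ i i' j j', i < i' → j < j' → w i j' = [] ∨ w i' j = []) := by
    intro e
    apply exists_matrix
    have := hσ (eqs.get e) (List.get_mem _ _)
    rwa [flatMap_get, flatMap_get (eqs.get e).2] at this
  choose w hwL hwR hwS using hmat
  -- the vector
  let qv : (Σ e : Fin eqs.length, Fin (eqs.get e).1.length × Fin (eqs.get e).2.length) ⊕ Y → ℕ :=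
    Sum.elim (fun k => if (eqs.get k.1).1.get k.2.1 ∈ Y1 ∧ (eqs.get k.1).2.get k.2.2 ∈ Y1 then
      (w k.1 k.2.1 k.2.2).length / g else 0) (fun y => (σ y).length / g)
  have hqv : ∀ e i j, qv (Sum.inl ⟨e, i, j⟩) * g ≤ (w e i j).length := by
    intro e i j
    simp only [qv, Sum.elim_inl]
    split_ifs
    · exact Nat.div_mul_le_self _ _
    · simp
  have hqv2 : ∀ e i j, (eqs.get e).1.get i ∈ Y1 ∨ (eqs.get e).2.get j ∈ Y1 →
      (w e i j).length ≤ qv (Sum.inl ⟨e, i, j⟩) * g + g := by
    intro e i j hor
    simp only [qv, Sum.elim_inl]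
    have i1 : w e i j <:+: σ ((eqs.get e).1.get i) := by
      rw [← hwL e i]; exact infix_flatMap (w e i) _ (List.mem_finRange j)
    have i2 : w e i j <:+: σ ((eqs.get e).2.get j) := by
      rw [← hwR e j]; exact infix_flatMap (fun i => w e i j) _ (List.mem_finRange i)
    split_ifs with hif
    · have := Nat.lt_mul_div_succ (w e i j).length hg0
      rw [Nat.mul_add, Nat.mul_one, Nat.mul_comm g] at this
      exact this.le
    · rw [zero_mul, zero_add]
      refine le_trans ?_ hglam
      rcases hor with hor | hor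
      · have hno : (eqs.get e).2.get j ∉ Y1 := fun h3 => hif ⟨hor, h3⟩
        obtain ⟨s, l, hs⟩ := hY1 _ hor
        rw [hs] at i1
        obtain ⟨s', hs'⟩ := infix_run i1
        rw [hs'] at i2
        exact hnY1 _ hno _ _ i2
      · have hno : (eqs.get e).1.get i ∉ Y1 := fun h3 => hif ⟨h3, hor⟩
        obtain ⟨s, l, hs⟩ := hY1 _ hor
        rw [hs] at i2
        obtain ⟨s', hs'⟩ := infix_run i2
        rw [hs'] at i1
        exact hnY1 _ hno _ _ i1
  have htL : ∀ e i, ∃ t : Fin ((eqs.get e).2.length + 1), (eqs.get e).1.get i ∈ Y1 →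
      qv (Sum.inr ((eqs.get e).1.get i)) = ∑ j, qv (Sum.inl ⟨e, i, j⟩) + t := by
    intro e i
    by_cases hi : (eqs.get e).1.get i ∈ Y1
    · obtain ⟨t, ht⟩ := bound_claim hg0 (w e i) _ (hwL e i) (fun j => qv (Sum.inl ⟨e, i, j⟩))
        (fun j => hqv e i j) (fun j => hqv2 e i j (Or.inl hi))
      exact ⟨t, fun _ => ht⟩
    · exact ⟨0, fun h3 => absurd h3 hi⟩
  have htR : ∀ e j, ∃ t : Fin ((eqs.get e).1.length + 1), (eqs.get e).2.get j ∈ Y1 →
      qv (Sum.inr ((eqs.get e).2.get j)) = ∑ i, qv (Sum.inl ⟨e, i, j⟩) + t := by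
    intro e j
    by_cases hj : (eqs.get e).2.get j ∈ Y1
    · obtain ⟨t, ht⟩ := bound_claim hg0 (fun i => w e i j) _ (hwR e j)
        (fun i => qv (Sum.inl ⟨e, i, j⟩))
        (fun i => hqv e i j) (fun i => hqv2 e i j (Or.inr hj))
      exact ⟨t, fun _ => ht⟩
    · exact ⟨0, fun h3 => absurd h3 hj⟩
  choose tL htL using htL
  choose tR htR using htR
  obtain ⟨xs, ⟨hxL, hxR, hxZ⟩, hxle, hxB⟩ := hB ⟨Y1, {y | qv (Sum.inr y) = 0}, tL, tR⟩ qv
    ⟨htL, htR, fun y => Iff.rfl⟩
  simp only at hxL hxR hxZ
  -- the new solution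
  let σ' : Y → List A := fun y => if y ∈ Y1 then
    (σ y).take ((σ y).length - (qv (Sum.inr y) - xs (Sum.inr y)) * g) else σ y
  have hσ'1 : ∀ y ∈ Y1, σ' y =
      (σ y).take ((σ y).length - (qv (Sum.inr y) - xs (Sum.inr y)) * g) := by
    intro y hy; simp only [σ', if_pos hy]
  have hσ'2 : ∀ y, y ∉ Y1 → σ' y = σ y := by
    intro y hy; simp only [σ', if_neg hy]
  have hgd : g = (c * n0) * d := by rw [hgc]; ring
  -- rows and columns
  have rowL : ∀ e i, (List.finRange _).flatMap (fun j => (w e i j).take ((w e i j).length -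
      (qv (Sum.inl ⟨e, i, j⟩) - xs (Sum.inl ⟨e, i, j⟩)) * g)) = σ' ((eqs.get e).1.get i) := by
    intro e i
    by_cases hi : (eqs.get e).1.get i ∈ Y1
    · obtain ⟨s, l, hs⟩ := hY1 _ hi
      rw [hσ'1 _ hi]
      exact row_claim hf hgd (w e i) _ (hwL e i) (fun j => qv (Sum.inl ⟨e, i, j⟩))
        (fun j => xs (Sum.inl ⟨e, i, j⟩)) (fun j => hxle _) (fun j => hqv e i j) hs
        (htL e i hi) (hxL e i hi)
    · rw [hσ'2 _ hi, ← hwL e i]
      congr 1
      ext1 j
      have : qv (Sum.inl ⟨e, i, j⟩) = 0 := by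
        simp only [qv, Sum.elim_inl]
        rw [if_neg (fun h3 => hi h3.1)]
      rw [this]
      simp
  have rowR : ∀ e j, (List.finRange _).flatMap (fun i => (w e i j).take ((w e i j).length -
      (qv (Sum.inl ⟨e, i, j⟩) - xs (Sum.inl ⟨e, i, j⟩)) * g)) = σ' ((eqs.get e).2.get j) := by
    intro e j
    by_cases hj : (eqs.get e).2.get j ∈ Y1
    · obtain ⟨s, l, hs⟩ := hY1 _ hj
      rw [hσ'1 _ hj]
      exact row_claim hf hgd (fun i => w e i j) _ (hwR e j) (fun i => qv (Sum.inl ⟨e, i, j⟩))
        (fun i => xs (Sum.inl ⟨e, i, j⟩)) (fun i => hxle _) (fun i => hqv e i j) hs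
        (htR e j hj) (hxR e j hj)
    · rw [hσ'2 _ hj, ← hwR e j]
      congr 1
      ext1 i
      have : qv (Sum.inl ⟨e, i, j⟩) = 0 := by
        simp only [qv, Sum.elim_inl]
        rw [if_neg (fun h3 => hj h3.2)]
      rw [this]
      simp
  have hlen : ∀ y, (qv (Sum.inr y) - xs (Sum.inr y)) * g ≤ (σ y).length := fun y =>
    le_trans (Nat.mul_le_mul_right _ (Nat.sub_le _ _)) (Nat.div_mul_le_self _ _)
  refine ⟨σ', ?_, hσ'2, ?_, ?_⟩
  · intro e0 he0
    obtain ⟨e, rfl⟩ := List.mem_iff_get.mp he0
    rw [flatMap_get, flatMap_get (eqs.get e).2]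
    simp only [← rowL, ← rowR]
    refine swap (· < ·) (· < ·) _ _ _ (List.pairwise_lt_finRange _) (List.pairwise_lt_finRange _) ?_
    intro i i' j j' hi hj
    rcases hwS e i i' j j' hi hj with h3 | h3
    · left; rw [h3]; simp
    · right; rw [h3]; simp
  · intro y hy
    obtain ⟨s, l, hs⟩ := hY1 _ hy
    refine ⟨s, min ((σ y).length - (qv (Sum.inr y) - xs (Sum.inr y)) * g) l, ?_, ?_⟩
    · rw [hσ'1 _ hy]
      have htk : ∀ n, (σ y).take n = run f s (min n l) := fun n => by rw [hs, take_run]
      exact htk _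
    · refine le_trans (min_le_left _ _) ?_
      have h3 : (σ y).length < g * ((σ y).length / g + 1) := Nat.lt_mul_div_succ _ hg0
      have h4 : xs (Sum.inr y) ≤ Q := (hxB _).trans (hQ _)
      have h5 : xs (Sum.inr y) ≤ qv (Sum.inr y) := hxle _
      have h6 : (σ y).length - (qv (Sum.inr y) - xs (Sum.inr y)) * g ≤
          (xs (Sum.inr y) + 1) * g := by
        rw [Nat.sub_le_iff_le_add]
        have e : (xs (Sum.inr y) + 1) * g + (qv (Sum.inr y) - xs (Sum.inr y)) * g =
            g * (qv (Sum.inr y) + 1) := by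
          rw [← add_mul, mul_comm]
          congr 1
          omega
        rw [e]
        exact h3.le
      calc _ ≤ (xs (Sum.inr y) + 1) * g := h6
        _ ≤ (Q + 1) * (2 * n0 * lam) := Nat.mul_le_mul (by omega) hgle
        _ = _ := by ring
  · intro y
    by_cases hy : y ∈ Y1
    swap
    · rw [hσ'2 _ hy]
    obtain ⟨s, l, hs⟩ := hY1 _ hy
    rw [hσ'1 _ hy]
    have hl : (σ y).length = l := by rw [hs, length_run]
    by_cases hq : qv (Sum.inr y) = 0
    · rw [hq]
      simp
    · have hxs : xs (Sum.inr y) ≠ 0 := fun h3 => hq ((hxZ y).mp h3)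
      have h5 : xs (Sum.inr y) ≤ qv (Sum.inr y) := hxle _
      have h6 : qv (Sum.inr y) * g ≤ (σ y).length := Nat.div_mul_le_self _ _
      have h7 := hlen y
      have h8 : (qv (Sum.inr y) - xs (Sum.inr y)) * g + xs (Sum.inr y) * g =
          qv (Sum.inr y) * g := by
        rw [← add_mul]; congr 1; omega
      have h9 : g ≤ xs (Sum.inr y) * g := Nat.le_mul_of_pos_left _ (by omega)
      have h10 : n0 * d ≤ g := by
        rw [hgc]; exact Nat.le_mul_of_pos_left _ hc
      set l' := (σ y).length - (qv (Sum.inr y) - xs (Sum.inr y)) * g with hl'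
      have e1 : (σ y).length = l' + ((qv (Sum.inr y) - xs (Sum.inr y)) * c) * (n0 * d) := by
        have : ((qv (Sum.inr y) - xs (Sum.inr y)) * c) * (n0 * d) =
          (qv (Sum.inr y) - xs (Sum.inr y)) * g := by rw [hgc]; ring
        rw [this]; omega
      have e2 : (σ y).take l' = run f s l' := by
        rw [hs, take_run, min_eq_left (by omega)]
      rw [e2]
      have e3 : σ y = run f s (l' + ((qv (Sum.inr y) - xs (Sum.inr y)) * c) * (n0 * d)) := by
        rw [← e1, hl]; exact hs
      rw [e3, h_run h1 h2 hf hn s l' _ (by omega)]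

end Pool.Agent.Helper99.FCRuns
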