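import Mathlib

set_option autoImplicit false

open MeasureTheory ProbabilityTheory Filter

/-!
# Finitary factors of i.i.d. fields on `ℤ^d`: definitions

The notions used in the statement about finitely dependent colourings and their coding radius.
-/

namespace Pool.Agent.Helper99.FfiidColouring

/-- the `ℓ¹` norm on `ℤ^d` -/
def l1 {d : ℕ} (x : Fin d → ℤ) : ℕ := ∑ i, (x i).natAbs

/-- the law of an i.i.d. field on `ℤ^d` with single-site law `ν` -/
noncomputable def iidLaw (d : ℕ) {S : Type} [MeasurableSpace S] (ν : Measure S) :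
    Measure ((Fin d → ℤ) → S) := Measure.infinitePi (fun _ : Fin d → ℤ => ν)

/-- `F` commutes with the translations of `ℤ^d` -/
def CommutesWithTranslations {d q : ℕ} {S : Type} (F : ((Fin d → ℤ) → S) → (Fin d → ℤ) → Fin q) :
    Prop := ∀ (u : Fin d → ℤ) (y : (Fin d → ℤ) → S), F (fun v => y (v + u)) = fun v => F y (v + u)

/-- almost surely, adjacent sites have different colours -/
def IsColouring {d q : ℕ} {Ω : Type} [MeasurableSpace Ω] (P : Measure Ω)
    (X : Ω → (Fin d → ℤ) → Fin q) : Prop :=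
  ∀ᵐ ω ∂P, ∀ u v : Fin d → ℤ, l1 (u - v) = 1 → X ω u ≠ X ω v

/-- `k`-dependence -/
def IsDependent {d q : ℕ} {Ω : Type} [MeasurableSpace Ω] (k : ℕ) (P : Measure Ω)
    (X : Ω → (Fin d → ℤ) → Fin q) : Prop :=
  ∀ A B : Set (Fin d → ℤ), (∀ a ∈ A, ∀ b ∈ B, k < l1 (a - b)) →
    IndepFun (fun ω (a : A) => X ω a) (fun ω (b : B) => X ω b) P

/-- the value of `F y` at the origin is determined by `y` on the ball of radius `r` -/
def DeterminedBy {d q : ℕ} {S : Type} (F : ((Fin d → ℤ) → S) → (Fin d → ℤ) → Fin q)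
    (y : (Fin d → ℤ) → S) (r : ℕ) : Prop :=
  ∀ y' : (Fin d → ℤ) → S, (∀ v, l1 v ≤ r → y' v = y v) → F y' 0 = F y 0

/-- the coding radius: the least `r` such that `y` on the ball of radius `r` determines the value
at the origin (`⊤` if there is no such `r`) -/
noncomputable def codingRadius {d q : ℕ} {S : Type}
    (F : ((Fin d → ℤ) → S) → (Fin d → ℤ) → Fin q) (y : (Fin d → ℤ) → S) : ℕ∞ :=
  ⨅ (r : ℕ) (_ : DeterminedBy F y r), (r : ℕ∞)

end Pool.Agent.Helper99.FfiidColouring
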