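import Mathlib
import Pool.Agent.Helper99.FfiidDefs

set_option autoImplicit false

open MeasureTheory ProbabilityTheory Filter

/-!
# Finitely dependent colourings with superexponentially small coding radius

Construction on `ℤ`.  Let `U` be i.i.d. uniform on `[0,1]`.  The strict local maxima of `U` get the
colour `0`; they are never adjacent.  To every site an independent word is attached whose law is the
one-sided stationary `1`-dependent `4`-colouring law of Holroyd and Liggett, and the sites following
a strict local maximum (until the next one) are coloured by the word attached to that maximum.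
Given `U`, the colours are `1`-dependent, and their conditional law on a set of sites only depends on
which of these sites are local maxima.  So the colouring is `2`-dependent.  The coding radius at the
origin is at most one plus the distance to the last local maximum, whose tail is `2 / (r / 2)!`.
On `ℤ^d` one takes products over the `d` families of coordinate lines.
-/

namespace Pool.Agent.Helper99.FfiidColouring

/-! ## The building weights of Holroyd and Liggett -/

/-- building weights with fuel -/
noncomputable def hlAux : ℕ → List (Fin 4) → ℝ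
  | 0, _ => 1
  | (n + 1), x => if x.IsChain (· ≠ ·) then
      (∑ i ∈ Finset.range (n + 1), hlAux n (x.eraseIdx i)) / (2 * ((n : ℝ) + 2)) else 0

noncomputable def hl (x : List (Fin 4)) : ℝ := hlAux x.length x

lemma hl_nil : hl [] = 1 := by simp [hl, hlAux]

lemma hl_of_chain (x : List (Fin 4)) (hx : x ≠ []) (h : x.IsChain (· ≠ ·)) :
    (2 * ((x.length : ℝ) + 1)) * hl x = ∑ i ∈ Finset.range x.length, hl (x.eraseIdx i) := by
  obtain ⟨n, hn⟩ : ∃ n, x.length = n + 1 := by
    cases x with
    | nil => exact absurd rfl hx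
    | cons a t => exact ⟨t.length, rfl⟩
  have h1 : hl x = (∑ i ∈ Finset.range (n + 1), hlAux n (x.eraseIdx i)) / (2 * ((n : ℝ) + 2)) := by
    rw [hl, hn, hlAux, if_pos h]
  rw [h1, hn]
  push_cast
  have h2 : ∀ i ∈ Finset.range (n + 1), hlAux n (x.eraseIdx i) = hl (x.eraseIdx i) := by
    intro i hi
    rw [Finset.mem_range] at hi
    rw [hl, List.length_eraseIdx_of_lt (by omega), hn]
    rfl
  rw [Finset.sum_congr rfl h2]
  field_simp
  ring

lemma hl_of_not_chain (x : List (Fin 4)) (h : ¬ x.IsChain (· ≠ ·)) : hl x = 0 := by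
  cases x with
  | nil => simp at h
  | cons a t => rw [hl, List.length_cons, hlAux, if_neg h]

lemma hl_nonneg_aux (n : ℕ) (x : List (Fin 4)) : 0 ≤ hlAux n x := by
  induction n generalizing x with
  | zero => simp [hlAux]
  | succ n ih =>
    rw [hlAux]
    split_ifs
    · exact div_nonneg (Finset.sum_nonneg fun i _ => ih _) (by positivity)
    · exact le_rfl

lemma hl_nonneg (x : List (Fin 4)) : 0 ≤ hl x := hl_nonneg_aux _ _

/-- sum over erased positions of `x ++ a :: y` -/
lemma sum_erase (x y : List (Fin 4)) (a : Fin 4) :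
    ∑ i ∈ Finset.range (x ++ a :: y).length, hl ((x ++ a :: y).eraseIdx i)
      = (∑ i ∈ Finset.range x.length, hl (x.eraseIdx i ++ a :: y)) + hl (x ++ y)
        + ∑ j ∈ Finset.range y.length, hl (x ++ a :: y.eraseIdx j) := by
  have hlen : (x ++ a :: y).length = x.length + (1 + y.length) := by
    simp; ring
  rw [hlen, Finset.sum_range_add, Finset.sum_range_add]
  rw [add_assoc]
  congr 1
  · refine Finset.sum_congr rfl fun i hi => ?_
    rw [Finset.mem_range] at hi
    rw [List.eraseIdx_append_of_lt_length hi]
  · congr 1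
    · simp [List.eraseIdx_append_of_length_le (le_refl x.length)]
    · refine Finset.sum_congr rfl fun i hi => ?_
      rw [List.eraseIdx_append_of_length_le (by omega)]
      have : x.length + (1 + i) - x.length = i + 1 := by omega
      rw [this, List.eraseIdx_cons_succ]

lemma chain_mid_iff (x y : List (Fin 4)) (a : Fin 4) :
    (x ++ a :: y).IsChain (· ≠ ·) ↔ (x.IsChain (· ≠ ·) ∧ y.IsChain (· ≠ ·) ∧
      (∀ p ∈ x.getLast?, a ≠ p) ∧ (∀ r ∈ y.head?, a ≠ r)) := by
  rw [List.isChain_append, List.isChain_cons]
  constructor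
  · rintro ⟨h1, ⟨h2, h3⟩, h4⟩
    refine ⟨h1, h3, fun p hp => (h4 p hp a (by simp)).symm, fun r hr => h2 r hr⟩
  · rintro ⟨h1, h2, h3, h4⟩
    refine ⟨h1, ⟨h4, h2⟩, fun p hp b hb => ?_⟩
    simp at hb
    subst hb
    exact (h3 p hp).symm

lemma hl_eq_zero_left (x y : List (Fin 4)) (a : Fin 4) (h : ∃ p ∈ x.getLast?, a = p) :
    hl (x ++ a :: y) = 0 := by
  apply hl_of_not_chain
  rw [chain_mid_iff]
  rintro ⟨_, _, h3, _⟩
  obtain ⟨p, hp, hap⟩ := h
  exact h3 p hp hap

lemma hl_eq_zero_right (x y : List (Fin 4)) (a : Fin 4) (h : ∃ r ∈ y.head?, a = r) :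
    hl (x ++ a :: y) = 0 := by
  apply hl_of_not_chain
  rw [chain_mid_iff]
  rintro ⟨_, _, _, h4⟩
  obtain ⟨p, hp, hap⟩ := h
  exact h4 p hp hap

lemma sumL (x y : List (Fin 4)) (a : Fin 4)
    (h : a ∈ x.getLast? ∨ a ∈ y.head?) :
    (∑ i ∈ Finset.range x.length, hl (x.eraseIdx i ++ a :: y)) =
      if a ∈ x.getLast? then hl (x ++ y) else 0 := by
  split_ifs with hx
  · -- a is the last letter of x
    obtain ⟨x', rfl⟩ : ∃ x', x = x' ++ [a] := by
      rcases List.eq_nil_or_concat x with rfl | ⟨x', p, rfl⟩
      · simp at hx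
      · simp at hx
        subst hx
        exact ⟨x', by simp⟩
    have hlen : (x' ++ [a]).length = x'.length + 1 := by simp
    rw [hlen, Finset.sum_range_succ, Finset.sum_eq_zero]
    · rw [zero_add, List.eraseIdx_append_of_length_le (le_refl _)]
      simp
    · intro i hi
      rw [Finset.mem_range] at hi
      rw [List.eraseIdx_append_of_lt_length hi]
      exact hl_eq_zero_left _ _ _ ⟨a, by simp, rfl⟩
  · have hy : a ∈ y.head? := by tauto
    apply Finset.sum_eq_zero
    intro i _
    exact hl_eq_zero_right _ _ _ ⟨a, hy, rfl⟩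

lemma sumR (x y : List (Fin 4)) (a : Fin 4)
    (h : a ∈ x.getLast? ∨ a ∈ y.head?) :
    (∑ j ∈ Finset.range y.length, hl (x ++ a :: y.eraseIdx j)) =
      if a ∈ y.head? then hl (x ++ y) else 0 := by
  split_ifs with hy
  · obtain ⟨y', rfl⟩ : ∃ y', y = a :: y' := by
      cases y with
      | nil => simp at hy
      | cons b y' =>
        simp at hy
        subst hy
        exact ⟨y', rfl⟩
    have hlen : (a :: y').length = y'.length + 1 := by simp
    rw [hlen, Finset.sum_range_succ', Finset.sum_eq_zero]
    · simp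
    · intro i hi
      rw [List.eraseIdx_cons_succ]
      exact hl_eq_zero_right _ _ _ ⟨a, by simp, rfl⟩
  · have hx : a ∈ x.getLast? := by tauto
    apply Finset.sum_eq_zero
    intro i _
    exact hl_eq_zero_left _ _ _ ⟨a, hx, rfl⟩

/-- pointwise identity -/
lemma hl_point (x y : List (Fin 4)) (hx : x.IsChain (· ≠ ·)) (hy : y.IsChain (· ≠ ·)) (a : Fin 4) :
    (2 * ((x.length : ℝ) + y.length + 2)) * hl (x ++ a :: y) =
      (∑ i ∈ Finset.range x.length, hl (x.eraseIdx i ++ a :: y)) +
      (∑ j ∈ Finset.range y.length, hl (x ++ a :: y.eraseIdx j)) +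
      (1 - (if a ∈ x.getLast? then 2 else 0) - (if a ∈ y.head? then 2 else 0)) * hl (x ++ y) := by
  by_cases h : a ∈ x.getLast? ∨ a ∈ y.head?
  · have h0 : hl (x ++ a :: y) = 0 := by
      rcases h with h | h
      · exact hl_eq_zero_left _ _ _ ⟨a, h, rfl⟩
      · exact hl_eq_zero_right _ _ _ ⟨a, h, rfl⟩
    rw [h0, sumL x y a h, sumR x y a h]
    by_cases h1 : a ∈ x.getLast?
    · by_cases h2 : a ∈ y.head?
      · have h3 : hl (x ++ y) = 0 := by
          apply hl_of_not_chain
          rw [List.isChain_append]
          rintro ⟨_, _, h4⟩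
          exact h4 a h1 a h2 rfl
        simp [h3]
      · simp [h1, h2]; ring
    · have h2 : a ∈ y.head? := by tauto
      simp [h1, h2]; ring
  · push Not at h
    have hc : (x ++ a :: y).IsChain (· ≠ ·) := by
      rw [chain_mid_iff]
      refine ⟨hx, hy, fun p hp hap => h.1 (hap ▸ hp), fun p hp hap => h.2 (hap ▸ hp)⟩
    have h1 := hl_of_chain (x ++ a :: y) (by simp) hc
    rw [sum_erase] at h1
    have hlen : (((x ++ a :: y).length : ℕ) : ℝ) = x.length + y.length + 1 := by
      simp; ring
    rw [hlen] at h1
    rw [if_neg h.1, if_neg h.2]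
    linarith

lemma sum_ite_getLast (x : List (Fin 4)) :
    ∑ a : Fin 4, (if a ∈ x.getLast? then (2 : ℝ) else 0) = if x = [] then 0 else 2 := by
  rcases List.eq_nil_or_concat x with rfl | ⟨x', p, rfl⟩
  · simp
  · simp

lemma sum_ite_head (y : List (Fin 4)) :
    ∑ a : Fin 4, (if a ∈ y.head? then (2 : ℝ) else 0) = if y = [] then 0 else 2 := by
  cases y with
  | nil => simp
  | cons b y' => simp

lemma sum_erase_eq (x : List (Fin 4)) (hx : x.IsChain (· ≠ ·)) :
    (∑ i ∈ Finset.range x.length, hl (x.eraseIdx i)) =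
      if x = [] then 0 else (2 * ((x.length : ℝ) + 1)) * hl x := by
  split_ifs with h
  · subst h; simp
  · exact (hl_of_chain x h hx).symm

theorem hl_mid (N : ℕ) : ∀ x y : List (Fin 4), x.length + y.length = N →
    ∑ a : Fin 4, hl (x ++ a :: y) = hl x * hl y := by
  induction N using Nat.strong_induction_on with
  | _ N ih =>
  intro x y hN
  by_cases hx : x.IsChain (· ≠ ·)
  swap
  · rw [hl_of_not_chain x hx, zero_mul]
    apply Finset.sum_eq_zero
    intro a _
    apply hl_of_not_chain
    rw [chain_mid_iff]
    tauto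
  by_cases hy : y.IsChain (· ≠ ·)
  swap
  · rw [hl_of_not_chain y hy, mul_zero]
    apply Finset.sum_eq_zero
    intro a _
    apply hl_of_not_chain
    rw [chain_mid_iff]
    tauto
  have hsum : (2 * ((x.length : ℝ) + y.length + 2)) * ∑ a : Fin 4, hl (x ++ a :: y) =
      (∑ i ∈ Finset.range x.length, hl (x.eraseIdx i)) * hl y +
      hl x * (∑ j ∈ Finset.range y.length, hl (y.eraseIdx j)) +
      (4 - (if x = [] then 0 else 2) - (if y = [] then 0 else 2)) * hl (x ++ y) := by
    rw [Finset.mul_sum, Finset.sum_congr rfl fun a _ => hl_point x y hx hy a]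
    rw [Finset.sum_add_distrib, Finset.sum_add_distrib, ← Finset.sum_mul, Finset.sum_sub_distrib,
      Finset.sum_sub_distrib, sum_ite_getLast, sum_ite_head, Finset.sum_comm,
      Finset.sum_comm (s := Finset.univ) (t := Finset.range y.length)]
    rw [Finset.sum_mul, Finset.mul_sum]
    congr 1
    · congr 1
      · refine Finset.sum_congr rfl fun i hi => ?_
        rw [Finset.mem_range] at hi
        refine ih ((x.eraseIdx i).length + y.length) ?_ _ _ rfl
        rw [List.length_eraseIdx_of_lt hi]
        omega
      · refine Finset.sum_congr rfl fun i hi => ?_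
        rw [Finset.mem_range] at hi
        refine ih (x.length + (y.eraseIdx i).length) ?_ _ _ rfl
        rw [List.length_eraseIdx_of_lt hi]
        omega
    · simp
  rw [sum_erase_eq x hx, sum_erase_eq y hy] at hsum
  have hpos : (0 : ℝ) < 2 * ((x.length : ℝ) + y.length + 2) := by positivity
  have hne : (2 * ((x.length : ℝ) + y.length + 2)) ≠ 0 := hpos.ne'
  apply mul_left_cancel₀ hne
  rw [hsum]
  by_cases h1 : x = []
  · subst h1
    by_cases h2 : y = []
    · subst h2
      simp [hl_nil]; norm_num
    · simp [h2, hl_nil]; ring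
  · by_cases h2 : y = []
    · subst h2
      simp [h1, hl_nil]; ring
    · simp [h1, h2]; ring

theorem hl_one (x y : List (Fin 4)) : ∑ a : Fin 4, hl (x ++ a :: y) = hl x * hl y :=
  hl_mid _ x y rfl

theorem hl_right (x : List (Fin 4)) : ∑ a : Fin 4, hl (x ++ [a]) = hl x := by
  rw [hl_one, hl_nil, mul_one]

theorem hl_left (y : List (Fin 4)) : ∑ a : Fin 4, hl (a :: y) = hl y := by
  have := hl_one [] y
  simpa [hl_nil] using this

/-! ## The law of the one-sided colouring word -/

/-- transition weights of the colouring process -/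
noncomputable def kw (x : List (Fin 4)) (a : Fin 4) : ℝ :=
  if hl x = 0 then 1 / 4 else hl (x ++ [a]) / hl x

lemma kw_nonneg (x : List (Fin 4)) (a : Fin 4) : 0 ≤ kw x a := by
  unfold kw
  split_ifs
  · norm_num
  · exact div_nonneg (hl_nonneg _) (hl_nonneg _)

lemma kw_sum (x : List (Fin 4)) : ∑ a : Fin 4, kw x a = 1 := by
  unfold kw
  by_cases h : hl x = 0
  · simp [h]
  · simp only [h, if_false]
    rw [← Finset.sum_div, hl_right, div_self h]

lemma hl_append_le (x : List (Fin 4)) (a : Fin 4) : hl (x ++ [a]) ≤ hl x := by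
  rw [← hl_right x]
  exact Finset.single_le_sum (f := fun a => hl (x ++ [a])) (fun i _ => hl_nonneg _)
    (Finset.mem_univ a)

lemma hl_mul_kw (x : List (Fin 4)) (a : Fin 4) : hl x * kw x a = hl (x ++ [a]) := by
  unfold kw
  by_cases h : hl x = 0
  · have h1 := hl_append_le x a
    have h2 := hl_nonneg (x ++ [a])
    simp [h]; linarith
  · simp only [h, if_false]
    field_simp

noncomputable def kap (x : List (Fin 4)) : Measure (Fin 4) :=
  ∑ a : Fin 4, ENNReal.ofReal (kw x a) • Measure.dirac a

lemma kap_singleton (x : List (Fin 4)) (a : Fin 4) : kap x {a} = ENNReal.ofReal (kw x a) := by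
  classical
  unfold kap
  simp only [Measure.finsetSum_apply, Measure.smul_apply, smul_eq_mul]
  rw [Finset.sum_eq_single a]
  · simp
  · intro b _ hb
    simp [Measure.dirac_apply' _ (measurableSet_singleton a), hb]
  · simp

instance kap_prob (x : List (Fin 4)) : IsProbabilityMeasure (kap x) := by
  constructor
  unfold kap
  simp only [Measure.finsetSum_apply, Measure.smul_apply, smul_eq_mul, measure_univ, mul_one]
  rw [← ENNReal.ofReal_sum_of_nonneg (fun a _ => kw_nonneg x a), kw_sum, ENNReal.ofReal_one]

/-- the word generated by a table `g` -/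
def pre (g : List (Fin 4) → Fin 4) : ℕ → List (Fin 4)
  | 0 => []
  | n + 1 => pre g n ++ [g (pre g n)]

lemma pre_length (g : List (Fin 4) → Fin 4) (n : ℕ) : (pre g n).length = n := by
  induction n with
  | zero => rfl
  | succ n ih => simp [pre, ih]

def word (g : List (Fin 4) → Fin 4) (n : ℕ) : Fin 4 := g (pre g n)

lemma pre_getElem? (g : List (Fin 4) → Fin 4) (n i : ℕ) (h : i < n) :
    (pre g n)[i]? = some (word g i) := by
  induction n with
  | zero => omega
  | succ n ih =>
    rw [pre]
    rcases Nat.lt_succ_iff_lt_or_eq.mp h with h | h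
    · rw [List.getElem?_append_left (by rw [pre_length]; exact h)]
      exact ih h
    · subst h
      rw [List.getElem?_append_right (by rw [pre_length])]
      simp [pre_length, word]


lemma measurableSet_apply {ι : Type*} {E : Type*} [MeasurableSpace E] [DiscreteMeasurableSpace E]
    (i : ι) (p : E → Prop) : MeasurableSet {g : ι → E | p (g i)} :=
  (measurable_pi_apply (X := fun _ : ι => E) i) (MeasurableSet.of_discrete (s := {a : E | p a}))

lemma measurableSet_pre (n : ℕ) (x : List (Fin 4)) :
    MeasurableSet {g : List (Fin 4) → Fin 4 | pre g n = x} := by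
  induction n generalizing x with
  | zero =>
    simp only [pre]
    exact MeasurableSet.const _
  | succ n ih =>
    have : {g : List (Fin 4) → Fin 4 | pre g (n + 1) = x} =
        ⋃ y : List (Fin 4), ({g | pre g n = y} ∩ {g | y ++ [g y] = x}) := by
      ext g
      simp [pre]
    rw [this]
    refine MeasurableSet.iUnion fun y => MeasurableSet.inter (ih y) ?_
    exact measurableSet_apply y (fun a : Fin 4 => y ++ [a] = x)

lemma measurable_word : Measurable (word : (List (Fin 4) → Fin 4) → ℕ → Fin 4) := by
  rw [measurable_pi_iff]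
  intro n
  refine measurable_to_countable' fun a => ?_
  have : (fun g : List (Fin 4) → Fin 4 => word g n) ⁻¹' {a} =
      ⋃ x : List (Fin 4), ({g | pre g n = x} ∩ {g | g x = a}) := by
    ext g
    simp [word]
  rw [this]
  refine MeasurableSet.iUnion fun x => MeasurableSet.inter (measurableSet_pre n x) ?_
  exact measurableSet_apply x (fun b : Fin 4 => b = a)

/-- the table `g` generates `x` iff it passes all the single tests -/
lemma pre_eq_iff (g : List (Fin 4) → Fin 4) (x : List (Fin 4)) :
    pre g x.length = x ↔ ∀ i < x.length, x[i]? = some (g (x.take i)) := by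
  induction x using List.reverseRecOn with
  | nil => simp [pre]
  | append_singleton x a ih =>
    rw [List.length_append, List.length_singleton, pre]
    constructor
    · intro h
      have h1 := List.append_inj h (pre_length g _)
      have h2 := ih.mp h1.1
      have h3 : g x = a := by
        have := h1.2
        rw [h1.1] at this
        simpa using this
      intro i hi
      rcases Nat.lt_succ_iff_lt_or_eq.mp hi with hi | hi
      · rw [List.getElem?_append_left hi, List.take_append_of_le_length hi.le]
        exact h2 i hi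
      · subst hi
        simp [h3]
    · intro h
      have h2 : pre g x.length = x := by
        rw [ih]
        intro i hi
        have := h i (by omega)
        rwa [List.getElem?_append_left hi, List.take_append_of_le_length hi.le] at this
      have h3 := h x.length (by omega)
      simp at h3
      rw [h2, ← h3]

lemma prod_kw (x : List (Fin 4)) :
    ∏ i ∈ Finset.range x.length, kw (x.take i) (x.getD i 0) = hl x := by
  induction x using List.reverseRecOn with
  | nil => simp [hl_nil]
  | append_singleton x a ih =>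
    rw [List.length_append, List.length_singleton, Finset.prod_range_succ]
    have h1 : ∏ i ∈ Finset.range x.length, kw ((x ++ [a]).take i) ((x ++ [a]).getD i 0) = hl x := by
      rw [← ih]
      refine Finset.prod_congr rfl fun i hi => ?_
      rw [Finset.mem_range] at hi
      rw [List.take_append_of_le_length hi.le, List.getD_append _ _ _ _ hi]
    rw [h1]
    have h2 : (x ++ [a]).take x.length = x := by simp
    have h3 : (x ++ [a]).getD x.length 0 = a := by
      simp [List.getD]
    rw [h2, h3, hl_mul_kw]

lemma measure_pre (x : List (Fin 4)) :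
    Measure.infinitePi kap {g : List (Fin 4) → Fin 4 | pre g x.length = x} =
      ENNReal.ofReal (hl x) := by
  have hset : {g : List (Fin 4) → Fin 4 | pre g x.length = x} =
      Set.pi ((Finset.range x.length).image (fun i => x.take i) : Finset (List (Fin 4)))
        (fun y => {x.getD y.length 0}) := by
    ext g
    rw [Set.mem_ofPred_eq, pre_eq_iff]
    simp only [Set.mem_pi, Finset.coe_image, Finset.coe_range, Set.mem_image, Set.mem_Iio,
      forall_exists_index, and_imp, forall_apply_eq_imp_iff₂, Set.mem_singleton_iff]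
    refine forall_congr' fun i => forall_congr' fun hi => ?_
    have h1 : (x.take i).length = i := by simp [hi.le]
    rw [h1, List.getD_eq_getElem _ _ hi, List.getElem?_eq_getElem hi]
    simp [eq_comm]
  rw [hset, Measure.infinitePi_pi]
  · rw [Finset.prod_image]
    · rw [← prod_kw x, ENNReal.ofReal_prod_of_nonneg (fun i _ => kw_nonneg _ _)]
      refine Finset.prod_congr rfl fun i hi => ?_
      rw [Finset.mem_range] at hi
      have h1 : (x.take i).length = i := by simp [hi.le]
      rw [kap_singleton, h1]
    · intro i hi j hj hij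
      simp only [Finset.coe_range, Set.mem_Iio] at hi hj
      have h1 : (x.take i).length = i := by simp [hi.le]
      have h2 : (x.take j).length = j := by simp [hj.le]
      rw [← h1, ← h2]
      simp only at hij
      rw [hij]
  · intro y _
    exact measurableSet_singleton _

/-- the law of the one-sided infinite colouring word -/
noncomputable def rho : Measure (ℕ → Fin 4) := (Measure.infinitePi kap).map word

instance rho_prob : IsProbabilityMeasure rho :=
  Measure.isProbabilityMeasure_map measurable_word.aemeasurable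

/-- the event that `W` starts with `x` and then matches the pattern `z` -/
def mat (x : List (Fin 4)) (z : List (Option (Fin 4))) : Set (ℕ → Fin 4) :=
  {W | (∀ i a, x[i]? = some a → W i = a) ∧ (∀ j a, z[j]? = some (some a) → W (x.length + j) = a)}

noncomputable def hlp : List (Fin 4) → List (Option (Fin 4)) → ℝ
  | x, [] => hl x
  | x, some a :: z => hlp (x ++ [a]) z
  | x, none :: z => ∑ a : Fin 4, hlp (x ++ [a]) z

lemma hlp_nonneg (z : List (Option (Fin 4))) : ∀ x : List (Fin 4), 0 ≤ hlp x z := by
  induction z with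
  | nil => intro x; exact hl_nonneg x
  | cons o z ih =>
    intro x
    cases o with
    | none => exact Finset.sum_nonneg fun a _ => ih _
    | some a => exact ih _

lemma measurableSet_mat (x : List (Fin 4)) (z : List (Option (Fin 4))) :
    MeasurableSet (mat x z) := by
  have : mat x z = (⋂ i : ℕ, ⋂ a : Fin 4, {W | x[i]? = some a → W i = a}) ∩
      (⋂ j : ℕ, ⋂ a : Fin 4, {W | z[j]? = some (some a) → W (x.length + j) = a}) := by
    ext W
    simp [mat]
  rw [this]
  refine MeasurableSet.inter ?_ ?_
  · refine MeasurableSet.iInter fun i => MeasurableSet.iInter fun a => ?_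
    exact measurableSet_apply i (fun b : Fin 4 => x[i]? = some a → b = a)
  · refine MeasurableSet.iInter fun j => MeasurableSet.iInter fun a => ?_
    exact measurableSet_apply (x.length + j) (fun b : Fin 4 => z[j]? = some (some a) → b = a)

lemma word_mem_mat_nil (g : List (Fin 4) → Fin 4) (x : List (Fin 4)) :
    word g ∈ mat x [] ↔ pre g x.length = x := by
  constructor
  · rintro ⟨h, _⟩
    apply List.ext_getElem?
    intro i
    by_cases hi : i < x.length
    · rw [pre_getElem? g _ i hi]
      rw [h i x[i] (List.getElem?_eq_getElem hi), List.getElem?_eq_getElem hi]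
    · rw [List.getElem?_eq_none (by rw [pre_length]; omega), List.getElem?_eq_none (by omega)]
  · intro h
    refine ⟨fun i a hia => ?_, fun j a hja => by simp at hja⟩
    have hi : i < x.length := by
      by_contra hcon
      rw [List.getElem?_eq_none (by omega)] at hia
      simp at hia
    have := pre_getElem? g x.length i hi
    rw [h, hia] at this
    simpa using this.symm

lemma rho_mat (z : List (Option (Fin 4))) :
    ∀ x : List (Fin 4), rho (mat x z) = ENNReal.ofReal (hlp x z) := by
  induction z with
  | nil =>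
    intro x
    rw [rho, Measure.map_apply measurable_word (measurableSet_mat _ _)]
    have : word ⁻¹' (mat x []) = {g | pre g x.length = x} := by
      ext g
      exact word_mem_mat_nil g x
    rw [this, measure_pre]
    rfl
  | cons o z ih =>
    intro x
    cases o with
    | some a =>
      have : mat x (some a :: z) = mat (x ++ [a]) z := by
        ext W
        constructor
        · rintro ⟨h1, h2⟩
          refine ⟨fun i b hib => ?_, fun j b hjb => ?_⟩
          · rcases lt_trichotomy i x.length with hi | hi | hi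
            · rw [List.getElem?_append_left hi] at hib
              exact h1 i b hib
            · subst hi
              rw [List.getElem?_append_right le_rfl] at hib
              simp at hib
              subst hib
              have := h2 0 a (by simp)
              simpa using this
            · rw [List.getElem?_eq_none (by simp; omega)] at hib
              simp at hib
          · have := h2 (j + 1) b (by simpa using hjb)
            rw [← this]
            congr 1
            simp
            ring
        · rintro ⟨h1, h2⟩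
          refine ⟨fun i b hib => ?_, fun j b hjb => ?_⟩
          · have hi : i < x.length := by
              by_contra hcon
              rw [List.getElem?_eq_none (by omega)] at hib
              simp at hib
            exact h1 i b (by rw [List.getElem?_append_left hi]; exact hib)
          · cases j with
            | zero =>
              simp at hjb
              subst hjb
              exact h1 x.length a (by simp)
            | succ j =>
              have := h2 j b (by simpa using hjb)
              rw [← this]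
              congr 1
              simp
              ring
      rw [this, ih]
      rfl
    | none =>
      have : mat x (none :: z) = ⋃ a ∈ (Finset.univ : Finset (Fin 4)), mat (x ++ [a]) z := by
        ext W
        simp only [Set.mem_iUnion, Finset.mem_univ, exists_true_left]
        constructor
        · rintro ⟨h1, h2⟩
          refine ⟨W x.length, fun i b hib => ?_, fun j b hjb => ?_⟩
          · rcases lt_trichotomy i x.length with hi | hi | hi
            · rw [List.getElem?_append_left hi] at hib
              exact h1 i b hib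
            · subst hi
              rw [List.getElem?_append_right le_rfl] at hib
              simp at hib
              exact hib
            · rw [List.getElem?_eq_none (by simp; omega)] at hib
              simp at hib
          · have := h2 (j + 1) b (by simpa using hjb)
            rw [← this]
            congr 1
            simp
            ring
        · rintro ⟨a, h1, h2⟩
          refine ⟨fun i b hib => ?_, fun j b hjb => ?_⟩
          · have hi : i < x.length := by
              by_contra hcon
              rw [List.getElem?_eq_none (by omega)] at hib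
              simp at hib
            exact h1 i b (by rw [List.getElem?_append_left hi]; exact hib)
          · cases j with
            | zero =>
              simp at hjb
            | succ j =>
              have := h2 j b (by simpa using hjb)
              rw [← this]
              congr 1
              simp
              ring
      rw [this, measure_biUnion_finset]
      · rw [hlp, ENNReal.ofReal_sum_of_nonneg (fun a _ => hlp_nonneg z _)]
        exact Finset.sum_congr rfl fun a _ => ih _
      · intro a _ b _ hab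
        refine Set.disjoint_left.mpr fun W hWa hWb => hab ?_
        have h1 := hWa.1 x.length a (by simp)
        have h2 := hWb.1 x.length b (by simp)
        rw [← h1, ← h2]
      · intro a _
        exact measurableSet_mat _ _

lemma hlp_mid (z : List (Option (Fin 4))) : ∀ x y : List (Fin 4),
    ∑ a : Fin 4, hlp (x ++ a :: y) z = hl x * hlp y z := by
  induction z with
  | nil => intro x y; exact hl_one x y
  | cons o z ih =>
    intro x y
    cases o with
    | some b =>
      have := ih x (y ++ [b])
      simpa [hlp] using this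
    | none =>
      simp only [hlp]
      rw [Finset.sum_comm, Finset.mul_sum]
      refine Finset.sum_congr rfl fun b _ => ?_
      have := ih x (y ++ [b])
      simpa using this

lemma hlp_none_cons (z : List (Option (Fin 4))) : hlp [] (none :: z) = hlp [] z := by
  have := hlp_mid z [] []
  simpa [hlp, hl_nil] using this

lemma hlp_append_none (z z' : List (Option (Fin 4))) : ∀ x : List (Fin 4),
    hlp x (z ++ none :: z') = hlp x z * hlp [] z' := by
  induction z with
  | nil =>
    intro x
    have := hlp_mid z' x []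
    simpa [hlp] using this
  | cons o z ih =>
    intro x
    cases o with
    | some b => simpa [hlp] using ih (x ++ [b])
    | none =>
      simp only [List.cons_append, hlp]
      rw [Finset.sum_mul]
      exact Finset.sum_congr rfl fun b _ => ih _


/-! Part C : events on finite sets of positions -/

def ev (T : Finset ℕ) (c : ℕ → Fin 4) : Set (ℕ → Fin 4) := {W | ∀ i ∈ T, W i = c i}

def patF (s n : ℕ) (T : Finset ℕ) (c : ℕ → Fin 4) : List (Option (Fin 4)) :=
  (List.range n).map (fun i => if s + i ∈ T then some (c (s + i)) else none)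

lemma patF_add (s m n : ℕ) (T : Finset ℕ) (c : ℕ → Fin 4) :
    patF s (m + n) T c = patF s m T c ++ patF (s + m) n T c := by
  unfold patF
  rw [List.range_add, List.map_append, List.map_map]
  congr 1
  refine List.map_congr_left fun i _ => ?_
  simp [Function.comp, add_assoc]

lemma patF_succ' (s n : ℕ) (T : Finset ℕ) (c : ℕ → Fin 4) :
    patF s (n + 1) T c = (if s ∈ T then some (c s) else none) :: patF (s + 1) n T c := by
  rw [add_comm n 1, patF_add]
  simp [patF]

lemma patF_congr (s n : ℕ) (T T' : Finset ℕ) (c : ℕ → Fin 4)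
    (h : ∀ i, s ≤ i → i < s + n → (i ∈ T ↔ i ∈ T')) : patF s n T c = patF s n T' c := by
  unfold patF
  refine List.map_congr_left fun i hi => ?_
  rw [List.mem_range] at hi
  simp only [h (s + i) (by omega) (by omega)]

lemma patF_none (s n : ℕ) (T : Finset ℕ) (c : ℕ → Fin 4)
    (h : ∀ i ∈ T, ¬ (s ≤ i ∧ i < s + n)) : patF s n T c = List.replicate n none := by
  unfold patF
  rw [List.eq_replicate_iff]
  refine ⟨by simp, fun b hb => ?_⟩
  rw [List.mem_map] at hb
  obtain ⟨i, hi, rfl⟩ := hb
  rw [List.mem_range] at hi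
  rw [if_neg]
  intro hT
  exact h _ hT ⟨by omega, by omega⟩

lemma hlp_replicate (n : ℕ) (z : List (Option (Fin 4))) :
    hlp [] (List.replicate n none ++ z) = hlp [] z := by
  induction n with
  | zero => simp
  | succ n ih => rw [List.replicate_succ, List.cons_append, hlp_none_cons, ih]

lemma ev_eq_mat (n : ℕ) (T : Finset ℕ) (c : ℕ → Fin 4) (h : ∀ i ∈ T, i < n) :
    ev T c = mat [] (patF 0 n T c) := by
  ext W
  constructor
  · intro hW
    refine ⟨fun i a hia => by simp at hia, fun j a hja => ?_⟩
    have hj : j < n := by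
      by_contra hcon
      rw [List.getElem?_eq_none (by simp [patF]; omega)] at hja
      simp at hja
    simp only [patF, List.getElem?_map, List.getElem?_range hj, Option.map_some, zero_add,
      Option.some.injEq] at hja
    split_ifs at hja with hT
    · simp only [Option.some.injEq] at hja
      simp only [List.length_nil, zero_add]
      rw [← hja]
      exact hW j hT
  · rintro ⟨_, h2⟩ i hi
    have := h2 i (c i) (by
      simp only [patF, List.getElem?_map, List.getElem?_range (h i hi), Option.map_some, zero_add,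
        if_pos hi])
    simpa using this

lemma rho_ev (s n : ℕ) (T : Finset ℕ) (c : ℕ → Fin 4) (h : ∀ i ∈ T, s ≤ i ∧ i < s + n) :
    rho (ev T c) = ENNReal.ofReal (hlp [] (patF s n T c)) := by
  rw [ev_eq_mat (s + n) T c (fun i hi => (h i hi).2), rho_mat, patF_add, zero_add,
    patF_none 0 s T c (fun i hi => by have := (h i hi).1; omega), hlp_replicate]

lemma measurableSet_ev (T : Finset ℕ) (c : ℕ → Fin 4) : MeasurableSet (ev T c) := by
  have : ev T c = ⋂ i ∈ T, {W | W i = c i} := by
    ext W; simp [ev]
  rw [this]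
  exact Finset.measurableSet_biInter _ fun i _ => measurableSet_apply i (fun b : Fin 4 => b = c i)

lemma rho_past_future (t : ℕ) (A B : Finset ℕ) (c : ℕ → Fin 4) (hA : ∀ i ∈ A, i < t)
    (hB : ∀ i ∈ B, t + 1 ≤ i) : rho (ev (A ∪ B) c) = rho (ev A c) * rho (ev B c) := by
  obtain ⟨n, hn⟩ : ∃ n, ∀ i ∈ B, i < t + 1 + n := by
    refine ⟨B.sup id + 1, fun i hi => ?_⟩
    have : i ≤ B.sup id := Finset.le_sup (f := id) hi
    omega
  have h1 : rho (ev A c) = ENNReal.ofReal (hlp [] (patF 0 t A c)) :=
    rho_ev 0 t A c (fun i hi => ⟨Nat.zero_le _, by have := hA i hi; omega⟩)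
  have h2 : rho (ev B c) = ENNReal.ofReal (hlp [] (patF (t + 1) n B c)) :=
    rho_ev (t + 1) n B c (fun i hi => ⟨hB i hi, hn i hi⟩)
  have h3 : rho (ev (A ∪ B) c) = ENNReal.ofReal (hlp [] (patF 0 (t + (1 + n)) (A ∪ B) c)) := by
    refine rho_ev 0 (t + (1 + n)) (A ∪ B) c (fun i hi => ⟨Nat.zero_le _, ?_⟩)
    rw [Finset.mem_union] at hi
    rcases hi with hi | hi
    · have := hA i hi; omega
    · have := hn i hi; omega
  rw [h1, h2, h3, patF_add, patF_add, zero_add]
  have h4 : patF t 1 (A ∪ B) c = [none] := by
    rw [patF_none]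
    · rfl
    · intro i hi
      rw [Finset.mem_union] at hi
      rcases hi with hi | hi
      · have := hA i hi; omega
      · have := hB i hi; omega
  have h5 : patF 0 t (A ∪ B) c = patF 0 t A c := by
    apply patF_congr
    intro i _ hi
    rw [Finset.mem_union]
    constructor
    · rintro (h | h)
      · exact h
      · have := hB i h; omega
    · exact Or.inl
  have h6 : patF (t + 1) n (A ∪ B) c = patF (t + 1) n B c := by
    apply patF_congr
    intro i hi _
    rw [Finset.mem_union]
    constructor
    · rintro (h | h)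
      · have := hA i h; omega
      · exact h
    · exact Or.inr
  rw [h4, h5, h6, List.singleton_append, hlp_append_none,
    ENNReal.ofReal_mul (hlp_nonneg _ _)]

theorem rho_indep (N : ℕ) : ∀ (A B : Finset ℕ) (c : ℕ → Fin 4), A.card + B.card = N →
    (∀ a ∈ A, ∀ b ∈ B, a + 1 < b ∨ b + 1 < a) →
    rho (ev (A ∪ B) c) = rho (ev A c) * rho (ev B c) := by
  induction N using Nat.strong_induction_on with
  | _ N ih =>
  intro A B c hN hAB
  have hempty : rho (ev ∅ c) = 1 := by
    have : ev ∅ c = Set.univ := by ext W; simp [ev]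
    rw [this, measure_univ]
  rcases A.eq_empty_or_nonempty with rfl | hA
  · rw [Finset.empty_union, hempty, one_mul]
  rcases B.eq_empty_or_nonempty with rfl | hB
  · rw [Finset.union_empty, hempty, mul_one]
  -- auxiliary statement for the case max A < max B
  have key : ∀ A B : Finset ℕ, A.card + B.card = N → (hA : A.Nonempty) → (hB : B.Nonempty) →
      (∀ a ∈ A, ∀ b ∈ B, a + 1 < b ∨ b + 1 < a) → A.max' hA < B.max' hB →
      rho (ev (A ∪ B) c) = rho (ev A c) * rho (ev B c) := by
    intro A B hN hA hB hAB hlt
    set a := A.max' hA with ha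
    have haA : a ∈ A := A.max'_mem hA
    set B1 := B.filter (fun b => b < a) with hB1
    set B2 := B.filter (fun b => ¬ b < a) with hB2
    have hBu : B1 ∪ B2 = B := Finset.filter_union_filter_not_eq _ _
    have hB2m : B.max' hB ∈ B2 := by
      rw [hB2, Finset.mem_filter]
      exact ⟨B.max'_mem hB, by omega⟩
    have hcard : B1.card + B2.card = B.card := Finset.card_filter_add_card_filter_not _
    have hB2pos : 0 < B2.card := Finset.card_pos.mpr ⟨_, hB2m⟩
    have h2 : ∀ i ∈ B2, a + 1 + 1 ≤ i := by
      intro i hi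
      rw [hB2, Finset.mem_filter] at hi
      have := hAB a haA i hi.1
      omega
    have h1 : ∀ i ∈ A ∪ B1, i < a + 1 := by
      intro i hi
      rw [Finset.mem_union] at hi
      rcases hi with hi | hi
      · have := A.le_max' i hi
        omega
      · rw [hB1, Finset.mem_filter] at hi
        omega
    have e1 : rho (ev (A ∪ B) c) = rho (ev (A ∪ B1) c) * rho (ev B2 c) := by
      rw [← rho_past_future (a + 1) (A ∪ B1) B2 c h1 h2, Finset.union_assoc, hBu]
    have e2 : rho (ev (A ∪ B1) c) = rho (ev A c) * rho (ev B1 c) := by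
      refine ih (A.card + B1.card) (by omega) A B1 c rfl ?_
      intro x hx y hy
      rw [hB1, Finset.mem_filter] at hy
      exact hAB x hx y hy.1
    have e3 : rho (ev B c) = rho (ev B1 c) * rho (ev B2 c) := by
      rw [← rho_past_future (a + 1) B1 B2 c (fun i hi => h1 i (Finset.mem_union_right _ hi)) h2,
        hBu]
    rw [e1, e2, e3, mul_assoc]
  rcases lt_trichotomy (A.max' hA) (B.max' hB) with hlt | heq | hgt
  · exact key A B hN hA hB hAB hlt
  · exfalso
    have := hAB _ (A.max'_mem hA) _ (B.max'_mem hB)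
    omega
  · rw [Finset.union_comm, mul_comm]
    refine key B A (by omega) hB hA ?_ hgt
    intro b hb a ha
    have := hAB a ha b hb
    omega

lemma rho_shift (T : Finset ℕ) (c : ℕ → Fin 4) :
    rho {W | ∀ i ∈ T, W (i + 1) = c i} = rho {W | ∀ i ∈ T, W i = c i} := by
  obtain ⟨n, hn⟩ : ∃ n, ∀ i ∈ T, i < n := by
    refine ⟨T.sup id + 1, fun i hi => ?_⟩
    have : i ≤ T.sup id := Finset.le_sup (f := id) hi
    omega
  have h1 : {W : ℕ → Fin 4 | ∀ i ∈ T, W (i + 1) = c i} = ev (T.image (· + 1)) (fun i => c (i - 1)) := by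
    ext W
    simp [ev]
  have h2 : {W : ℕ → Fin 4 | ∀ i ∈ T, W i = c i} = ev T c := rfl
  rw [h1, h2, rho_ev 1 n, rho_ev 0 n]
  · congr 2
    unfold patF
    refine List.map_congr_left fun i _ => ?_
    have e1 : (1 + i ∈ T.image (· + 1)) ↔ 0 + i ∈ T := by
      rw [Finset.mem_image]
      constructor
      · rintro ⟨j, hj, hji⟩
        have : j = 0 + i := by omega
        rwa [← this]
      · intro h
        exact ⟨0 + i, h, by omega⟩
    simp only [e1]
    have e2 : 1 + i - 1 = 0 + i := by omega
    rw [e2]
  · intro i hi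
    have := hn i hi
    omega
  · intro i hi
    rw [Finset.mem_image] at hi
    obtain ⟨j, hj, rfl⟩ := hi
    have := hn j hj
    omega

/-- probability that the stationary word shows `c` on `T`, the word started at `l` -/
noncomputable def Q (l : ℤ) (T : Finset ℤ) (c : ℤ → Fin 4) : ENNReal :=
  rho {W | ∀ v ∈ T, W (v - l).toNat = c v}

lemma Q_eq_image (l : ℤ) (T : Finset ℤ) (c : ℤ → Fin 4) (h : ∀ v ∈ T, l ≤ v) :
    Q l T c = rho (ev (T.image (fun v => (v - l).toNat)) (fun i => c (i + l))) := by
  unfold Q
  congr 1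
  ext W
  simp only [ev, Finset.mem_image, forall_exists_index, and_imp, forall_apply_eq_imp_iff₂]
  refine forall_congr' fun v => forall_congr' fun hv => ?_
  have h1 : (((v - l).toNat : ℕ) : ℤ) = v - l := Int.toNat_of_nonneg (by have := h v hv; omega)
  rw [h1]
  simp

lemma Q_pred (l : ℤ) (T : Finset ℤ) (c : ℤ → Fin 4) (h : ∀ v ∈ T, l ≤ v) :
    Q (l - 1) T c = Q l T c := by
  rw [Q_eq_image l T c h, ev, ← rho_shift]
  unfold Q
  congr 1
  ext W
  simp only [Finset.mem_image, forall_exists_index, and_imp, forall_apply_eq_imp_iff₂]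
  refine forall_congr' fun v => forall_congr' fun hv => ?_
  have h1 : (((v - l).toNat : ℕ) : ℤ) = v - l := Int.toNat_of_nonneg (by have := h v hv; omega)
  have h2 : (v - (l - 1)).toNat = (v - l).toNat + 1 := by
    have := h v hv
    omega
  rw [h1, h2]
  simp

lemma Q_sub (n : ℕ) (l : ℤ) (T : Finset ℤ) (c : ℤ → Fin 4) (h : ∀ v ∈ T, l ≤ v) :
    Q (l - n) T c = Q l T c := by
  induction n with
  | zero => simp
  | succ n ih =>
    rw [← ih, ← Q_pred (l - n) T c (fun v hv => by have := h v hv; omega)]
    congr 1
    push_cast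
    ring

lemma Q_congr_start (l l' : ℤ) (T : Finset ℤ) (c : ℤ → Fin 4) (h : ∀ v ∈ T, l ≤ v)
    (h' : ∀ v ∈ T, l' ≤ v) : Q l T c = Q l' T c := by
  rcases le_total l l' with hl | hl
  · have := Q_sub (l' - l).toNat l' T c h'
    rw [Int.toNat_of_nonneg (by omega)] at this
    rw [← this]
    congr 1
    ring
  · have := Q_sub (l - l').toNat l T c h
    rw [Int.toNat_of_nonneg (by omega)] at this
    rw [← this]
    congr 1
    ring

lemma Q_union (l : ℤ) (A B : Finset ℤ) (c : ℤ → Fin 4) (hA : ∀ v ∈ A, l ≤ v)
    (hB : ∀ v ∈ B, l ≤ v) (h : ∀ a ∈ A, ∀ b ∈ B, a + 1 < b ∨ b + 1 < a) :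
    Q l (A ∪ B) c = Q l A c * Q l B c := by
  rw [Q_eq_image l A c hA, Q_eq_image l B c hB, Q_eq_image l (A ∪ B) c, Finset.image_union]
  · apply rho_indep _ _ _ _ rfl
    intro x hx y hy
    rw [Finset.mem_image] at hx hy
    obtain ⟨a, ha, rfl⟩ := hx
    obtain ⟨b, hb, rfl⟩ := hy
    have h1 := h a ha b hb
    have h2 := hA a ha
    have h3 := hB b hb
    omega
  · intro v hv
    rw [Finset.mem_union] at hv
    rcases hv with hv | hv
    · exact hA v hv
    · exact hB v hv

lemma Q_empty (l : ℤ) (c : ℤ → Fin 4) : Q l ∅ c = 1 := by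
  unfold Q
  simp

/-- factorisation over separated blocks -/
lemma Q_prod (l : ℤ) (T : Finset ℤ) (c : ℤ → Fin 4) (hT : ∀ v ∈ T, l ≤ v) (f : ℤ → ℤ)
    (hf : ∀ a ∈ T, ∀ b ∈ T, f a ≠ f b → a + 1 < b ∨ b + 1 < a) (J : Finset ℤ) :
    Q l (T.filter (fun v => f v ∈ J)) c = ∏ j ∈ J, Q l (T.filter (fun v => f v = j)) c := by
  induction J using Finset.induction_on with
  | empty => simp [Q_empty]
  | insert j J hj ih =>
    rw [Finset.prod_insert hj, ← ih, ← Q_union]
    · congr 1
      ext v
      simp only [Finset.mem_filter, Finset.mem_insert, Finset.mem_union]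
      tauto
    · intro v hv
      exact hT v (Finset.mem_filter.mp hv).1
    · intro v hv
      exact hT v (Finset.mem_filter.mp hv).1
    · intro a ha b hb
      rw [Finset.mem_filter] at ha hb
      refine hf a ha.1 b hb.1 ?_
      rintro h
      rw [h] at ha
      rw [ha.2] at hb
      exact hj hb.2

/-! ## Product measures -/

/-- the two coordinate fields of an i.i.d. field of independent pairs are independent i.i.d. fields -/
theorem split_law {ι X Y : Type*} [MeasurableSpace X] [MeasurableSpace Y] (ν₁ : Measure X)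
    (ν₂ : Measure Y) [IsProbabilityMeasure ν₁] [IsProbabilityMeasure ν₂] :
    (Measure.infinitePi (fun _ : ι => ν₁)).prod (Measure.infinitePi (fun _ : ι => ν₂)) =
    (Measure.infinitePi (fun _ : ι => ν₁.prod ν₂)).map
      (fun y => ((fun i => (y i).1), (fun i => (y i).2))) := by
  classical
  have hmeas : Measurable (fun y : ι → X × Y => ((fun i => (y i).1), (fun i => (y i).2))) := by
    fun_prop
  refine Measure.prod_eq_generateFrom (C := squareCylinders fun _ : ι => {s : Set X | MeasurableSet s})
    (D := squareCylinders fun _ : ι => {s : Set Y | MeasurableSet s})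
    generateFrom_squareCylinders generateFrom_squareCylinders
    (isPiSystem_squareCylinders (fun _ => MeasurableSpace.isPiSystem_measurableSet)
      (fun _ => MeasurableSet.univ))
    (isPiSystem_squareCylinders (fun _ => MeasurableSpace.isPiSystem_measurableSet)
      (fun _ => MeasurableSet.univ))
    ⟨fun _ => Set.univ, fun _ => ⟨∅, fun _ => Set.univ, fun _ _ => MeasurableSet.univ, by simp⟩,
      fun _ => measure_lt_top _ _, Set.iUnion_const _⟩
    ⟨fun _ => Set.univ, fun _ => ⟨∅, fun _ => Set.univ, fun _ _ => MeasurableSet.univ, by simp⟩,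
      fun _ => measure_lt_top _ _, Set.iUnion_const _⟩ ?_
  rintro _ ⟨s, t, ht, rfl⟩ _ ⟨s', t', ht', rfl⟩
  have ht1 : ∀ i, MeasurableSet (t i) := fun i => ht i (Set.mem_univ i)
  have ht2 : ∀ i, MeasurableSet (t' i) := fun i => ht' i (Set.mem_univ i)
  rw [Measure.map_apply hmeas ((MeasurableSet.pi s.countable_toSet fun i _ => ht1 i).prod
    (MeasurableSet.pi s'.countable_toSet fun i _ => ht2 i))]
  have hset : (fun y : ι → X × Y => ((fun i => (y i).1), (fun i => (y i).2))) ⁻¹'
      (((s : Set ι).pi t) ×ˢ ((s' : Set ι).pi t')) =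
      Set.pi ((s ∪ s' : Finset ι) : Set ι) (fun i => (if i ∈ s then t i else Set.univ) ×ˢ
        (if i ∈ s' then t' i else Set.univ)) := by
    ext y
    simp only [Set.mem_preimage, Set.mem_prod, Set.mem_pi, Finset.mem_coe, Finset.coe_union,
      Set.mem_union]
    constructor
    · rintro ⟨h1, h2⟩ i hi
      constructor
      · split_ifs with h
        · exact h1 i h
        · trivial
      · split_ifs with h
        · exact h2 i h
        · trivial
    · intro h
      constructor
      · intro i hi
        have := (h i (Or.inl hi)).1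
        rwa [if_pos hi] at this
      · intro i hi
        have := (h i (Or.inr hi)).2
        rwa [if_pos hi] at this
  rw [hset, Measure.infinitePi_pi, Measure.infinitePi_pi _ (fun i _ => ht1 i),
    Measure.infinitePi_pi _ (fun i _ => ht2 i)]
  · simp only [Measure.prod_prod]
    rw [Finset.prod_mul_distrib]
    congr 1
    · have h1 : ∀ i ∈ s ∪ s', ν₁ (if i ∈ s then t i else Set.univ) =
          if i ∈ s then ν₁ (t i) else 1 := by
        intro i _
        split_ifs <;> simp
      rw [Finset.prod_congr rfl h1, Finset.prod_ite_mem]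
      congr 1
      ext i
      simp
    · have h1 : ∀ i ∈ s ∪ s', ν₂ (if i ∈ s' then t' i else Set.univ) =
          if i ∈ s' then ν₂ (t' i) else 1 := by
        intro i _
        split_ifs <;> simp
      rw [Finset.prod_congr rfl h1, Finset.prod_ite_mem]
      congr 1
      ext i
      simp
  · intro i _
    refine MeasurableSet.prod ?_ ?_
    · split_ifs
      · exact ht1 i
      · exact MeasurableSet.univ
    · split_ifs
      · exact ht2 i
      · exact MeasurableSet.univ

/-- events depending on disjoint finite sets of coordinates are independent -/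
theorem indep_of_disjoint {ι X : Type*} [MeasurableSpace X] [Inhabited X] (ν : Measure X)
    [IsProbabilityMeasure ν] (S₁ S₂ : Finset ι) (hd : Disjoint S₁ S₂) (E₁ E₂ : Set (ι → X))
    (hE₁ : MeasurableSet E₁) (hE₂ : MeasurableSet E₂)
    (h₁ : ∀ x y : ι → X, (∀ i ∈ S₁, x i = y i) → x ∈ E₁ → y ∈ E₁)
    (h₂ : ∀ x y : ι → X, (∀ i ∈ S₂, x i = y i) → x ∈ E₂ → y ∈ E₂) :
    Measure.infinitePi (fun _ : ι => ν) (E₁ ∩ E₂) =
      Measure.infinitePi (fun _ : ι => ν) E₁ * Measure.infinitePi (fun _ : ι => ν) E₂ := by
  classical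
  have hind : iIndepFun (fun (i : ι) (y : ι → X) => y i) (Measure.infinitePi (fun _ : ι => ν)) :=
    iIndepFun_infinitePi (P := fun _ : ι => ν) (X := fun _ x => x) (fun _ => measurable_id)
  have h := hind.indepFun_finset S₁ S₂ hd (fun i => measurable_pi_apply i)
  let ext₁ : (S₁ → X) → ι → X := fun x i => if h : i ∈ S₁ then x ⟨i, h⟩ else default
  let ext₂ : (S₂ → X) → ι → X := fun x i => if h : i ∈ S₂ then x ⟨i, h⟩ else default
  have hm₁ : Measurable ext₁ := by
    refine measurable_pi_lambda _ fun i => ?_
    by_cases hi : i ∈ S₁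
    · simp only [ext₁, hi, dif_pos]
      exact measurable_pi_apply _
    · simp only [ext₁, hi, dif_neg, not_false_eq_true]
      exact measurable_const
  have hm₂ : Measurable ext₂ := by
    refine measurable_pi_lambda _ fun i => ?_
    by_cases hi : i ∈ S₂
    · simp only [ext₂, hi, dif_pos]
      exact measurable_pi_apply _
    · simp only [ext₂, hi, dif_neg, not_false_eq_true]
      exact measurable_const
  have e₁ : E₁ = (fun (a : ι → X) (i : S₁) => a i) ⁻¹' (ext₁ ⁻¹' E₁) := by
    ext x
    have hx : ∀ i ∈ S₁, x i = ext₁ (fun i : S₁ => x i) i := by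
      intro i hi
      simp [ext₁, hi]
    constructor
    · exact fun hxE => h₁ _ _ hx hxE
    · exact fun hxE => h₁ _ _ (fun i hi => (hx i hi).symm) hxE
  have e₂ : E₂ = (fun (a : ι → X) (i : S₂) => a i) ⁻¹' (ext₂ ⁻¹' E₂) := by
    ext x
    have hx : ∀ i ∈ S₂, x i = ext₂ (fun i : S₂ => x i) i := by
      intro i hi
      simp [ext₂, hi]
    constructor
    · exact fun hxE => h₂ _ _ hx hxE
    · exact fun hxE => h₂ _ _ (fun i hi => (hx i hi).symm) hxE
  have := h.measure_inter_preimage_eq_mul _ _ (hm₁ hE₁) (hm₂ hE₂)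
  rw [← e₁, ← e₂] at this
  exact this

/-! ## Local maxima of an i.i.d. sequence -/

noncomputable def lam : Measure ℝ := volume.restrict (Set.Icc (0 : ℝ) 1)

instance lam_prob : IsProbabilityMeasure lam := ⟨by simp [lam]⟩

lemma lam_singleton (x : ℝ) : lam {x} = 0 := by
  have h : lam {x} ≤ volume {x} := Measure.restrict_apply_le _ _
  simpa using h

lemma measurableSet_strictMono (k : ℕ) : MeasurableSet {x : Fin k → ℝ | StrictMono x} := by
  have : {x : Fin k → ℝ | StrictMono x} = ⋂ i : Fin k, ⋂ j : Fin k, {x | i < j → x i < x j} := by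
    ext x
    simp [StrictMono]
  rw [this]
  refine MeasurableSet.iInter fun i => MeasurableSet.iInter fun j => ?_
  by_cases h : i < j
  · simp only [h, true_imp_iff]
    exact measurableSet_lt (measurable_pi_apply i) (measurable_pi_apply j)
  · simp [h]

lemma perm_measure (k : ℕ) (σ : Equiv.Perm (Fin k)) :
    Measure.infinitePi (fun _ : Fin k => lam) {x | StrictMono (fun i => x (σ i))} =
      Measure.infinitePi (fun _ : Fin k => lam) {x | StrictMono x} := by
  have h := Measure.map_infinitePi_infinitePi_of_inj (P := fun _ : Fin k => lam) (f := σ) σ.injective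
  conv_rhs => rw [← h]
  rw [Measure.map_apply (by fun_prop) (measurableSet_strictMono k)]
  rfl

lemma perm_disjoint (k : ℕ) (σ τ : Equiv.Perm (Fin k)) (x : Fin k → ℝ)
    (h1 : StrictMono (fun i => x (σ i))) (h2 : StrictMono (fun i => x (τ i))) : σ = τ := by
  have h3 : (fun i => x (σ i)) = (fun i => x (τ i)) := by
    apply (h1.range_inj h2).mp
    ext r
    constructor
    · rintro ⟨i, rfl⟩
      exact ⟨τ.symm (σ i), by simp⟩
    · rintro ⟨i, rfl⟩
      exact ⟨σ.symm (τ i), by simp⟩
  have hinj : Function.Injective x := by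
    intro a b hab
    have : (fun i => x (σ i)) (σ.symm a) = (fun i => x (σ i)) (σ.symm b) := by simpa using hab
    exact σ.symm.injective (h1.injective this)
  ext i
  have := congrFun h3 i
  rw [hinj this]

theorem order_bound (k : ℕ) : Measure.infinitePi (fun _ : Fin k => lam) {x | StrictMono x} ≤
    ((k.factorial : ℕ) : ENNReal)⁻¹ := by
  classical
  have h1 : Measure.infinitePi (fun _ : Fin k => lam)
      (⋃ σ ∈ (Finset.univ : Finset (Equiv.Perm (Fin k))), {x | StrictMono (fun i => x (σ i))}) =
      (k.factorial : ENNReal) * Measure.infinitePi (fun _ : Fin k => lam) {x | StrictMono x} := by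
    rw [measure_biUnion_finset]
    · rw [Finset.sum_congr rfl fun σ _ => perm_measure k σ]
      simp [Fintype.card_perm]
    · intro σ _ τ _ hστ
      refine Set.disjoint_left.mpr fun x h1 h2 => hστ (perm_disjoint k σ τ x h1 h2)
    · intro σ _
      have hm : Measurable (fun (x : Fin k → ℝ) i => x (σ i)) := by fun_prop
      exact hm (measurableSet_strictMono k)
  have h2 := prob_le_one (μ := Measure.infinitePi (fun _ : Fin k => lam))
    (s := (⋃ σ ∈ (Finset.univ : Finset (Equiv.Perm (Fin k))), {x | StrictMono (fun i => x (σ i))}))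
  rw [h1] at h2
  rw [ENNReal.le_inv_iff_mul_le, mul_comm]
  exact h2

/-- increasing run -/
theorem run_bound (k : ℕ) (a : ℤ) : Measure.infinitePi (fun _ : ℤ => lam)
    {u | StrictMono (fun i : Fin k => u (a + i))} ≤ ((k.factorial : ℕ) : ENNReal)⁻¹ := by
  have hinj : Function.Injective (fun i : Fin k => a + (i : ℤ)) := by
    intro i j hij
    simp only [add_right_inj, Nat.cast_inj] at hij
    exact Fin.ext hij
  have h := Measure.map_infinitePi_infinitePi_of_inj (P := fun _ : ℤ => lam) hinj
  have h2 := order_bound k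
  rw [← h, Measure.map_apply (by fun_prop) (measurableSet_strictMono k)] at h2
  exact h2

/-- decreasing run -/
theorem run_bound' (k : ℕ) (a : ℤ) : Measure.infinitePi (fun _ : ℤ => lam)
    {u | StrictAnti (fun i : Fin k => u (a + i))} ≤ ((k.factorial : ℕ) : ENNReal)⁻¹ := by
  have hinj : Function.Injective (fun i : Fin k => a + (i : ℤ)) := by
    intro i j hij
    simp only [add_right_inj, Nat.cast_inj] at hij
    exact Fin.ext hij
  have h := Measure.map_infinitePi_infinitePi_of_inj (P := fun _ : ℤ => lam) hinj
  have h2 := order_bound k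
  rw [← perm_measure k Fin.revPerm, ← h] at h2
  have hm : Measurable (fun (x : Fin k → ℝ) i => x (Fin.revPerm i)) := by fun_prop
  have hms : MeasurableSet {x : Fin k → ℝ | StrictMono (fun i => x (Fin.revPerm i))} :=
    hm (measurableSet_strictMono k)
  rw [Measure.map_apply (by fun_prop) hms] at h2
  refine le_trans (measure_mono ?_) h2
  intro u hu i j hij
  exact hu (Fin.rev_lt_rev.mpr hij)

theorem no_tie (i j : ℤ) (hij : i ≠ j) : Measure.infinitePi (fun _ : ℤ => lam)
    {u | u i = u j} = 0 := by
  have h := Measure.infinitePi_map_eval_prod (P := fun _ : ℤ => lam) hij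
  have hd : MeasurableSet {p : ℝ × ℝ | p.1 = p.2} := measurableSet_eq_fun measurable_fst measurable_snd
  have h1 : (lam.prod lam) {p : ℝ × ℝ | p.1 = p.2} = 0 := by
    rw [Measure.prod_apply hd]
    have : ∀ x : ℝ, lam (Prod.mk x ⁻¹' {p : ℝ × ℝ | p.1 = p.2}) = 0 := by
      intro x
      have : Prod.mk x ⁻¹' {p : ℝ × ℝ | p.1 = p.2} = {x} := by
        ext y
        simp [eq_comm]
      rw [this]
      exact lam_singleton x
    simp only [this, lintegral_zero]
  rw [← h, Measure.map_apply (by fun_prop) hd] at h1
  exact h1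

def isMax (u : ℤ → ℝ) (v : ℤ) : Prop := u (v - 1) < u v ∧ u (v + 1) < u v

/-- a window without strict local maxima contains a long monotone run -/
lemma valley (u : ℤ → ℝ) (a : ℤ) (m n : ℕ) (hne : ∀ i j : ℤ, i ≠ j → u i ≠ u j)
    (h : ∀ i : ℕ, i < m + n → ¬ isMax u (a + 1 + i)) :
    StrictAnti (fun i : Fin (m + 1) => u (a + i)) ∨
    StrictMono (fun i : Fin (n + 1) => u (a + 1 + m + i)) := by
  -- once increasing, always increasing
  have step : ∀ i : ℕ, i < m + n → u (a + i) < u (a + i + 1) → u (a + i + 1) < u (a + i + 1 + 1) := by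
    intro i hi hlt
    by_contra hcon
    have h1 : u (a + i + 1 + 1) < u (a + i + 1) :=
      lt_of_le_of_ne (not_lt.mp hcon) (hne _ _ (by omega))
    apply h i hi
    unfold isMax
    have e1 : a + 1 + (i : ℤ) - 1 = a + i := by ring
    have e2 : a + 1 + (i : ℤ) = a + i + 1 := by ring
    rw [e1, e2]
    exact ⟨hlt, h1⟩
  have up : ∀ j i : ℕ, i + j ≤ m + n → u (a + i) < u (a + i + 1) →
      u (a + i + j) < u (a + i + j + 1) := by
    intro j
    induction j with
    | zero => intro i _ hlt; simpa using hlt
    | succ j ih =>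
      intro i hij hlt
      have h1 := ih i (by omega) hlt
      have h2 := step (i + j) (by omega) (by push_cast; rw [← add_assoc]; exact h1)
      push_cast at h2 ⊢
      have e1 : a + ((i : ℤ) + j) + 1 = a + i + (j + 1) := by ring
      rw [e1] at h2
      exact h2
  by_cases hm : u (a + m) < u (a + m + 1)
  · right
    rw [Fin.strictMono_iff_lt_succ]
    intro i
    have h1 := up (1 + i) m (by omega) hm
    push_cast at h1
    simp only [Fin.val_castSucc, Fin.val_succ]
    push_cast
    have e1 : a + (m : ℤ) + (1 + i) = a + 1 + m + i := by ring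
    have e2 : a + 1 + (m : ℤ) + i + 1 = a + 1 + m + (i + 1) := by ring
    rw [e1, e2] at h1
    exact h1
  · left
    rw [Fin.strictAnti_iff_succ_lt]
    intro i
    simp only [Fin.val_castSucc, Fin.val_succ]
    push_cast
    by_contra hcon
    have h1 : u (a + i) < u (a + i + 1) := by
      refine lt_of_le_of_ne ?_ (hne _ _ (by omega))
      rw [← add_assoc] at hcon
      exact not_lt.mp hcon
    have h2 := up (m - i) i (by omega) h1
    have e1 : a + (i : ℤ) + ((m - i : ℕ) : ℤ) = a + m := by
      have := i.2
      push_cast [Nat.cast_sub (show (i : ℕ) ≤ m by omega)]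
      ring
    rw [e1] at h2
    exact hm h2

theorem gap_bound (r : ℕ) (v : ℤ) : Measure.infinitePi (fun _ : ℤ => lam)
    {u | ∀ n < r, ¬ isMax u (v - n)} ≤ 2 * (((r / 2).factorial : ℕ) : ENNReal)⁻¹ := by
  set m := r / 2 with hm
  -- positions v - r, ..., v + 1
  have hsub : {u : ℤ → ℝ | ∀ n < r, ¬ isMax u (v - n)} ⊆
      (⋃ i : ℤ, ⋃ j : ℤ, {u | i ≠ j ∧ u i = u j}) ∪
      ({u | StrictAnti (fun i : Fin (m + 1) => u ((v - r) + i))} ∪
       {u | StrictMono (fun i : Fin ((r - m) + 1) => u (((v - r) + 1 + m) + i))}) := by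
    intro u hu
    by_cases hne : ∀ i j : ℤ, i ≠ j → u i ≠ u j
    · right
      have := valley u (v - r) m (r - m) hne (by
        intro i hi
        have h1 := hu (r - 1 - i) (by omega)
        have e1 : v - (r : ℤ) + 1 + i = v - ((r - 1 - i : ℕ) : ℤ) := by
          have : i ≤ r - 1 := by omega
          have : 1 ≤ r := by omega
          omega
        rw [e1]
        exact h1)
      exact this
    · left
      push Not at hne
      obtain ⟨i, j, hij, huij⟩ := hne
      simp only [Set.mem_iUnion]
      exact ⟨i, j, hij, huij⟩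
  refine le_trans (measure_mono hsub) ?_
  refine le_trans (measure_union_le _ _) ?_
  have h0 : Measure.infinitePi (fun _ : ℤ => lam)
      (⋃ i : ℤ, ⋃ j : ℤ, {u | i ≠ j ∧ u i = u j}) = 0 := by
    rw [measure_iUnion_null_iff]
    intro i
    rw [measure_iUnion_null_iff]
    intro j
    by_cases hij : i = j
    · simp [hij]
    · refine measure_mono_null ?_ (no_tie i j hij)
      intro u hu
      exact hu.2
  rw [h0, zero_add]
  refine le_trans (measure_union_le _ _) ?_
  have h1 := run_bound' (m + 1) (v - r)
  have h2 := run_bound ((r - m) + 1) ((v - r) + 1 + m)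
  have h3 : (((m + 1).factorial : ℕ) : ENNReal)⁻¹ ≤ ((m.factorial : ℕ) : ENNReal)⁻¹ := by
    rw [ENNReal.inv_le_inv]
    exact_mod_cast Nat.factorial_le (Nat.le_succ m)
  have h4 : ((((r - m) + 1).factorial : ℕ) : ENNReal)⁻¹ ≤ ((m.factorial : ℕ) : ENNReal)⁻¹ := by
    rw [ENNReal.inv_le_inv]
    exact_mod_cast Nat.factorial_le (by omega)
  calc _ ≤ (((m + 1).factorial : ℕ) : ENNReal)⁻¹ + ((((r - m) + 1).factorial : ℕ) : ENNReal)⁻¹ :=
        add_le_add h1 h2
    _ ≤ ((m.factorial : ℕ) : ENNReal)⁻¹ + ((m.factorial : ℕ) : ENNReal)⁻¹ := add_le_add h3 h4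
    _ = 2 * ((m.factorial : ℕ) : ENNReal)⁻¹ := by ring

/-! ## The colouring of the integers -/

/-- number of steps back to the last strict local maximum -/
noncomputable def age (u : ℤ → ℝ) (v : ℤ) : ℕ := sInf {n : ℕ | isMax u (v - n)}

lemma age_spec {u : ℤ → ℝ} {v : ℤ} (h : ∃ n : ℕ, isMax u (v - n)) : isMax u (v - age u v) :=
  Nat.sInf_mem (s := {n : ℕ | isMax u (v - n)}) h

lemma age_min {u : ℤ → ℝ} {v : ℤ} {m : ℕ} (h : m < age u v) : ¬ isMax u (v - m) :=
  Nat.notMem_of_lt_sInf (s := {n : ℕ | isMax u (v - n)}) h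

lemma age_eq_zero_iff {u : ℤ → ℝ} {v : ℤ} (h : ∃ n : ℕ, isMax u (v - n)) :
    age u v = 0 ↔ isMax u v := by
  constructor
  · intro h0
    have := age_spec h
    rw [h0] at this
    simpa using this
  · intro h1
    by_contra hcon
    exact age_min (Nat.pos_of_ne_zero hcon) (by simpa using h1)

lemma age_eq_of {u : ℤ → ℝ} {v : ℤ} {n : ℕ} (h : isMax u (v - n))
    (hmin : ∀ m < n, ¬ isMax u (v - m)) : age u v = n := by
  have hex : ∃ n : ℕ, isMax u (v - n) := ⟨n, h⟩
  rcases lt_trichotomy (age u v) n with h1 | h1 | h1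
  · exact absurd (age_spec hex) (hmin _ h1)
  · exact h1
  · exact absurd h (age_min h1)

/-- the colour read off at age `n` from the word `W` -/
def letter (n : ℕ) (W : ℕ → Fin 4) : Fin 5 :=
  match n with
  | 0 => 0
  | m + 1 => (W m).succ

abbrev Site : Type := ℝ × (ℕ → Fin 4)

noncomputable def nu : Measure Site := lam.prod rho

instance nu_prob : IsProbabilityMeasure nu := by unfold nu; infer_instance

/-- the colouring map -/
noncomputable def F1 (y : ℤ → Site) (v : ℤ) : Fin 5 :=
  letter (age (fun i => (y i).1) v) (y (v - age (fun i => (y i).1) v)).2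

lemma isMax_shift (u : ℤ → ℝ) (s v : ℤ) : isMax (fun i => u (i + s)) v ↔ isMax u (v + s) := by
  unfold isMax
  have e1 : v - 1 + s = v + s - 1 := by ring
  have e2 : v + 1 + s = v + s + 1 := by ring
  simp only [e1, e2]

lemma age_shift (u : ℤ → ℝ) (s v : ℤ) : age (fun i => u (i + s)) v = age u (v + s) := by
  unfold age
  congr 1
  ext n
  simp only [Set.mem_ofPred_eq]
  rw [isMax_shift]
  have e1 : v - n + s = v + s - n := by ring
  rw [e1]

lemma F1_shift (y : ℤ → Site) (s v : ℤ) : F1 (fun i => y (i + s)) v = F1 y (v + s) := by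
  unfold F1
  have h := age_shift (fun i => (y i).1) s v
  rw [h]
  have e1 : v - (age (fun i => (y i).1) (v + s) : ℤ) + s =
    v + s - (age (fun i => (y i).1) (v + s) : ℤ) := by ring
  change letter _ (y (v - (age (fun i => (y i).1) (v + s) : ℤ) + s)).2 = _
  rw [e1]

lemma measurableSet_isMax (v : ℤ) : MeasurableSet {u : ℤ → ℝ | isMax u v} := by
  have : {u : ℤ → ℝ | isMax u v} = {u | u (v - 1) < u v} ∩ {u | u (v + 1) < u v} := by
    ext u; simp [isMax]
  rw [this]
  have h1 : ∀ i : ℤ, Measurable (fun u : ℤ → ℝ => u i) := fun i => measurable_pi_apply i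
  exact (measurableSet_lt (h1 _) (h1 _)).inter (measurableSet_lt (h1 _) (h1 _))

lemma measurableSet_age (v : ℤ) (n : ℕ) : MeasurableSet {u : ℤ → ℝ | age u v = n} := by
  have hpos : ∀ n : ℕ, MeasurableSet ({u : ℤ → ℝ | isMax u (v - n)} ∩
      ⋂ m : ℕ, ⋂ _ : m < n, {u | ¬ isMax u (v - m)}) := by
    intro n
    exact (measurableSet_isMax _).inter (MeasurableSet.iInter fun m => MeasurableSet.iInter fun _ =>
      (measurableSet_isMax _).compl)
  rcases Nat.eq_zero_or_pos n with rfl | hn
  · have : {u : ℤ → ℝ | age u v = 0} = ({u : ℤ → ℝ | isMax u (v - (0 : ℕ))} ∩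
      ⋂ m : ℕ, ⋂ _ : m < 0, {u | ¬ isMax u (v - m)}) ∪ ⋂ m : ℕ, {u | ¬ isMax u (v - m)} := by
      ext u
      simp only [Set.mem_union, Set.mem_inter_iff, Set.mem_iInter, Set.mem_ofPred_eq]
      constructor
      · intro h
        by_cases hex : ∃ n : ℕ, isMax u (v - n)
        · left
          refine ⟨?_, fun m hm => by omega⟩
          have := age_spec hex
          rwa [h] at this
        · right
          push Not at hex
          exact hex
      · rintro (⟨h, _⟩ | h)
        · exact age_eq_of h (fun m hm => by omega)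
        · unfold age
          rw [Nat.sInf_eq_zero]
          right
          ext m
          simp [h m]
    rw [this]
    exact (hpos 0).union (MeasurableSet.iInter fun m => (measurableSet_isMax _).compl)
  · have : {u : ℤ → ℝ | age u v = n} = ({u : ℤ → ℝ | isMax u (v - n)} ∩
      ⋂ m : ℕ, ⋂ _ : m < n, {u | ¬ isMax u (v - m)}) := by
      ext u
      simp only [Set.mem_inter_iff, Set.mem_iInter, Set.mem_ofPred_eq]
      constructor
      · intro h
        have hex : ∃ n : ℕ, isMax u (v - n) := by
          by_contra hcon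
          have h0 : age u v = 0 := by
            unfold age
            rw [Nat.sInf_eq_zero]
            right
            push Not at hcon
            ext m
            simp [hcon m]
          omega
        refine ⟨?_, fun m hm => ?_⟩
        · have := age_spec hex
          rwa [h] at this
        · rw [← h] at hm
          exact age_min hm
      · rintro ⟨h, h2⟩
        exact age_eq_of h h2
    rw [this]
    exact hpos n

lemma measurable_F1 : Measurable F1 := by
  rw [measurable_pi_iff]
  intro v
  refine measurable_to_countable' fun c => ?_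
  have : (fun y : ℤ → Site => F1 y v) ⁻¹' {c} =
      ⋃ n : ℕ, ({y | age (fun i => (y i).1) v = n} ∩ {y | letter n (y (v - n)).2 = c}) := by
    ext y
    simp only [Set.mem_preimage, Set.mem_singleton_iff, Set.mem_iUnion, Set.mem_inter_iff,
      Set.mem_ofPred_eq]
    constructor
    · intro h
      exact ⟨age (fun i => (y i).1) v, rfl, h⟩
    · rintro ⟨n, h1, h2⟩
      unfold F1
      rw [h1]
      exact h2
  rw [this]
  refine MeasurableSet.iUnion fun n => MeasurableSet.inter ?_ ?_
  · have hm : Measurable (fun y : ℤ → Site => fun i => (y i).1) := by fun_prop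
    exact hm (measurableSet_age v n)
  · cases n with
    | zero => simp only [letter]; exact MeasurableSet.const _
    | succ m =>
      simp only [letter]
      have hm : Measurable (fun y : ℤ → Site => (y (v - ((m + 1 : ℕ) : ℤ))).2) := by fun_prop
      exact hm (measurableSet_apply m (fun a : Fin 4 => a.succ = c))

/-- almost surely every site has a strict local maximum weakly to its left -/
lemma ae_exists_isMax : ∀ᵐ u ∂(Measure.infinitePi (fun _ : ℤ => lam)),
    ∀ v : ℤ, ∃ n : ℕ, isMax u (v - n) := by
  rw [ae_all_iff]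
  intro v
  rw [ae_iff]

  have h : ∀ m : ℕ, Measure.infinitePi (fun _ : ℤ => lam)
      {u | ¬ ∃ n : ℕ, isMax u (v - n)} ≤ 2 * ((m : ℕ) : ENNReal)⁻¹ := by
    intro m
    have h1 := gap_bound (2 * m) v
    rw [Nat.mul_div_cancel_left m (by norm_num)] at h1
    refine le_trans (measure_mono ?_) (h1.trans ?_)
    · intro u hu n _ hmax
      exact hu ⟨n, hmax⟩
    · gcongr
      exact Nat.self_le_factorial m
  have h2 : Tendsto (fun m : ℕ => 2 * ((m : ℕ) : ENNReal)⁻¹) atTop (nhds (2 * 0)) :=
    ENNReal.Tendsto.const_mul ENNReal.tendsto_inv_nat_nhds_zero (Or.inr (by simp))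
  rw [mul_zero] at h2
  exact le_antisymm (ge_of_tendsto' h2 h) bot_le

/-! the conditional law given the first coordinates -/

/-- position of the last strict local maximum -/
noncomputable def start (u : ℤ → ℝ) (v : ℤ) : ℤ := v - age u v

lemma start_le (u : ℤ → ℝ) (v : ℤ) : start u v ≤ v := by unfold start; omega

lemma start_unique {u : ℤ → ℝ} {v p : ℤ} (hp : p ≤ v) (h : isMax u p)
    (hmin : ∀ t, p < t → t ≤ v → ¬ isMax u t) : start u v = p := by
  unfold start
  have h1 : age u v = (v - p).toNat := by
    apply age_eq_of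
    · have : v - ((v - p).toNat : ℤ) = p := by omega
      rw [this]
      exact h
    · intro m hm
      exact hmin _ (by omega) (by omega)
  rw [h1]
  omega

lemma start_not {u : ℤ → ℝ} {v t : ℤ} (h1 : start u v < t) (h2 : t ≤ v) : ¬ isMax u t := by
  unfold start at h1
  have h3 : (v - t).toNat < age u v := by omega
  have h4 := age_min h3
  have e1 : v - ((v - t).toNat : ℤ) = t := by omega
  rwa [e1] at h4

lemma start_separated {u : ℤ → ℝ} {a b : ℤ} (hea : ∃ n : ℕ, isMax u (a - n))
    (heb : ∃ n : ℕ, isMax u (b - n)) (hma : ¬ isMax u a) (hmb : ¬ isMax u b)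
    (hne : start u a ≠ start u b) : a + 1 < b ∨ b + 1 < a := by
  have key : ∀ a b : ℤ, (∃ n : ℕ, isMax u (a - n)) → (∃ n : ℕ, isMax u (b - n)) →
      ¬ isMax u b → start u a ≠ start u b → a < b → a + 1 < b := by
    intro a b hea heb hmb hne hlt
    have hb1 : isMax u (start u b) := age_spec heb
    have h1 : a < start u b := by
      by_contra hcon
      push Not at hcon
      apply hne
      apply start_unique hcon hb1
      intro t ht hta
      exact start_not ht (by omega)
    have h2 : start u b ≠ b := by
      intro h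
      rw [h] at hb1
      exact hmb hb1
    have h3 := start_le u b
    omega
  rcases lt_trichotomy a b with h | h | h
  · exact Or.inl (key a b hea heb hmb hne h)
  · subst h
    exact absurd rfl hne
  · exact Or.inr (key b a heb hea hma hne.symm h)

def dec (c : Fin 5) : Fin 4 := if h : c = 0 then 0 else c.pred h

lemma dec_succ (a : Fin 4) : dec a.succ = a := by
  unfold dec
  rw [dif_neg (Fin.succ_ne_zero a)]
  simp

lemma succ_eq_iff {c : Fin 5} (hc : c ≠ 0) (a : Fin 4) : a.succ = c ↔ a = dec c := by
  constructor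
  · rintro rfl
    exact (dec_succ a).symm
  · rintro rfl
    unfold dec
    rw [dif_neg hc]
    simp

lemma F1_zip (u : ℤ → ℝ) (w : ℤ → ℕ → Fin 4) (v : ℤ) :
    F1 (fun i => (u i, w i)) v = letter (age u v) (w (start u v)) := rfl

lemma cond_law (u : ℤ → ℝ) (T : Finset ℤ) (c : ℤ → Fin 5) (l : ℤ) (hl : ∀ v ∈ T, l ≤ v)
    (hgood : ∀ v : ℤ, ∃ n : ℕ, isMax u (v - n)) :
    Measure.infinitePi (fun _ : ℤ => rho) {w | ∀ v ∈ T, F1 (fun i => (u i, w i)) v = c v} =
      Set.indicator {u : ℤ → ℝ | ∀ v ∈ T, (isMax u v ↔ c v = 0)}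
        (fun _ => Q l (T.filter (fun v => c v ≠ 0)) (fun v => dec (c v))) u := by
  classical
  by_cases hmatch : ∀ v ∈ T, (isMax u v ↔ c v = 0)
  · rw [Set.indicator_of_mem (show u ∈ {u : ℤ → ℝ | ∀ v ∈ T, (isMax u v ↔ c v = 0)} from hmatch)]
    set T' := T.filter (fun v => c v ≠ 0) with hT'
    set J := T'.image (start u) with hJ
    have hT'mem : ∀ v ∈ T', v ∈ T ∧ c v ≠ 0 := fun v hv => Finset.mem_filter.mp hv
    have hset : {w : ℤ → ℕ → Fin 4 | ∀ v ∈ T, F1 (fun i => (u i, w i)) v = c v} =
        Set.pi (J : Set ℤ) (fun j => {W : ℕ → Fin 4 | ∀ v ∈ T'.filter (fun v => start u v = j),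
          W (v - (j + 1)).toNat = dec (c v)}) := by
      ext w
      simp only [Set.mem_ofPred_eq, Set.mem_pi, Finset.mem_coe, Finset.mem_filter, and_imp]
      constructor
      · intro h j _ v hv hj
        have h1 := h v (hT'mem v hv).1
        rw [F1_zip] at h1
        have h2 : age u v ≠ 0 := by
          intro h0
          rw [age_eq_zero_iff (hgood v), hmatch v (hT'mem v hv).1] at h0
          exact (hT'mem v hv).2 h0
        obtain ⟨m, hm⟩ := Nat.exists_eq_succ_of_ne_zero h2
        rw [hm] at h1
        simp only [letter] at h1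
        rw [succ_eq_iff (hT'mem v hv).2, hj] at h1
        have e1 : (v - (j + 1)).toNat = m := by
          unfold start at hj
          omega
        rw [e1]
        exact h1
      · intro h v hv
        rw [F1_zip]
        by_cases hc : c v = 0
        · have h0 : age u v = 0 := by
            rw [age_eq_zero_iff (hgood v), hmatch v hv]
            exact hc
          rw [h0, hc]
          rfl
        · have h2 : age u v ≠ 0 := by
            intro h0
            rw [age_eq_zero_iff (hgood v), hmatch v hv] at h0
            exact hc h0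
          obtain ⟨m, hm⟩ := Nat.exists_eq_succ_of_ne_zero h2
          rw [hm]
          simp only [letter]
          rw [succ_eq_iff hc]
          have hvT' : v ∈ T' := Finset.mem_filter.mpr ⟨hv, hc⟩
          have h3 := h (start u v) (Finset.mem_image_of_mem _ hvT') v hvT' rfl
          have e1 : (v - (start u v + 1)).toNat = m := by
            unfold start
            omega
          rw [e1] at h3
          exact h3
    rw [hset, Measure.infinitePi_pi]
    · have h1 : ∀ j ∈ J, rho {W : ℕ → Fin 4 | ∀ v ∈ T'.filter (fun v => start u v = j),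
          W (v - (j + 1)).toNat = dec (c v)} =
          Q l (T'.filter (fun v => start u v = j)) (fun v => dec (c v)) := by
        intro j _
        change Q (j + 1) _ _ = _
        apply Q_congr_start
        · intro v hv
          rw [Finset.mem_filter] at hv
          have h2 : start u v ≠ v := by
            intro hs
            have h3 : isMax u (start u v) := age_spec (hgood v)
            rw [hs, hmatch v (hT'mem v hv.1).1] at h3
            exact (hT'mem v hv.1).2 h3
          have h3 := start_le u v
          rw [← hv.2]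
          omega
        · intro v hv
          exact hl v (hT'mem v (Finset.mem_filter.mp hv).1).1
      rw [Finset.prod_congr rfl h1, ← Q_prod l T' (fun v => dec (c v))
        (fun v hv => hl v (hT'mem v hv).1) (start u) ?_ J]
      · congr 1
        ext v
        simp only [Finset.mem_filter, and_iff_left_iff_imp]
        intro hv
        exact Finset.mem_image_of_mem _ hv
      · intro a ha b hb hab
        refine start_separated (hgood a) (hgood b) ?_ ?_ hab
        · rw [hmatch a (hT'mem a ha).1]
          exact (hT'mem a ha).2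
        · rw [hmatch b (hT'mem b hb).1]
          exact (hT'mem b hb).2
    · intro j _
      have : {W : ℕ → Fin 4 | ∀ v ∈ T'.filter (fun v => start u v = j),
          W (v - (j + 1)).toNat = dec (c v)} = ⋂ v ∈ T'.filter (fun v => start u v = j),
          {W : ℕ → Fin 4 | W (v - (j + 1)).toNat = dec (c v)} := by
        ext W
        simp
      rw [this]
      exact Finset.measurableSet_biInter _ fun v _ =>
        measurableSet_apply _ (fun b : Fin 4 => b = dec (c v))
  · rw [Set.indicator_of_notMem (show u ∉ {u : ℤ → ℝ | ∀ v ∈ T, (isMax u v ↔ c v = 0)} from hmatch)]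
    have hset : {w : ℤ → ℕ → Fin 4 | ∀ v ∈ T, F1 (fun i => (u i, w i)) v = c v} = ∅ := by
      ext w
      simp only [Set.mem_ofPred_eq, Set.mem_empty_iff_false, iff_false]
      intro h
      apply hmatch
      intro v hv
      have h1 := h v hv
      rw [F1_zip] at h1
      rw [← age_eq_zero_iff (hgood v), ← h1]
      cases hm : age u v with
      | zero => simp [letter]
      | succ m => simp [letter]
    rw [hset, measure_empty]

lemma measurableSet_match (T : Finset ℤ) (c : ℤ → Fin 5) :
    MeasurableSet {u : ℤ → ℝ | ∀ v ∈ T, (isMax u v ↔ c v = 0)} := by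
  have : {u : ℤ → ℝ | ∀ v ∈ T, (isMax u v ↔ c v = 0)} =
      ⋂ v ∈ T, {u : ℤ → ℝ | (isMax u v ↔ c v = 0)} := by
    ext u; simp
  rw [this]
  refine Finset.measurableSet_biInter _ fun v _ => ?_
  by_cases hc : c v = 0
  · simp only [hc, iff_true]
    exact measurableSet_isMax v
  · simp only [hc, iff_false]
    exact (measurableSet_isMax v).compl

lemma measurableSet_F1 (T : Finset ℤ) (c : ℤ → Fin 5) :
    MeasurableSet {y : ℤ → Site | ∀ v ∈ T, F1 y v = c v} := by
  have : {y : ℤ → Site | ∀ v ∈ T, F1 y v = c v} = ⋂ v ∈ T, {y | F1 y v = c v} := by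
    ext y; simp
  rw [this]
  refine Finset.measurableSet_biInter _ fun v _ => ?_
  exact measurable_F1 (measurableSet_apply v (fun b : Fin 5 => b = c v))

/-- the law of `F1` on finite sets -/
theorem law (T : Finset ℤ) (c : ℤ → Fin 5) (l : ℤ) (hl : ∀ v ∈ T, l ≤ v) :
    Measure.infinitePi (fun _ : ℤ => nu) {y | ∀ v ∈ T, F1 y v = c v} =
      Q l (T.filter (fun v => c v ≠ 0)) (fun v => dec (c v)) *
      Measure.infinitePi (fun _ : ℤ => lam) {u : ℤ → ℝ | ∀ v ∈ T, (isMax u v ↔ c v = 0)} := by
  have hsplit := split_law (ι := ℤ) lam rho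
  have hm : Measurable (fun y : ℤ → Site => ((fun i => (y i).1), (fun i => (y i).2))) := by
    fun_prop
  have hmz : Measurable (fun p : (ℤ → ℝ) × (ℤ → ℕ → Fin 4) => (fun i => (p.1 i, p.2 i) : ℤ → Site)) := by
    fun_prop
  have h1 : Measure.infinitePi (fun _ : ℤ => nu) {y | ∀ v ∈ T, F1 y v = c v} =
      ((Measure.infinitePi (fun _ : ℤ => lam)).prod (Measure.infinitePi (fun _ : ℤ => rho)))
        ((fun p : (ℤ → ℝ) × (ℤ → ℕ → Fin 4) => (fun i => (p.1 i, p.2 i) : ℤ → Site)) ⁻¹'
          {y | ∀ v ∈ T, F1 y v = c v}) := by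
    rw [hsplit, Measure.map_apply hm (hmz (measurableSet_F1 T c))]
    rfl
  rw [h1, Measure.prod_apply (hmz (measurableSet_F1 T c))]
  have h2 : ∀ᵐ u ∂(Measure.infinitePi (fun _ : ℤ => lam)),
      Measure.infinitePi (fun _ : ℤ => rho) (Prod.mk u ⁻¹'
        ((fun p : (ℤ → ℝ) × (ℤ → ℕ → Fin 4) => (fun i => (p.1 i, p.2 i) : ℤ → Site)) ⁻¹'
          {y | ∀ v ∈ T, F1 y v = c v})) =
      Set.indicator {u : ℤ → ℝ | ∀ v ∈ T, (isMax u v ↔ c v = 0)}
        (fun _ => Q l (T.filter (fun v => c v ≠ 0)) (fun v => dec (c v))) u := by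
    filter_upwards [ae_exists_isMax] with u hu
    exact cond_law u T c l hl hu
  rw [lintegral_congr_ae h2, lintegral_indicator (measurableSet_match T c), setLIntegral_const]

/-- independence of the colours on finite sets at distance larger than two -/
theorem F1_indep (A B : Finset ℤ) (c : ℤ → Fin 5) (h : ∀ a ∈ A, ∀ b ∈ B, 2 < (a - b).natAbs) :
    Measure.infinitePi (fun _ : ℤ => nu) {y | ∀ v ∈ A ∪ B, F1 y v = c v} =
      Measure.infinitePi (fun _ : ℤ => nu) {y | ∀ v ∈ A, F1 y v = c v} *
      Measure.infinitePi (fun _ : ℤ => nu) {y | ∀ v ∈ B, F1 y v = c v} := by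
  classical
  obtain ⟨l, hl⟩ : ∃ l : ℤ, ∀ v ∈ A ∪ B, l ≤ v := by
    rcases (A ∪ B).eq_empty_or_nonempty with h0 | h0
    · exact ⟨0, by rw [h0]; simp⟩
    · exact ⟨(A ∪ B).min' h0, fun v hv => Finset.min'_le _ _ hv⟩
  rw [law (A ∪ B) c l hl, law A c l (fun v hv => hl v (Finset.mem_union_left _ hv)),
    law B c l (fun v hv => hl v (Finset.mem_union_right _ hv))]
  rw [Finset.filter_union, Q_union]
  · have h1 : Measure.infinitePi (fun _ : ℤ => lam)
        {u : ℤ → ℝ | ∀ v ∈ A ∪ B, (isMax u v ↔ c v = 0)} =
        Measure.infinitePi (fun _ : ℤ => lam) {u : ℤ → ℝ | ∀ v ∈ A, (isMax u v ↔ c v = 0)} *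
        Measure.infinitePi (fun _ : ℤ => lam) {u : ℤ → ℝ | ∀ v ∈ B, (isMax u v ↔ c v = 0)} := by
      have hset : {u : ℤ → ℝ | ∀ v ∈ A ∪ B, (isMax u v ↔ c v = 0)} =
          {u : ℤ → ℝ | ∀ v ∈ A, (isMax u v ↔ c v = 0)} ∩
          {u : ℤ → ℝ | ∀ v ∈ B, (isMax u v ↔ c v = 0)} := by
        ext u
        simp only [Finset.mem_union, Set.mem_inter_iff, Set.mem_ofPred_eq]
        constructor
        · intro hu
          exact ⟨fun v hv => hu v (Or.inl hv), fun v hv => hu v (Or.inr hv)⟩
        · rintro ⟨h1, h2⟩ v (hv | hv)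
          · exact h1 v hv
          · exact h2 v hv
      rw [hset]
      have hdep : ∀ (T : Finset ℤ) (x y : ℤ → ℝ),
          (∀ i ∈ T.biUnion (fun v => {v - 1, v, v + 1}), x i = y i) →
          x ∈ {u : ℤ → ℝ | ∀ v ∈ T, (isMax u v ↔ c v = 0)} →
          y ∈ {u : ℤ → ℝ | ∀ v ∈ T, (isMax u v ↔ c v = 0)} := by
        intro T x y hxy hx v hv
        rw [← hx v hv]
        unfold isMax
        have h1 := hxy (v - 1) (Finset.mem_biUnion.mpr ⟨v, hv, by simp⟩)
        have h2 := hxy v (Finset.mem_biUnion.mpr ⟨v, hv, by simp⟩)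
        have h3 := hxy (v + 1) (Finset.mem_biUnion.mpr ⟨v, hv, by simp⟩)
        rw [h1, h2, h3]
      refine indep_of_disjoint lam (A.biUnion (fun v => {v - 1, v, v + 1}))
        (B.biUnion (fun v => {v - 1, v, v + 1})) ?_ _ _ (measurableSet_match A c)
        (measurableSet_match B c) (hdep A) (hdep B)
      rw [Finset.disjoint_left]
      intro i hiA hiB
      rw [Finset.mem_biUnion] at hiA hiB
      obtain ⟨a, ha, hia⟩ := hiA
      obtain ⟨b, hb, hib⟩ := hiB
      simp only [Finset.mem_insert, Finset.mem_singleton] at hia hib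
      have := h a ha b hb
      omega
    rw [h1]
    ring
  · intro v hv
    exact hl v (Finset.mem_union_left _ (Finset.mem_filter.mp hv).1)
  · intro v hv
    exact hl v (Finset.mem_union_right _ (Finset.mem_filter.mp hv).1)
  · intro a ha b hb
    have := h a (Finset.mem_filter.mp ha).1 b (Finset.mem_filter.mp hb).1
    omega

lemma rho_consecutive : ∀ᵐ W ∂rho, ∀ n : ℕ, W n ≠ W (n + 1) := by
  rw [ae_all_iff]
  intro n
  rw [ae_iff]
  have hsub : {W : ℕ → Fin 4 | ¬ W n ≠ W (n + 1)} ⊆ ⋃ a : Fin 4, ev {n, n + 1} (fun _ => a) := by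
    intro W hW
    simp only [Set.mem_ofPred_eq, not_not, ne_eq] at hW
    rw [Set.mem_iUnion]
    refine ⟨W n, fun i hi => ?_⟩
    simp only [Finset.mem_insert, Finset.mem_singleton] at hi
    rcases hi with rfl | rfl
    · rfl
    · exact hW.symm
  refine measure_mono_null hsub ?_
  rw [measure_iUnion_null_iff]
  intro a
  rw [rho_ev n 2]
  · have : patF n 2 {n, n + 1} (fun _ => a) = [some a, some a] := by
      simp [patF, List.range_succ]
    rw [this]
    simp only [hlp, List.nil_append, List.singleton_append]
    rw [hl_of_not_chain]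
    · simp
    · simp
  · intro i hi
    simp only [Finset.mem_insert, Finset.mem_singleton] at hi
    omega

lemma map_fst : (Measure.infinitePi (fun _ : ℤ => nu)).map (fun y i => (y i).1) =
    Measure.infinitePi (fun _ : ℤ => lam) := by
  have h := Measure.infinitePi_map_pi (fun _ : ℤ => nu) (f := fun _ => Prod.fst)
    (fun _ => measurable_fst)
  rw [h]
  congr 1
  funext i
  unfold nu
  rw [Measure.map_fst_prod]
  simp

lemma map_snd : (Measure.infinitePi (fun _ : ℤ => nu)).map (fun y i => (y i).2) =
    Measure.infinitePi (fun _ : ℤ => rho) := by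
  have h := Measure.infinitePi_map_pi (fun _ : ℤ => nu) (f := fun _ => Prod.snd)
    (fun _ => measurable_snd)
  rw [h]
  congr 1
  funext i
  unfold nu
  rw [Measure.map_snd_prod]
  simp

lemma ae_good : ∀ᵐ y ∂(Measure.infinitePi (fun _ : ℤ => nu)),
    (∀ v : ℤ, ∃ n : ℕ, isMax (fun i => (y i).1) (v - n)) ∧
    (∀ v : ℤ, ∀ n : ℕ, (y v).2 n ≠ (y v).2 (n + 1)) := by
  rw [eventually_and]
  constructor
  · have h := ae_exists_isMax
    rw [← map_fst] at h
    exact ae_of_ae_map (Measurable.aemeasurable (by fun_prop)) h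
  · rw [ae_all_iff]
    intro v
    have h := rho_consecutive
    rw [← Measure.infinitePi_map_eval (fun _ : ℤ => rho) v, ← map_snd,
      Measure.map_map (by fun_prop) (by fun_prop)] at h
    exact ae_of_ae_map (Measurable.aemeasurable (by fun_prop)) h

lemma F1_proper {y : ℤ → Site} (h1 : ∀ v : ℤ, ∃ n : ℕ, isMax (fun i => (y i).1) (v - n))
    (h2 : ∀ v : ℤ, ∀ n : ℕ, (y v).2 n ≠ (y v).2 (n + 1)) (v : ℤ) : F1 y v ≠ F1 y (v + 1) := by
  set u : ℤ → ℝ := fun i => (y i).1 with hu
  by_cases hm : isMax u (v + 1)
  · have e1 : age u (v + 1) = 0 := (age_eq_zero_iff (h1 (v + 1))).mpr hm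
    have hnm : ¬ isMax u v := by
      intro h
      have a1 := hm.1
      have a2 := h.2
      rw [add_sub_cancel_right] at a1
      exact absurd a1 (not_lt.mpr a2.le)
    have e2 : age u v ≠ 0 := fun h => hnm ((age_eq_zero_iff (h1 v)).mp h)
    obtain ⟨m, hm'⟩ := Nat.exists_eq_succ_of_ne_zero e2
    unfold F1
    rw [← hu, e1, hm']
    simp only [letter]
    exact Fin.succ_ne_zero _
  · have e1 : age u (v + 1) = age u v + 1 := by
      apply age_eq_of
      · have e2 : v + 1 - ((age u v + 1 : ℕ) : ℤ) = v - age u v := by push_cast; ring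
        rw [e2]
        exact age_spec (h1 v)
      · intro m hm'
        rcases Nat.eq_zero_or_pos m with rfl | hpos
        · simpa using hm
        · have h3 := age_min (u := u) (v := v) (m := m - 1) (by omega)
          have e2 : v + 1 - (m : ℤ) = v - ((m - 1 : ℕ) : ℤ) := by omega
          rw [e2]
          exact h3
    unfold F1
    rw [← hu, e1]
    have e2 : v + 1 - ((age u v + 1 : ℕ) : ℤ) = v - age u v := by push_cast; ring
    rw [e2]
    cases hm' : age u v with
    | zero =>
      simp only [letter]
      exact (Fin.succ_ne_zero _).symm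
    | succ m =>
      simp only [letter]
      intro h
      exact h2 _ _ (Fin.succ_injective _ h)

/-- if there is a maximum among `0, -1, ..., -(r-1)` then the colour at `0` is determined by the
sites `-r, ..., r` -/
lemma F1_determined {y y' : ℤ → Site} {r : ℕ} (h : ∃ n < r, isMax (fun i => (y i).1) (0 - (n : ℤ)))
    (hyy : ∀ v : ℤ, v.natAbs ≤ r → y' v = y v) : F1 y' 0 = F1 y 0 := by
  set u : ℤ → ℝ := fun i => (y i).1 with hu
  set u' : ℤ → ℝ := fun i => (y' i).1 with hu'
  have huu : ∀ v : ℤ, v.natAbs ≤ r → u' v = u v := by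
    intro v hv
    simp only [hu, hu', hyy v hv]
  obtain ⟨n, hn, hmax⟩ := h
  have hiff : ∀ m : ℕ, m < r → (isMax u' (0 - (m : ℤ)) ↔ isMax u (0 - (m : ℤ))) := by
    intro m hm
    unfold isMax
    rw [huu _ (by omega), huu _ (by omega), huu _ (by omega)]
  have hex : ∃ n : ℕ, isMax u (0 - (n : ℤ)) := ⟨n, hmax⟩
  have hage : age u 0 ≤ n := Nat.sInf_le hmax
  have e1 : age u' 0 = age u 0 := by
    apply age_eq_of
    · rw [hiff _ (by omega)]
      exact age_spec hex
    · intro m hm
      rw [hiff _ (by omega)]
      exact age_min hm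
  unfold F1
  rw [← hu, ← hu', e1, hyy _ (by omega)]

/-- bad event for the radius `r` -/
def bad (r : ℕ) : Set (ℤ → Site) := {y | ∀ n < r, ¬ isMax (fun i => (y i).1) (0 - (n : ℤ))}

lemma measurableSet_bad (r : ℕ) : MeasurableSet (bad r) := by
  have hm : Measurable (fun y : ℤ → Site => fun i => (y i).1) := by fun_prop
  have : bad r = (fun y : ℤ → Site => fun i => (y i).1) ⁻¹'
      (⋂ n : ℕ, ⋂ _ : n < r, {u | ¬ isMax u (0 - (n : ℤ))}) := by
    ext y
    simp [bad]
  rw [this]
  exact hm (MeasurableSet.iInter fun n => MeasurableSet.iInter fun _ => (measurableSet_isMax _).compl)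

lemma measure_bad (r : ℕ) : Measure.infinitePi (fun _ : ℤ => nu) (bad r) ≤
    2 * (((r / 2).factorial : ℕ) : ENNReal)⁻¹ := by
  have h := gap_bound r 0
  rw [← map_fst, Measure.map_apply (by fun_prop)] at h
  · exact h
  · have : {u : ℤ → ℝ | ∀ n < r, ¬ isMax u (0 - (n : ℤ))} =
      (⋂ n : ℕ, ⋂ _ : n < r, {u | ¬ isMax u (0 - (n : ℤ))}) := by
      ext y
      simp
    rw [this]
    exact MeasurableSet.iInter fun n => MeasurableSet.iInter fun _ => (measurableSet_isMax _).compl

/-- independence from independence on finite sets -/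
theorem indepFun_of_finset {Ω ι E : Type*} [MeasurableSpace Ω] [Countable E] [MeasurableSpace E]
    [MeasurableSingletonClass E] (μ : Measure Ω) [IsProbabilityMeasure μ] (X : Ω → ι → E)
    (hX : Measurable X) (A B : Set ι) (hAB : Disjoint A B)
    (h : ∀ (S T : Finset ι) (c : ι → E), (∀ i ∈ S, i ∈ A) → (∀ i ∈ T, i ∈ B) →
      μ ({ω | ∀ i ∈ S, X ω i = c i} ∩ {ω | ∀ i ∈ T, X ω i = c i}) =
        μ {ω | ∀ i ∈ S, X ω i = c i} * μ {ω | ∀ i ∈ T, X ω i = c i}) :
    IndepFun (fun ω (a : A) => X ω a) (fun ω (b : B) => X ω b) μ := by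
  classical
  let π : Set ι → Set (Set Ω) := fun A => {s | ∃ (S : Finset ι) (c : ι → E), (∀ i ∈ S, i ∈ A) ∧
    s = {ω | ∀ i ∈ S, X ω i = c i}}
  have hcoord : ∀ i, Measurable (fun ω => X ω i) := fun i => (measurable_pi_apply i).comp hX
  have hπm : ∀ A : Set ι, ∀ s ∈ π A, MeasurableSet s := by
    rintro A s ⟨S, c, _, rfl⟩
    have : {ω | ∀ i ∈ S, X ω i = c i} = ⋂ i ∈ S, {ω | X ω i = c i} := by
      ext ω; simp
    rw [this]
    exact Finset.measurableSet_biInter _ fun i _ => hcoord i (measurableSet_singleton (c i))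
  have hπ : ∀ A : Set ι, IsPiSystem (π A) := by
    rintro A _ ⟨S, c, hS, rfl⟩ _ ⟨T, c', hT, rfl⟩ hne
    obtain ⟨ω₀, h1, h2⟩ := hne
    refine ⟨S ∪ T, fun i => X ω₀ i, ?_, ?_⟩
    · intro i hi
      rcases Finset.mem_union.mp hi with hi | hi
      · exact hS i hi
      · exact hT i hi
    · ext ω
      simp only [Set.mem_inter_iff, Set.mem_ofPred_eq, Finset.mem_union]
      constructor
      · rintro ⟨h3, h4⟩ i (hi | hi)
        · rw [h3 i hi, h1 i hi]
        · rw [h4 i hi, h2 i hi]
      · intro h3
        exact ⟨fun i hi => by rw [h3 i (Or.inl hi), h1 i hi],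
          fun i hi => by rw [h3 i (Or.inr hi), h2 i hi]⟩
  have hgen : ∀ A : Set ι, MeasurableSpace.comap (fun ω (a : A) => X ω a) inferInstance ≤
      MeasurableSpace.generateFrom (π A) := by
    intro A
    rw [← measurable_iff_comap_le]
    refine @measurable_pi_lambda _ _ _ (MeasurableSpace.generateFrom (π A)) _ _ fun a => ?_
    refine @measurable_to_countable' _ _ _ _ (MeasurableSpace.generateFrom (π A)) _ fun e => ?_
    apply MeasurableSpace.measurableSet_generateFrom
    refine ⟨{(a : ι)}, fun _ => e, ?_, ?_⟩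
    · intro i hi
      rw [Finset.mem_singleton] at hi
      rw [hi]
      exact a.2
    · ext ω
      simp
  rw [IndepFun_iff_Indep]
  refine indep_of_indep_of_le_left (indep_of_indep_of_le_right ?_ (hgen B)) (hgen A)
  refine IndepSets.indep' (hπm A) (hπm B) (hπ A) (hπ B) ?_
  rw [IndepSets_iff]
  rintro _ _ ⟨S, c, hS, rfl⟩ ⟨T, c', hT, rfl⟩
  have key := h S T (fun i => if i ∈ A then c i else c' i) hS hT
  have e1 : {ω | ∀ i ∈ S, X ω i = (if i ∈ A then c i else c' i)} = {ω | ∀ i ∈ S, X ω i = c i} := by
    ext ω
    refine forall_congr' fun i => forall_congr' fun hi => ?_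
    rw [if_pos (hS i hi)]
  have e2 : {ω | ∀ i ∈ T, X ω i = (if i ∈ A then c i else c' i)} = {ω | ∀ i ∈ T, X ω i = c' i} := by
    ext ω
    refine forall_congr' fun i => forall_congr' fun hi => ?_
    rw [if_neg (fun hA => Set.disjoint_left.mp hAB hA (hT i hi))]
  rw [e1, e2] at key
  exact key

/-! ## The colouring of `ℤ^d` -/

lemma codingRadius_le {d q : ℕ} {S : Type} {F : ((Fin d → ℤ) → S) → (Fin d → ℤ) → Fin q}
    {y : (Fin d → ℤ) → S} {r : ℕ} (h : DeterminedBy F y r) : codingRadius F y ≤ r :=
  iInf₂_le r h

/-- the line through `v` in direction `i`, read off in the `i`-th component -/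
def line {d : ℕ} (y : (Fin d → ℤ) → Fin d → Site) (i : Fin d) (v : Fin d → ℤ) : ℤ → Site :=
  fun t => y (Function.update v i t) i

noncomputable def nud (d : ℕ) : Measure (Fin d → Site) := Measure.infinitePi (fun _ : Fin d => nu)

instance nud_prob (d : ℕ) : IsProbabilityMeasure (nud d) := by unfold nud; infer_instance

noncomputable def Fd (d : ℕ) (y : (Fin d → ℤ) → Fin d → Site) (v : Fin d → ℤ) : Fin (5 ^ d) :=
  finFunctionFinEquiv (fun i => F1 (line y i v) (v i))

lemma line_shift {d : ℕ} (y : (Fin d → ℤ) → Fin d → Site) (u : Fin d → ℤ) (i : Fin d)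
    (v : Fin d → ℤ) : line (fun w => y (w + u)) i v = fun t => line y i (v + u) (t + u i) := by
  funext t
  have h : Function.update v i t + u = Function.update (v + u) i (t + u i) := by
    funext j
    by_cases h : j = i
    · subst h; simp
    · simp [h]
  change y (Function.update v i t + u) i = y (Function.update (v + u) i (t + u i)) i
  rw [h]

lemma Fd_shift (d : ℕ) : CommutesWithTranslations (Fd d) := by
  intro u y
  funext v
  unfold Fd
  congr 1
  funext i
  rw [line_shift, F1_shift]
  rfl

lemma measurable_line {d : ℕ} (i : Fin d) (v : Fin d → ℤ) :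
    Measurable (fun y : (Fin d → ℤ) → Fin d → Site => line y i v) := by
  unfold line
  fun_prop

lemma measurable_Fd (d : ℕ) : Measurable (Fd d) := by
  rw [measurable_pi_iff]
  intro v
  have h1 : Measurable (fun (y : (Fin d → ℤ) → Fin d → Site) (i : Fin d) => F1 (line y i v) (v i)) := by
    rw [measurable_pi_iff]
    intro i
    exact (measurable_pi_apply (v i)).comp (measurable_F1.comp (measurable_line i v))
  exact (measurable_of_countable (finFunctionFinEquiv (m := 5) (n := d))).comp h1

/-- the set of lines: a direction and a base point whose coordinate in that direction vanishes -/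
abbrev Lines (d : ℕ) : Type := {p : Fin d × (Fin d → ℤ) // p.2 p.1 = 0}

/-- all lines together form an i.i.d. family of i.i.d. fields -/
lemma lines_law (d : ℕ) : (iidLaw d (nud d)).map (fun y (κ : Lines d) => line y κ.1.1 κ.1.2) =
    Measure.infinitePi (fun _ : Lines d => Measure.infinitePi (fun _ : ℤ => nu)) := by
  have h1 := Measure.infinitePi_map_curry_symm (ι := (Fin d → ℤ)) (κ := Fin d)
    (fun _ _ => nu)
  let g : Lines d × ℤ → (Fin d → ℤ) × Fin d := fun p => (Function.update p.1.1.2 p.1.1.1 p.2, p.1.1.1)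
  have hg : Function.Injective g := by
    rintro ⟨⟨⟨i, b⟩, hb⟩, t⟩ ⟨⟨⟨i', b'⟩, hb'⟩, t'⟩ h
    simp only [g, Prod.mk.injEq] at h
    obtain ⟨h1, h2⟩ := h
    subst h2
    simp only at hb hb'
    have ht : t = t' := by
      have := congrFun h1 i
      simpa using this
    have hbb : b = b' := by
      funext j
      by_cases hj : j = i
      · subst hj
        rw [hb, hb']
      · have := congrFun h1 j
        simpa [hj] using this
    subst ht hbb
    rfl
  have h2 := Measure.map_infinitePi_infinitePi_of_inj (P := fun _ : (Fin d → ℤ) × Fin d => nu) hg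
  have h3 := Measure.infinitePi_map_curry (ι := Lines d) (κ := ℤ) (fun _ _ => nu)
  rw [← h3, ← h2, ← h1, Measure.map_map (by fun_prop) (by fun_prop),
    Measure.map_map (by fun_prop) (by fun_prop)]
  rfl



/-- the line through `v` in direction `i` -/
def toLine {d : ℕ} (i : Fin d) (v : Fin d → ℤ) : Lines d :=
  ⟨(i, Function.update v i 0), by simp⟩

/-- positions of the sites of `S` on the line `κ` -/
noncomputable def pos {d : ℕ} (S : Finset (Fin d → ℤ)) (κ : Lines d) : Finset ℤ :=
  (S.filter (fun v => Function.update v κ.1.1 0 = κ.1.2)).image (fun v => v κ.1.1)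

lemma line_toLine {d : ℕ} (y : (Fin d → ℤ) → Fin d → Site) (i : Fin d) (v : Fin d → ℤ) :
    line y (toLine i v).1.1 (toLine i v).1.2 = line y i v := by
  funext t
  simp [line, toLine]

lemma update_eq_of {d : ℕ} {κ : Lines d} {v : Fin d → ℤ}
    (h : Function.update v κ.1.1 0 = κ.1.2) : Function.update κ.1.2 κ.1.1 (v κ.1.1) = v := by
  rw [← h]
  simp

lemma mem_pos {d : ℕ} {S : Finset (Fin d → ℤ)} {κ : Lines d} {t : ℤ} :
    t ∈ pos S κ ↔ Function.update κ.1.2 κ.1.1 t ∈ S := by
  unfold pos
  rw [Finset.mem_image]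
  constructor
  · rintro ⟨v, hv, rfl⟩
    rw [Finset.mem_filter] at hv
    rw [update_eq_of hv.2]
    exact hv.1
  · intro h
    refine ⟨_, Finset.mem_filter.mpr ⟨h, ?_⟩, ?_⟩
    · simp only [Function.update_idem]
      exact Function.update_eq_self_iff.mpr κ.2.symm
    · simp

lemma event_eq {d : ℕ} (S : Finset (Fin d → ℤ)) (c : (Fin d → ℤ) → Fin (5 ^ d))
    (K : Finset (Lines d)) (hK : ∀ v ∈ S, ∀ i, toLine i v ∈ K) :
    {y : (Fin d → ℤ) → Fin d → Site | ∀ v ∈ S, Fd d y v = c v} =
      (fun y (κ : Lines d) => line y κ.1.1 κ.1.2) ⁻¹' (Set.pi (K : Set (Lines d)) (fun κ =>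
        {x : ℤ → Site | ∀ t ∈ pos S κ,
          F1 x t = finFunctionFinEquiv.symm (c (Function.update κ.1.2 κ.1.1 t)) κ.1.1})) := by
  ext y
  simp only [Set.mem_ofPred_eq, Set.mem_preimage, Set.mem_pi, Finset.mem_coe]
  constructor
  · intro h κ _ t ht
    rw [mem_pos] at ht
    have h1 := h _ ht
    rw [← h1]
    unfold Fd
    rw [Equiv.symm_apply_apply]
    have h2 : line y κ.1.1 (Function.update κ.1.2 κ.1.1 t) = line y κ.1.1 κ.1.2 := by
      funext s
      simp [line]
    rw [h2]
    simp
  · intro h v hv
    unfold Fd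
    rw [← Equiv.eq_symm_apply]
    funext i
    have h1 := h (toLine i v) (hK v hv i) (v i) (by
      rw [mem_pos]
      simpa [toLine] using hv)
    rw [line_toLine] at h1
    rw [h1]
    simp [toLine]

lemma measure_event {d : ℕ} (S : Finset (Fin d → ℤ)) (c : (Fin d → ℤ) → Fin (5 ^ d))
    (K : Finset (Lines d)) (hK : ∀ v ∈ S, ∀ i, toLine i v ∈ K) :
    iidLaw d (nud d) {y | ∀ v ∈ S, Fd d y v = c v} =
      ∏ κ ∈ K, Measure.infinitePi (fun _ : ℤ => nu) {x : ℤ → Site | ∀ t ∈ pos S κ,
          F1 x t = finFunctionFinEquiv.symm (c (Function.update κ.1.2 κ.1.1 t)) κ.1.1} := by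
  have hm : ∀ κ : Lines d, MeasurableSet {x : ℤ → Site | ∀ t ∈ pos S κ,
          F1 x t = finFunctionFinEquiv.symm (c (Function.update κ.1.2 κ.1.1 t)) κ.1.1} :=
    fun κ => measurableSet_F1 _ _
  rw [event_eq S c K hK, ← Measure.map_apply, lines_law, Measure.infinitePi_pi _ (fun κ _ => hm κ)]
  · exact measurable_pi_lambda _ fun κ => measurable_line _ _
  · exact MeasurableSet.pi K.countable_toSet fun κ _ => hm κ

lemma Fd_dependent (d : ℕ) : IsDependent 2 (iidLaw d (nud d)) (Fd d) := by
  classical
  intro A B hAB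
  have : IsProbabilityMeasure (iidLaw d (nud d)) := by unfold iidLaw; infer_instance
  refine indepFun_of_finset (iidLaw d (nud d)) (Fd d) (measurable_Fd d) A B ?_ ?_
  · rw [Set.disjoint_left]
    intro a ha hb
    have := hAB a ha a hb
    simp [l1] at this
  · intro S T c hS hT
    set K : Finset (Lines d) := ((S ∪ T) ×ˢ (Finset.univ : Finset (Fin d))).image
      (fun p => toLine p.2 p.1) with hKdef
    have hK : ∀ v ∈ S ∪ T, ∀ i, toLine i v ∈ K := by
      intro v hv i
      exact Finset.mem_image.mpr ⟨(v, i), Finset.mem_product.mpr ⟨hv, Finset.mem_univ _⟩, rfl⟩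
    have e1 : ({ω | ∀ i ∈ S, Fd d ω i = c i} ∩ {ω | ∀ i ∈ T, Fd d ω i = c i}) =
        {ω | ∀ i ∈ S ∪ T, Fd d ω i = c i} := by
      ext ω
      simp only [Set.mem_inter_iff, Set.mem_ofPred_eq, Finset.mem_union]
      constructor
      · rintro ⟨h1, h2⟩ i (hi | hi)
        · exact h1 i hi
        · exact h2 i hi
      · intro h
        exact ⟨fun i hi => h i (Or.inl hi), fun i hi => h i (Or.inr hi)⟩
    rw [e1, measure_event (S ∪ T) c K hK,
      measure_event S c K (fun v hv => hK v (Finset.mem_union_left _ hv)),
      measure_event T c K (fun v hv => hK v (Finset.mem_union_right _ hv)),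
      ← Finset.prod_mul_distrib]
    refine Finset.prod_congr rfl fun κ _ => ?_
    have hpos : pos (S ∪ T) κ = pos S κ ∪ pos T κ := by
      ext t
      rw [Finset.mem_union, mem_pos, mem_pos, mem_pos, Finset.mem_union]
    rw [hpos]
    apply F1_indep
    intro a ha b hb
    rw [mem_pos] at ha hb
    have h1 := hAB _ (hS _ ha) _ (hT _ hb)
    have h2 : l1 (Function.update κ.1.2 κ.1.1 a - Function.update κ.1.2 κ.1.1 b) = (a - b).natAbs := by
      unfold l1
      rw [Finset.sum_eq_single κ.1.1]
      · simp
      · intro j _ hj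
        simp [hj]
      · simp
    rw [h2] at h1
    exact h1

lemma map_line (d : ℕ) (i : Fin d) (v : Fin d → ℤ) :
    (iidLaw d (nud d)).map (fun y => line y i v) = Measure.infinitePi (fun _ : ℤ => nu) := by
  have h := lines_law d
  have h1 : (fun y : (Fin d → ℤ) → Fin d → Site => line y i v) =
      (fun z : Lines d → ℤ → Site => z (toLine i v)) ∘
        (fun y (κ : Lines d) => line y κ.1.1 κ.1.2) := by
    funext y
    simp only [Function.comp]
    rw [line_toLine]
  rw [h1, ← Measure.map_map (by fun_prop) (measurable_pi_lambda _ fun κ => measurable_line _ _), h]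
  exact Measure.infinitePi_map_eval (fun _ : Lines d => Measure.infinitePi (fun _ : ℤ => nu)) _

lemma Fd_colouring (d : ℕ) : IsColouring (iidLaw d (nud d)) (Fd d) := by
  unfold IsColouring
  have h : ∀ᵐ y ∂(iidLaw d (nud d)), ∀ (i : Fin d) (v : Fin d → ℤ),
      (∀ s : ℤ, ∃ n : ℕ, isMax (fun t => (line y i v t).1) (s - n)) ∧
      (∀ s : ℤ, ∀ n : ℕ, (line y i v s).2 n ≠ (line y i v s).2 (n + 1)) := by
    rw [ae_all_iff]
    intro i
    rw [ae_all_iff]
    intro v
    have h1 := ae_good
    rw [← map_line d i v] at h1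
    exact ae_of_ae_map (measurable_line i v).aemeasurable h1
  filter_upwards [h] with y hy
  have key : ∀ (i : Fin d) (u v : Fin d → ℤ), (∀ j, j ≠ i → u j = v j) → v i = u i + 1 →
      Fd d y u ≠ Fd d y v := by
    intro i u v huv hi heq
    have h1 := congrFun (finFunctionFinEquiv.injective heq) i
    have h2 : line y i v = line y i u := by
      funext t
      unfold line
      congr 1
      funext j
      by_cases hj : j = i
      · subst hj; simp
      · simp [hj, huv j hj]
    rw [h2, hi] at h1
    exact F1_proper (hy i u).1 (hy i u).2 (u i) h1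
  intro u v huv
  -- locate the coordinate in which u and v differ
  have h1 : ∃ i : Fin d, (∀ j, j ≠ i → u j = v j) ∧ (u i - v i).natAbs = 1 := by
    unfold l1 at huv
    have h2 : ∃ i : Fin d, ((u - v) i).natAbs ≠ 0 := by
      by_contra hcon
      push Not at hcon
      rw [Finset.sum_eq_zero (fun i _ => hcon i)] at huv
      omega
    obtain ⟨i, hi⟩ := h2
    refine ⟨i, ?_, ?_⟩
    · intro j hj
      by_contra hne
      have h3 : ((u - v) j).natAbs ≠ 0 := by
        simp only [Pi.sub_apply, ne_eq, Int.natAbs_eq_zero]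
        omega
      have h4 : ((u - v) j).natAbs + ((u - v) i).natAbs ≤ ∑ i, ((u - v) i).natAbs := by
        rw [← Finset.sum_pair (f := fun k => ((u - v) k).natAbs) hj]
        exact Finset.sum_le_sum_of_subset (Finset.subset_univ _)
      omega
    · have h4 : ((u - v) i).natAbs ≤ ∑ i, ((u - v) i).natAbs :=
        Finset.single_le_sum (f := fun i => ((u - v) i).natAbs) (fun _ _ => Nat.zero_le _)
          (Finset.mem_univ i)
      simp only [Pi.sub_apply] at h4 hi huv
      omega
  obtain ⟨i, h2, h3⟩ := h1
  rcases Int.natAbs_eq (u i - v i) with h4 | h4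
  · rw [h3] at h4
    exact (key i v u (fun j hj => (h2 j hj).symm) (by push_cast at h4; omega)).symm
  · rw [h3] at h4
    exact key i u v h2 (by push_cast at h4; omega)

/-- union of the bad events of the lines through the origin -/
def badd (d : ℕ) (r : ℕ) : Set ((Fin d → ℤ) → Fin d → Site) :=
  ⋃ i : Fin d, {y | line y i 0 ∈ bad r}

lemma determined_of_not_bad {d r : ℕ} {y : (Fin d → ℤ) → Fin d → Site} (h : y ∉ badd d r) :
    DeterminedBy (Fd d) y r := by
  intro y' hyy
  unfold Fd
  congr 1
  funext i
  have h1 : line y i 0 ∉ bad r := by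
    intro hb
    exact h (Set.mem_iUnion.mpr ⟨i, hb⟩)
  unfold bad at h1
  simp only [Set.mem_ofPred_eq, not_forall, not_not] at h1
  obtain ⟨n, hn, hmax⟩ := h1
  apply F1_determined ⟨n, hn, hmax⟩
  intro t ht
  unfold line
  rw [hyy]
  unfold l1
  rw [Finset.sum_eq_single i]
  · simpa using ht
  · intro j _ hj
    simp [hj]
  · simp

lemma measure_badd (d r : ℕ) : iidLaw d (nud d) (badd d r) ≤
    d * (2 * (((r / 2).factorial : ℕ) : ENNReal)⁻¹) := by
  unfold badd
  refine le_trans (measure_iUnion_fintype_le _ _) ?_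
  have h : ∀ i : Fin d, iidLaw d (nud d) {y | line y i 0 ∈ bad r} ≤
      2 * (((r / 2).factorial : ℕ) : ENNReal)⁻¹ := by
    intro i
    have h1 := measure_bad r
    rw [← map_line d i 0, Measure.map_apply (measurable_line i 0) (measurableSet_bad r)] at h1
    exact h1
  refine le_trans (Finset.sum_le_sum fun i _ => h i) ?_
  simp

lemma subset_badd (d r : ℕ) : {y | (r : ℕ∞) < codingRadius (Fd d) y} ⊆ badd d r := by
  intro y hy
  by_contra hcon
  exact absurd (codingRadius_le (determined_of_not_bad hcon)) (not_le.mpr hy)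

lemma tail_bound (d r : ℕ) : iidLaw d (nud d) {y | (r : ℕ∞) < codingRadius (Fd d) y} ≤
    d * (2 * (((r / 2).factorial : ℕ) : ENNReal)⁻¹) :=
  le_trans (measure_mono (subset_badd d r)) (measure_badd d r)

lemma ae_finite (d : ℕ) : ∀ᵐ y ∂(iidLaw d (nud d)), codingRadius (Fd d) y ≠ ⊤ := by
  rw [ae_iff]
  have h : ∀ m : ℕ, iidLaw d (nud d) {y | ¬ codingRadius (Fd d) y ≠ ⊤} ≤
      d * (2 * ((m : ℕ) : ENNReal)⁻¹) := by
    intro m
    refine le_trans (measure_mono ?_) ((tail_bound d (2 * m)).trans ?_)
    · intro y hy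
      simp only [Set.mem_ofPred_eq, not_not, ne_eq] at hy ⊢
      rw [hy]
      exact ENat.natCast_lt_top _
    · rw [Nat.mul_div_cancel_left m (by norm_num)]
      gcongr
      exact Nat.self_le_factorial m
  have h2 : Tendsto (fun m : ℕ => (d : ENNReal) * (2 * ((m : ℕ) : ENNReal)⁻¹)) atTop
      (nhds (d * (2 * 0))) :=
    ENNReal.Tendsto.const_mul (ENNReal.Tendsto.const_mul ENNReal.tendsto_inv_nat_nhds_zero
      (Or.inr (by simp))) (Or.inr (by simp))
  rw [mul_zero, mul_zero] at h2
  exact le_antisymm (ge_of_tendsto' h2 h) bot_le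

/-- factorials beat exponentials -/
lemma factorial_beats (d : ℕ) (C : ℝ) : ∀ᶠ r : ℕ in atTop,
    (d : ENNReal) * (2 * (((r / 2).factorial : ℕ) : ENNReal)⁻¹) ≤
      ENNReal.ofReal (Real.exp (-C * r)) := by
  have h1 := FloorSemiring.tendsto_pow_div_factorial_atTop (Real.exp (2 * |C|))
  have h2 : ∀ᶠ m : ℕ in atTop, (Real.exp (2 * |C|)) ^ m / (m.factorial : ℝ) <
      Real.exp (-|C|) / (2 * (d + 1)) := h1.eventually (gt_mem_nhds (by positivity))
  have h3 : Tendsto (fun r : ℕ => r / 2) atTop atTop :=
    Nat.tendsto_div_const_atTop (by norm_num)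
  filter_upwards [h3.eventually h2] with r hr
  set m := r / 2 with hm
  have hrm : (r : ℝ) ≤ 2 * m + 1 := by
    have : r ≤ 2 * m + 1 := by omega
    exact_mod_cast this
  have hfac : (0 : ℝ) < m.factorial := by exact_mod_cast Nat.factorial_pos m
  have key : (d : ℝ) * (2 * ((m.factorial : ℕ) : ℝ)⁻¹) ≤ Real.exp (-C * r) := by
    have e1 : Real.exp (-(|C| * (2 * m + 1))) ≤ Real.exp (-C * r) := by
      apply Real.exp_le_exp.mpr
      have h4 : C * r ≤ |C| * r := mul_le_mul_of_nonneg_right (le_abs_self C) (by positivity)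
      have h5 : |C| * r ≤ |C| * (2 * m + 1) := mul_le_mul_of_nonneg_left hrm (abs_nonneg C)
      linarith
    refine le_trans ?_ e1
    have e2 : Real.exp (-(|C| * (2 * m + 1))) = Real.exp (-|C|) / (Real.exp (2 * |C|)) ^ m := by
      rw [← Real.exp_nat_mul, ← Real.exp_sub]
      congr 1
      ring
    rw [e2, le_div_iff₀ (by positivity)]
    have h6 : (Real.exp (2 * |C|)) ^ m / (m.factorial : ℝ) * (2 * (d + 1)) < Real.exp (-|C|) := by
      rwa [lt_div_iff₀ (by positivity)] at hr
    have h7 : (d : ℝ) * (2 * ((m.factorial : ℕ) : ℝ)⁻¹) * (Real.exp (2 * |C|)) ^ m ≤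
        (Real.exp (2 * |C|)) ^ m / (m.factorial : ℝ) * (2 * (d + 1)) := by
      rw [div_eq_mul_inv]
      have : 0 ≤ (Real.exp (2 * |C|)) ^ m * ((m.factorial : ℕ) : ℝ)⁻¹ := by positivity
      nlinarith
    linarith
  have e3 : (d : ENNReal) * (2 * (((m.factorial : ℕ)) : ENNReal)⁻¹) =
      ENNReal.ofReal ((d : ℝ) * (2 * ((m.factorial : ℕ) : ℝ)⁻¹)) := by
    rw [ENNReal.ofReal_mul (by positivity), ENNReal.ofReal_mul (by norm_num),
      ENNReal.ofReal_inv_of_pos hfac, ENNReal.ofReal_natCast, ENNReal.ofReal_natCast]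
    simp
  rw [e3]
  exact ENNReal.ofReal_le_ofReal key

lemma tail_limit (d : ℕ) : Tendsto (fun r : ℕ =>
    ENNReal.log (iidLaw d (nud d) {y | (r : ℕ∞) < codingRadius (Fd d) y}) / (r : EReal))
    atTop (nhds ⊥) := by
  rw [EReal.tendsto_nhds_bot_iff_real]
  intro x
  filter_upwards [factorial_beats d (-(x - 1)), eventually_gt_atTop 0] with r hr hpos
  have h1 := (tail_bound d r).trans hr
  have h2 := ENNReal.log_le_log h1
  rw [ENNReal.log_ofReal_of_pos (Real.exp_pos _), Real.log_exp] at h2
  have hr0 : (0 : EReal) < (r : EReal) := by exact_mod_cast hpos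
  have hrt : (r : EReal) ≠ ⊤ := EReal.natCast_ne_top r
  refine lt_of_le_of_lt ((EReal.div_le_iff_le_mul (c := ((x - 1 : ℝ) : EReal)) hr0 hrt).mpr ?_) ?_
  · refine h2.trans (le_of_eq ?_)
    have : (r : EReal) = ((r : ℝ) : EReal) := rfl
    rw [this, ← EReal.coe_mul]
    congr 1
    ring
  · exact_mod_cast sub_one_lt x

end Pool.Agent.Helper99.FfiidColouring
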