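import Mathlib

set_option autoImplicit false

namespace Pool.Agent.Helper99.QT

open QuadraticMap

section basic
variable {K V : Type*} [Field K] [AddCommGroup V] [Module K V] (Q : QuadraticForm K V)

lemma two0 (K : Type*) [Field K] [CharP K 2] : (2 : K) = 0 := by
  exact_mod_cast CharP.cast_eq_zero K 2

lemma polar_xx [CharP K 2] (x : V) : polar Q x x = 0 := by
  rw [QuadraticMap.polar_self]
  simp [two0 K]

lemma Q_add (x y : V) : Q (x + y) = Q x + Q y + polar Q x y := by
  simp [polar]

lemma Q_smul (c : K) (x : V) : Q (c • x) = c * c * Q x := by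
  rw [QuadraticMap.map_smul]; simp

lemma p_add_left (x y z : V) : polar Q (x + y) z = polar Q x z + polar Q y z :=
  polar_add_left Q x y z
lemma p_add_right (x y z : V) : polar Q x (y + z) = polar Q x y + polar Q x z :=
  polar_add_right Q x y z
lemma p_smul_left (c : K) (x y : V) : polar Q (c • x) y = c * polar Q x y := by
  rw [polar_smul_left]; simp
lemma p_smul_right (c : K) (x y : V) : polar Q x (c • y) = c * polar Q x y := by
  rw [polar_smul_right]; simp
lemma p_comm (x y : V) : polar Q x y = polar Q y x := polar_comm Q x y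
lemma p_zero_left (x : V) : polar Q 0 x = 0 := by simp [polar]
lemma p_zero_right (x : V) : polar Q x 0 = 0 := by simp [polar]

/-- squares -/
lemma exists_sq [Fintype K] [CharP K 2] (t : K) : ∃ r : K, r * r = t := by
  obtain ⟨r, hr⟩ := (isSquare_iff_exists_sq t).mp
    (FiniteField.isSquare_of_char_two (ringChar.eq_iff.mpr inferInstance) t)
  exact ⟨r, by rw [hr, _root_.sq]⟩

lemma exists_orth_not_mem [FiniteDimensional K V] {k : ℕ} (v : Fin k → V) (S : Submodule K V)
    (h : Module.finrank K S + k < Module.finrank K V) :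
    ∃ y : V, y ∉ S ∧ ∀ i, polar Q y (v i) = 0 := by
  let L : V →ₗ[K] (Fin k → K) := LinearMap.pi (fun i => (polarBilin Q).flip (v i))
  have h1 := LinearMap.finrank_range_add_finrank_ker L
  have h2 : Module.finrank K (LinearMap.range L) ≤ k := by
    simpa using Submodule.finrank_le (LinearMap.range L)
  have h3 : ¬ LinearMap.ker L ≤ S := by
    intro h4
    have := Submodule.finrank_mono h4
    omega
  obtain ⟨y, hy, hyS⟩ := Set.not_subset.mp h3
  refine ⟨y, hyS, fun i => ?_⟩
  have : L y = 0 := hy
  exact congrFun this i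

lemma exists_sol [FiniteDimensional K V] (hnd : ∀ x, (∀ y, polar Q x y = 0) → x = 0)
    {k : ℕ} (v : Fin k → V) (hv : LinearIndependent K v) (t : Fin k → K) :
    ∃ x : V, ∀ i, polar Q x (v i) = t i := by
  let g : Submodule.span K (Set.range v) →ₗ[K] K :=
    (Finsupp.linearCombination K t).comp hv.repr
  obtain ⟨f, hf⟩ := LinearMap.exists_extend g
  have hinj : Function.Injective (polarBilin Q : V →ₗ[K] V →ₗ[K] K) := by
    rw [injective_iff_map_eq_zero]
    intro x hx
    apply hnd
    intro y
    have := LinearMap.congr_fun hx y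
    simpa using this
  have hsurj : Function.Surjective (polarBilin Q : V →ₗ[K] Module.Dual K V) := by
    have h1 : Module.finrank K V = Module.finrank K (Module.Dual K V) :=
      (Subspace.dual_finrank_eq).symm
    exact (LinearMap.injective_iff_surjective_of_finrank_eq_finrank h1).mp hinj
  obtain ⟨x, hx⟩ := hsurj f
  refine ⟨x, fun i => ?_⟩
  have h1 : polar Q x (v i) = f (v i) := by
    rw [← hx]; rfl
  rw [h1]
  have h2 : f (v i) = g ⟨v i, Submodule.subset_span ⟨i, rfl⟩⟩ := by
    rw [← hf]; rfl
  rw [h2]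
  change Finsupp.linearCombination K t (hv.repr ⟨v i, _⟩) = t i
  rw [hv.repr_eq_single i _ rfl]
  simp

lemma mem_span_of_orth [FiniteDimensional K V] (hnd : ∀ x, (∀ y, polar Q x y = 0) → x = 0)
    {k : ℕ} (v : Fin k → V) (x : V)
    (h : ∀ y, (∀ i, polar Q y (v i) = 0) → polar Q y x = 0) :
    ∃ c : Fin k → K, x = ∑ i, c i • v i := by
  let L : Fin k → V →ₗ[K] K := fun i => polarBilin Q (v i)
  have h1 : polarBilin Q x ∈ Submodule.span K (Set.range L) := by
    apply mem_span_of_iInf_ker_le_ker
    intro y hy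
    rw [Submodule.mem_iInf] at hy
    have := h y (fun i => by
      have := hy i
      rw [p_comm]; exact this)
    rw [LinearMap.mem_ker]
    change polar Q x y = 0
    rw [p_comm]; exact this
  rw [Submodule.mem_span_range_iff_exists_fun] at h1
  obtain ⟨c, hc⟩ := h1
  refine ⟨c, ?_⟩
  rw [← sub_eq_zero]
  apply hnd
  intro y
  have h2 := LinearMap.congr_fun hc y
  have h3 : polarBilin Q (x - ∑ i, c i • v i) y = 0 := by
    rw [map_sub, LinearMap.sub_apply, ← h2, map_sum]
    simp [L]
  exact h3

/-- `SOLVE`: on a coset of a subspace containing a hyperbolic pair the quadratic form takes all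
values -/
lemma solve [Fintype K] [CharP K 2] {e f : V} (hef : polar Q e f ≠ 0) (w0 : V) (t : K) :
    ∃ α β : K, Q (w0 + (α • e + β • f)) = t := by
  -- normalise
  obtain ⟨f', hf', hf'e⟩ : ∃ f', (∃ c : K, f' = c • f) ∧ polar Q e f' = 1 := by
    refine ⟨(polar Q e f)⁻¹ • f, ⟨_, rfl⟩, ?_⟩
    rw [p_smul_right, inv_mul_cancel₀ hef]
  obtain ⟨c, hc⟩ := hf'
  suffices h : ∃ α β : K, Q (w0 + (α • e + β • f')) = t by
    obtain ⟨α, β, h⟩ := h
    refine ⟨α, β * c, ?_⟩
    rwa [mul_smul, ← hc]
  clear hc
  -- a nonsingular vector `s` in the plane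
  obtain ⟨p, q, hs⟩ : ∃ p q : K, Q (p • e + q • f') ≠ 0 := by
    by_cases h1 : Q e = 0
    · by_cases h2 : Q f' = 0
      · refine ⟨1, 1, ?_⟩
        rw [one_smul, one_smul, Q_add, h1, h2, hf'e]; simp
      · exact ⟨0, 1, by simpa using h2⟩
    · exact ⟨1, 0, by simpa using h1⟩
  set s := p • e + q • f' with hsdef
  set z := polar Q w0 f' • e + polar Q w0 e • f' with hz
  have h2 := two0 K
  obtain ⟨r, hr⟩ := exists_sq ((t - Q (w0 + z)) / Q s)
  have hzs : polar Q (w0 + z) s = 0 := by
    rw [hz, hsdef]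
    simp only [p_add_left, p_add_right, p_smul_left, p_smul_right, polar_xx, hf'e,
      p_comm Q f' e]
    linear_combination (p * polar Q w0 e + q * polar Q w0 f') * h2
  refine ⟨polar Q w0 f' + r * p, polar Q w0 e + r * q, ?_⟩
  have e1 : w0 + ((polar Q w0 f' + r * p) • e + (polar Q w0 e + r * q) • f') =
      (w0 + z) + r • s := by
    rw [hz, hsdef]; module
  rw [e1, Q_add, Q_smul, p_smul_right, hzs, hr]
  field_simp
  ring

end basic

end Pool.Agent.Helper99.QT
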