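import Mathlib

set_option autoImplicit false

namespace Pool.Agent.Helper99.Th

open MulAction Pointwise

section Perm

variable {N : Type*} [Group N] {I : Type*} [MulAction N I]

/-- Key injection: `H` normal in `N`, transitive on the `H'`-orbits. If `g` moves some orbit class
then at least half of the points lie in moved classes. -/
theorem moved_half_aux [Finite I] [Nonempty I] (H : Subgroup N) [H.Normal] (H' : Subgroup N) [H'.Normal]
    (hcomm : ∀ x ∈ H, ∀ y ∈ H, x * y * x⁻¹ * y⁻¹ ∈ H')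
    (htr : ∀ i j : I, ∃ h ∈ H, h • i = j) (g : N) (i₁ : I)
    (hmove : ∀ h ∈ H', h • i₁ ≠ g • i₁) :
    Nat.card I ≤ 2 * Nat.card {i : I // g • i ≠ i} := by
  classical
  have := Fintype.ofFinite I
  -- class-fixed predicate
  let F : I → Prop := fun i => ∃ h ∈ H', h • i = g • i
  have hF1 : ¬ F i₁ := fun ⟨h, hh, e⟩ => hmove h hh e
  by_cases hne : ∃ i₀, F i₀
  · obtain ⟨i₀, h0, hh0, e0⟩ := hne
    obtain ⟨h₁, hh₁, e₁⟩ := htr i₀ i₁
    -- injection F → not F
    have key : ∀ i, F i → ¬ F (h₁ • i) := by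
      rintro i ⟨a, ha, ea⟩ ⟨b, hb, eb⟩
      obtain ⟨h, hh, e⟩ := htr i₀ i
      apply hF1
      -- i = h i₀ ; i₁ = h₁ i₀
      -- g h₁ h i₀ = b h₁ h i₀ ; want g h₁ i₀ = c h₁ i₀ with c ∈ H'
      -- work modulo H' : use normality
      -- g i₁ = g h₁ h⁻¹ i
      have e' : i₀ = h⁻¹ • i := by rw [← e, inv_smul_smul]
      -- define conj by g
      set k : N := g * h⁻¹ * g⁻¹ with hk
      have hkH : k ∈ H := by
        have := Subgroup.Normal.conj_mem ‹H.Normal› h⁻¹ (H.inv_mem hh) g
        simpa [hk] using this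
      set k₁ : N := g * h₁ * g⁻¹ with hk₁
      have hk₁H : k₁ ∈ H := Subgroup.Normal.conj_mem ‹H.Normal› h₁ hh₁ g
      -- g i₁ = g h₁ h⁻¹ i = k₁ k g i = k₁ k a i
      have s1 : g • i₁ = k₁ • k • a • i := by
        rw [ea, ← e₁, e', hk, hk₁]
        simp only [smul_smul]
        congr 1
        group
      -- g h₁ i = k₁ g i = k₁ a i, and = b h₁ i
      have s2 : k₁ • a • i = b • h₁ • i := by
        rw [eb, ea, hk₁]
        simp only [smul_smul]
        congr 1
        group
      -- g i₀ = k g i = k a i and = h0 i₀ = h0 h⁻¹ i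
      have s3 : k • a • i = h0 • h⁻¹ • i := by
        rw [← e', e0, ea, hk, e']
        simp only [smul_smul]
        congr 1
        group
      -- so g i₁ = k₁ h0 h⁻¹ i
      rw [s3] at s1
      -- k₁ h0 h⁻¹ = c1 h⁻¹ k₁ ; with c1 ∈ H'
      -- k₁ • i : from s2, k₁ i ~ h₁ i mod H'
      have s4 : ∃ c ∈ H', k₁ • i = c • h₁ • i := by
        refine ⟨(k₁ * a * k₁⁻¹)⁻¹ * b, H'.mul_mem (H'.inv_mem ?_) hb, ?_⟩
        · exact Subgroup.Normal.conj_mem ‹H'.Normal› a ha k₁
        · have : ((k₁ * a * k₁⁻¹)⁻¹ * b) • h₁ • i = (k₁ * a * k₁⁻¹)⁻¹ • b • h₁ • i := by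
            rw [smul_smul (k₁ * a * k₁⁻¹)⁻¹ b]
          rw [this, ← s2]
          simp only [smul_smul]
          congr 1
          group
      obtain ⟨c, hc, ec⟩ := s4
      refine ⟨?_, ?_, ?_⟩
      rotate_left
      rotate_left
      · -- find expression
        rw [s1]
        have : k₁ • h0 • h⁻¹ • i =
            ((k₁ * h0 * k₁⁻¹) * (k₁ * h⁻¹ * k₁⁻¹ * (h⁻¹)⁻¹) * (h⁻¹ * c * (h⁻¹)⁻¹) *
              (h⁻¹ * h₁ * (h⁻¹)⁻¹ * h₁⁻¹)) • i₁ := by
          have e2 : i₁ = h₁ • h⁻¹ • i := by rw [← e', e₁]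
          rw [e2]
          have e3 : h⁻¹ • k₁ • i = h⁻¹ • c • h₁ • i := by rw [ec]
          calc k₁ • h0 • h⁻¹ • i
              = ((k₁ * h0 * k₁⁻¹) * (k₁ * h⁻¹ * k₁⁻¹ * (h⁻¹)⁻¹)) • h⁻¹ • k₁ • i := by
                simp only [smul_smul]; congr 1; group
            _ = ((k₁ * h0 * k₁⁻¹) * (k₁ * h⁻¹ * k₁⁻¹ * (h⁻¹)⁻¹)) • h⁻¹ • c • h₁ • i := by
                rw [e3]
            _ = _ := by
                simp only [smul_smul]; congr 1; group
        exact this.symm
      · apply H'.mul_mem (H'.mul_mem (H'.mul_mem _ _) _) _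
        · exact Subgroup.Normal.conj_mem ‹H'.Normal› h0 hh0 k₁
        · exact hcomm k₁ hk₁H h⁻¹ (H.inv_mem hh)
        · exact Subgroup.Normal.conj_mem ‹H'.Normal› c hc h⁻¹
        · exact hcomm h⁻¹ (H.inv_mem hh) h₁ hh₁
    -- counting
    have hle : Nat.card {i : I // F i} ≤ Nat.card {i : I // ¬ F i} := by
      refine Nat.card_le_card_of_injective (fun i => ⟨h₁ • i.1, key i.1 i.2⟩) ?_
      intro i j hij
      have := congrArg Subtype.val hij
      exact Subtype.ext (MulAction.injective h₁ this)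
    have hle2 : Nat.card {i : I // ¬ F i} ≤ Nat.card {i : I // g • i ≠ i} := by
      refine Nat.card_le_card_of_injective (fun i => ⟨i.1, fun h => i.2 ⟨1, H'.one_mem, by rw [one_smul, h]⟩⟩) ?_
      intro i j hij
      exact Subtype.ext (Subtype.mk.inj hij)
    have hsum : Nat.card I = Nat.card {i : I // F i} + Nat.card {i : I // ¬ F i} := by
      rw [← Nat.card_sum]
      exact Nat.card_congr (Equiv.sumCompl F).symm
    omega
  · push Not at hne
    have hle2 : Nat.card I ≤ Nat.card {i : I // g • i ≠ i} := by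
      refine Nat.card_le_card_of_injective (fun i => ⟨i, fun h => hne i ⟨1, H'.one_mem, by rw [one_smul, h]⟩⟩) ?_
      intro i j hij
      exact Subtype.mk.inj hij
    omega

/-- A solvable transitive group generated by a set contains a generator moving at least half of the points. -/
theorem exists_mover [Finite I] [Group.IsSolvable N] [MulAction.IsPretransitive N I] [Nontrivial I]
    (G : Set N) (hG : Subgroup.closure G = ⊤) :
    ∃ g ∈ G, Nat.card I ≤ 2 * Nat.card {i : I // g • i ≠ i} := by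
  classical
  -- transitive predicate
  let tr : Subgroup N → Prop := fun H => ∀ i j : I, ∃ h ∈ H, h • i = j
  have h0 : tr (derivedSeries N 0) := by
    intro i j
    obtain ⟨n, hn⟩ := MulAction.exists_smul_eq N i j
    exact ⟨n, by simp, hn⟩
  obtain ⟨n, hn⟩ := (Group.isSolvable_def N).1 inferInstance
  have hn' : ¬ tr (derivedSeries N n) := by
    rw [hn]
    intro h
    obtain ⟨i, j, hij⟩ := exists_pair_ne I
    obtain ⟨x, hx, e⟩ := h i j
    rw [Subgroup.mem_bot] at hx
    rw [hx, one_smul] at e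
    exact hij e
  -- least k with not tr
  have hex : ∃ k, ¬ tr (derivedSeries N k) := ⟨n, hn'⟩
  set k := Nat.find hex with hk
  have hk1 : ¬ tr (derivedSeries N k) := Nat.find_spec hex
  have hk0 : k ≠ 0 := by
    intro h
    rw [h] at hk1
    exact hk1 h0
  obtain ⟨m, hm⟩ := Nat.exists_eq_succ_of_ne_zero hk0
  have hm1 : tr (derivedSeries N m) := by
    by_contra hcon
    have := Nat.find_min' hex hcon
    omega
  rw [hm] at hk1
  -- there is a generator moving a class
  have hgen : ∃ g ∈ G, ∃ i₁ : I, ∀ h ∈ derivedSeries N (m+1), h • i₁ ≠ g • i₁ := by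
    by_contra hcon
    push Not at hcon
    apply hk1
    -- all of N preserves classes
    have hall : ∀ g : N, ∀ i : I, ∃ h ∈ derivedSeries N (m+1), h • i = g • i := by
      intro g
      have hg : g ∈ Subgroup.closure G := by rw [hG]; trivial
      induction hg using Subgroup.closure_induction with
      | mem x hx => intro i; exact hcon x hx i
      | one => intro i; exact ⟨1, Subgroup.one_mem _, rfl⟩
      | mul x y _ _ hx hy =>
        intro i
        obtain ⟨a, ha, ea⟩ := hy i
        obtain ⟨b, hb, eb⟩ := hx (y • i)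
        refine ⟨b * a, Subgroup.mul_mem _ hb ha, ?_⟩
        rw [mul_smul, ea, eb, mul_smul]
      | inv x _ hx =>
        intro i
        obtain ⟨a, ha, ea⟩ := hx (x⁻¹ • i)
        refine ⟨a⁻¹, Subgroup.inv_mem _ ha, ?_⟩
        rw [smul_inv_smul] at ea
        rw [inv_smul_eq_iff, ea]
    intro i j
    obtain ⟨n, hn⟩ := MulAction.exists_smul_eq N i j
    obtain ⟨h, hh, e⟩ := hall n i
    exact ⟨h, hh, by rw [e, hn]⟩
  obtain ⟨g, hgG, i₁, hg⟩ := hgen
  refine ⟨g, hgG, ?_⟩
  have : (derivedSeries N m).Normal := derivedSeries_normal N m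
  have : (derivedSeries N (m+1)).Normal := derivedSeries_normal N (m+1)
  refine moved_half_aux (derivedSeries N m) (derivedSeries N (m+1)) ?_ hm1 g i₁ hg
  intro x hx y hy
  rw [derivedSeries_succ]
  exact Subgroup.commutator_mem_commutator hx hy

end Perm

end Pool.Agent.Helper99.Th
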