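import Mathlib
import Pool.Agent.Helper99.ThPerm

set_option autoImplicit false

namespace Pool.Agent.Helper99.Th

open MulAction Pointwise

section Imprim

variable {N : Type*} [Group N] {U : Type*} [AddCommGroup U] [DistribMulAction N U]

/-- the displacement set of `g`. -/
def disp (g : N) : Set U := Set.range fun u : U => g • u - u

theorem card_disp_inv (g : N) : Nat.card (disp g⁻¹ : Set U) = Nat.card (disp g : Set U) := by
  have e : (disp g⁻¹ : Set U) = (fun x : U => -(g⁻¹ • x)) '' (disp g : Set U) := by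
    ext x
    constructor
    · rintro ⟨u, rfl⟩
      refine ⟨g • u - u, ⟨u, rfl⟩, ?_⟩
      simp [smul_sub]
    · rintro ⟨_, ⟨u, rfl⟩, rfl⟩
      refine ⟨u, ?_⟩
      simp [smul_sub]
  rw [e]
  apply Nat.card_image_of_injective
  intro x y hxy
  have : g⁻¹ • x = g⁻¹ • y := neg_injective hxy
  exact smul_left_cancel _ this

variable [Finite U] {I : Type*} [Finite I] [MulAction N I]

theorem two_pow_le_disp [LinearOrder I] (X : I → AddSubgroup U)
    (hX : ∀ (n : N) (i : I) (u : U), u ∈ X i → n • u ∈ X (n • i))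
    (hind : iSupIndep X) (hne : ∀ i, X i ≠ ⊥) (g : N) :
    2 ^ (Nat.card {i : I // i < g • i}) ≤ Nat.card (disp g : Set U) := by
  classical
  have := Fintype.ofFinite I
  have hex : ∀ i, ∃ b : U, b ∈ X i ∧ b ≠ 0 := by
    intro i
    obtain ⟨a, ha⟩ := AddSubgroup.ne_bot_iff_exists_ne_zero.1 (hne i)
    exact ⟨(a : U), a.2, fun h => ha (Subtype.ext h)⟩
  choose x hx hx0 using hex
  have hcard : 2 ^ (Nat.card {i : I // i < g • i}) = Nat.card (Finset {i : I // i < g • i}) := by
    have := Fintype.ofFinite {i : I // i < g • i}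
    rw [Nat.card_eq_fintype_card, Nat.card_eq_fintype_card, Fintype.card_finset]
  rw [hcard]
  let F : Finset {i : I // i < g • i} → (disp g : Set U) := fun S =>
    ⟨g • (∑ i ∈ S, x i.1) - ∑ i ∈ S, x i.1, ⟨_, rfl⟩⟩
  refine Nat.card_le_card_of_injective F ?_
  intro S T hST
  have e0 : g • (∑ i ∈ S, x i.1) - ∑ i ∈ S, x i.1 = g • (∑ i ∈ T, x i.1) - ∑ i ∈ T, x i.1 :=
    congrArg Subtype.val hST
  by_contra hne'
  -- symmetric difference nonempty
  have hΔ : (symmDiff S T).Nonempty := by
    rw [Finset.nonempty_iff_ne_empty]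
    intro h
    exact hne' (symmDiff_eq_bot.1 h)
  -- signs
  let c : {i : I // i < g • i} → ℤ := fun i => (if i ∈ S then 1 else 0) - (if i ∈ T then 1 else 0)
  have hc : ∀ i, i ∉ symmDiff S T → c i = 0 := by
    intro i hi
    rw [Finset.mem_symmDiff] at hi
    by_cases h1 : i ∈ S <;> by_cases h2 : i ∈ T <;> simp_all [c]
  have hc' : ∀ i, i ∈ symmDiff S T → c i = 1 ∨ c i = -1 := by
    intro i hi
    rw [Finset.mem_symmDiff] at hi
    by_cases h1 : i ∈ S <;> by_cases h2 : i ∈ T <;> simp_all [c]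
  have hv : (∑ i ∈ S, x i.1) - (∑ i ∈ T, x i.1) = ∑ i ∈ symmDiff S T, c i • x i.1 := by
    have h1 : ∑ i ∈ symmDiff S T, c i • x i.1 = ∑ i, c i • x i.1 := by
      apply Finset.sum_subset (Finset.subset_univ _)
      intro i _ hi
      rw [hc i hi, zero_smul]
    rw [h1]
    simp only [c, sub_smul, Finset.sum_sub_distrib, ite_smul, one_smul, zero_smul]
    rw [Finset.sum_ite_mem, Finset.sum_ite_mem, Finset.univ_inter, Finset.univ_inter]
  have hfix : g • (∑ i ∈ symmDiff S T, c i • x i.1) = ∑ i ∈ symmDiff S T, c i • x i.1 := by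
    rw [← hv, smul_sub]
    have := e0
    rw [sub_eq_sub_iff_add_eq_add] at this
    rw [sub_eq_sub_iff_add_eq_add]
    rw [this]
    abel
  -- maximal element
  obtain ⟨m, hm, hmax⟩ := (symmDiff S T).exists_max_image id hΔ
  -- isolate g • x m
  have hmem : g • (c m • x m.1) ∈ ⨆ j ≠ g • m.1, X j := by
    have e1 : g • (c m • x m.1) = (∑ i ∈ symmDiff S T, c i • x i.1) -
        ∑ i ∈ (symmDiff S T).erase m, g • (c i • x i.1) := by
      rw [← hfix, Finset.smul_sum, ← Finset.add_sum_erase _ _ hm]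
      abel
    rw [e1]
    apply AddSubgroup.sub_mem
    · apply AddSubgroup.sum_mem
      intro i hi
      apply AddSubgroup.zsmul_mem
      have hne2 : i.1 ≠ g • m.1 := by
        intro h
        have h1 : i ≤ m := hmax i hi
        have h2 : m.1 < g • m.1 := m.2
        rw [← h] at h2
        exact absurd h2 (not_lt.2 h1)
      exact (le_iSup₂_of_le (f := fun (j : I) (_ : j ≠ g • m.1) => X j) i.1 hne2 le_rfl) (hx i.1)
    · apply AddSubgroup.sum_mem
      intro i hi
      have hi' := Finset.ne_of_mem_erase hi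
      have hne2 : g • i.1 ≠ g • m.1 := by
        intro h
        exact hi' (Subtype.ext (smul_left_cancel g h))
      apply (le_iSup₂_of_le (f := fun (j : I) (_ : j ≠ g • m.1) => X j) (g • i.1) hne2 le_rfl)
      apply hX
      exact AddSubgroup.zsmul_mem _ (hx i.1) _
  have hmem2 : g • (c m • x m.1) ∈ X (g • m.1) := hX _ _ _ (AddSubgroup.zsmul_mem _ (hx m.1) _)
  have hz : g • (c m • x m.1) = 0 := by
    have := (hind (g • m.1)).le_bot ⟨hmem2, hmem⟩
    simpa using this
  rw [smul_eq_zero_iff_eq] at hz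
  rcases hc' m hm with h | h
  · rw [h, one_smul] at hz; exact hx0 _ hz
  · rw [h, neg_smul, one_smul, neg_eq_zero] at hz; exact hx0 _ hz

theorem card_moved_le [LinearOrder I] (g : N) :
    Nat.card {i : I // g • i ≠ i} ≤
      Nat.card {i : I // i < g • i} + Nat.card {i : I // i < g⁻¹ • i} := by
  classical
  rw [← Nat.card_sum]
  let F : {i : I // g • i ≠ i} → {i : I // i < g • i} ⊕ {i : I // i < g⁻¹ • i} := fun i =>
    if h : i.1 < g • i.1 then Sum.inl ⟨i.1, h⟩ else
      Sum.inr ⟨g • i.1, by rw [inv_smul_smul]; exact lt_of_le_of_ne (not_lt.1 h) i.2⟩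
  refine Nat.card_le_card_of_injective F ?_
  intro i j hij
  simp only [F] at hij
  split_ifs at hij with h1 h2 h2
  · exact Subtype.ext (Subtype.mk.inj (Sum.inl.inj hij))
  · exact Subtype.ext (smul_left_cancel g (Subtype.mk.inj (Sum.inr.inj hij)))

theorem card_le_prod [Fintype I] (X : I → AddSubgroup U) (htop : ⨆ i, X i = ⊤) :
    Nat.card U ≤ ∏ i, Nat.card (X i) := by
  classical
  let φ : (∀ i, X i) →+ U :=
    { toFun := fun f => ∑ i, (f i : U)
      map_zero' := by simp
      map_add' := by intro a b; simp [Finset.sum_add_distrib] }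
  have hr : (⨆ i, X i) ≤ φ.range := by
    apply iSup_le
    intro i u hu
    refine ⟨Pi.single i ⟨u, hu⟩, ?_⟩
    show ∑ j, ((Pi.single i (⟨u, hu⟩ : X i) : ∀ j, X j) j : U) = u
    rw [Finset.sum_eq_single i]
    · simp
    · intro j _ hj
      simp [Pi.single_eq_of_ne hj]
    · intro h; exact absurd (Finset.mem_univ i) h
  have hsurj : Function.Surjective φ := by
    intro u
    have : u ∈ φ.range := hr (by rw [htop]; trivial)
    exact this
  have := Nat.card_le_card_of_surjective φ hsurj
  rwa [Nat.card_pi] at this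

/-- Bound for imprimitive irreducible actions of solvable groups with small generators. -/
theorem imprim_bound [Group.IsSolvable N] [IsPretransitive N I] [Nontrivial I]
    (X : I → AddSubgroup U)
    (hX : ∀ (n : N) (i : I) (u : U), u ∈ X i → n • u ∈ X (n • i))
    (hind : iSupIndep X) (htop : ⨆ i, X i = ⊤) (hne : ∀ i, X i ≠ ⊥)
    (G : Set N) (hG : Subgroup.closure G = ⊤) (K : ℕ)
    (hK : ∀ g ∈ G, Nat.card (disp g : Set U) ≤ K) :
    Nat.card U ≤ K ^ (4 * Nat.log 2 K) := by
  classical
  have hfin := Fintype.ofFinite I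
  let ord : LinearOrder I := LinearOrder.lift' (Fintype.equivFin I) (Fintype.equivFin I).injective
  obtain ⟨g, hgG, hg⟩ := exists_mover (N := N) (I := I) G hG
  have hKg := hK g hgG
  have hdpos : 0 < Nat.card (disp g : Set U) := by
    have : Nonempty (disp g : Set U) := ⟨⟨g • 0 - 0, ⟨0, rfl⟩⟩⟩
    exact Nat.card_pos
  have hKpos : 0 < K := lt_of_lt_of_le hdpos hKg
  have h1 := two_pow_le_disp X hX hind hne g
  have h2 := two_pow_le_disp X hX hind hne g⁻¹
  rw [card_disp_inv] at h2
  have h3 := card_moved_le (I := I) g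
  have h1' : Nat.card {i : I // i < g • i} ≤ Nat.log 2 K :=
    Nat.le_log_of_pow_le (by norm_num) (h1.trans hKg)
  have h2' : Nat.card {i : I // i < g⁻¹ • i} ≤ Nat.log 2 K :=
    Nat.le_log_of_pow_le (by norm_num) (h2.trans hKg)
  have hI : Nat.card I ≤ 4 * Nat.log 2 K := by omega
  -- some moved point
  have hIpos : 0 < Nat.card I := Nat.card_pos
  have hmpos : 0 < Nat.card {i : I // g • i ≠ i} := by omega
  have hnon : Nonempty {i : I // g • i ≠ i} := (Nat.card_pos_iff.1 hmpos).1
  obtain ⟨i₀, hi₀⟩ := hnon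
  have hXi0 : Nat.card (X i₀) ≤ K := by
    refine le_trans (Nat.card_le_card_of_injective
      (fun u : X i₀ => (⟨g • (u : U) - u, ⟨(u : U), rfl⟩⟩ : (disp g : Set U))) ?_) hKg
    intro u v huv
    have e : g • (u : U) - u = g • (v : U) - v := Subtype.mk.inj huv
    have e2 : g • ((u : U) - v) = (u : U) - v := by
      rw [smul_sub]
      rw [sub_eq_sub_iff_add_eq_add] at e ⊢
      rw [e]; abel
    have m1 : (u : U) - v ∈ X i₀ := AddSubgroup.sub_mem _ u.2 v.2
    have m2 : (u : U) - v ∈ X (g • i₀) := by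
      have := hX g i₀ _ m1
      rwa [e2] at this
    have hd : Disjoint (X i₀) (X (g • i₀)) := hind.pairwiseDisjoint (fun h => hi₀ h.symm)
    have := hd.le_bot ⟨m1, m2⟩
    have h0 : (u : U) - v = 0 := by simpa using this
    exact Subtype.ext (sub_eq_zero.1 h0)
  have hXall : ∀ i, Nat.card (X i) ≤ K := by
    intro i
    obtain ⟨n, hn⟩ := MulAction.exists_smul_eq N i i₀
    refine le_trans (Nat.card_le_card_of_injective
      (fun u : X i => (⟨n • (u : U), by have := hX n i u u.2; rwa [hn] at this⟩ : X i₀)) ?_) hXi0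
    intro u v huv
    have e : n • (u : U) = n • (v : U) := Subtype.mk.inj huv
    exact Subtype.ext (smul_left_cancel n e)
  calc Nat.card U ≤ ∏ i, Nat.card (X i) := card_le_prod X htop
    _ ≤ ∏ _i : I, K := Finset.prod_le_prod' (fun i _ => hXall i)
    _ = K ^ Nat.card I := by rw [Finset.prod_const, Finset.card_univ, Nat.card_eq_fintype_card]
    _ ≤ K ^ (4 * Nat.log 2 K) := Nat.pow_le_pow_right hKpos hI

end Imprim

end Pool.Agent.Helper99.Th
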