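import Mathlib
import Pool.Agent.Helper99.ThImprim

set_option autoImplicit false

namespace Pool.Agent.Helper99.Th

open MulAction Pointwise

section Irr

variable {N : Type*} [Group N] {U : Type*} [AddCommGroup U] [DistribMulAction N U]

theorem disp_nonempty (g : N) : Nonempty (disp g : Set U) := ⟨⟨g • 0 - 0, ⟨0, rfl⟩⟩⟩

theorem card_disp_mul [Finite U] (x y : N) :
    Nat.card (disp (x * y) : Set U) ≤ Nat.card (disp x : Set U) * Nat.card (disp y : Set U) := by
  classical
  have h : ∀ z : (disp (x * y) : Set U), ∃ p : Prod (disp x : Set U) (disp y : Set U),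
      (z : U) = (p.1 : U) + x • (p.2 : U) := by
    rintro ⟨_, u, rfl⟩
    refine ⟨(⟨x • u - u, ⟨u, rfl⟩⟩, ⟨y • u - u, ⟨u, rfl⟩⟩), ?_⟩
    simp only [smul_sub, mul_smul]
    abel
  choose F hF using h
  rw [← Nat.card_prod]
  refine Nat.card_le_card_of_injective F ?_
  intro a b hab
  apply Subtype.ext
  rw [hF a, hF b, hab]

theorem card_disp_conj (v g : N) :
    Nat.card (disp (v * g * v⁻¹) : Set U) = Nat.card (disp g : Set U) := by
  have e : (disp (v * g * v⁻¹) : Set U) = (fun x : U => v • x) '' (disp g : Set U) := by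
    ext x
    constructor
    · rintro ⟨u, rfl⟩
      refine ⟨g • (v⁻¹ • u) - v⁻¹ • u, ⟨v⁻¹ • u, rfl⟩, ?_⟩
      simp [smul_sub, mul_smul]
    · rintro ⟨_, ⟨u, rfl⟩, rfl⟩
      refine ⟨v • u, ?_⟩
      simp [smul_sub, mul_smul]
  rw [e]
  exact Nat.card_image_of_injective (MulAction.injective v) _

theorem card_disp_comm [Finite U] (v g : N) :
    Nat.card (disp (v * g * v⁻¹ * g⁻¹) : Set U) ≤
      Nat.card (disp g : Set U) * Nat.card (disp g : Set U) := by
  refine (card_disp_mul (v * g * v⁻¹) g⁻¹).trans ?_
  rw [card_disp_conj, card_disp_inv]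

/-- `x` acts without nonzero fixed vectors. -/
def Fpf (x : N) (U : Type*) [AddCommGroup U] [DistribMulAction N U] : Prop :=
  ∀ u : U, x • u = u → u = 0

theorem card_disp_of_fpf [Finite U] {x : N} (hx : Fpf x U) :
    Nat.card (disp x : Set U) = Nat.card U := by
  have hinj : Function.Injective (fun u : U => x • u - u) := by
    intro a b hab
    have : x • (a - b) = a - b := by
      simp only at hab
      rw [smul_sub]
      rw [sub_eq_sub_iff_add_eq_add] at hab ⊢
      rw [hab]; abel
    exact sub_eq_zero.1 (hx _ this)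
  have hsurj : Function.Surjective (fun u : U => x • u - u) := Finite.surjective_of_injective hinj
  have : (disp x : Set U) = Set.univ := hsurj.range_eq
  rw [this, Nat.card_univ]

/-- fixed space of a subgroup. -/
def Fx (W : Subgroup N) : AddSubgroup U where
  carrier := {u | ∀ w ∈ W, w • u = u}
  zero_mem' := by intro w _; simp
  add_mem' := by intro a b ha hb w hw; rw [smul_add, ha w hw, hb w hw]
  neg_mem' := by intro a ha w hw; rw [smul_neg, ha w hw]

theorem mem_Fx {W : Subgroup N} {u : U} : u ∈ (Fx W : AddSubgroup U) ↔ ∀ w ∈ W, w • u = u := Iff.rfl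

/-- irreducibility of the action. -/
def Irred (N U : Type*) [Group N] [AddCommGroup U] [DistribMulAction N U] : Prop :=
  ∀ W : AddSubgroup U, (∀ (n : N) (u : U), u ∈ W → n • u ∈ W) → W = ⊥ ∨ W = ⊤

theorem Irred.exists_prime [Finite U] [Nontrivial U] (h : Irred N U) :
    ∃ r : ℕ, r.Prime ∧ ∀ u : U, r • u = 0 := by
  have h1 : 1 < Nat.card U := Finite.one_lt_card
  obtain ⟨r, hr, hd⟩ := Nat.exists_prime_and_dvd (by omega : Nat.card U ≠ 1)
  refine ⟨r, hr, ?_⟩
  have := Fact.mk hr
  obtain ⟨x, hx⟩ := exists_prime_addOrderOf_dvd_card' r hd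
  let W : AddSubgroup U := (nsmulAddMonoidHom r : U →+ U).ker
  have hW : W = ⊥ ∨ W = ⊤ := by
    apply h W
    intro n u hu
    have hu' : r • u = 0 := hu
    show r • (n • u) = 0
    rw [smul_comm, hu', smul_zero]
  rcases hW with hW | hW
  · exfalso
    have hxW : x ∈ W := by
      show r • x = 0
      rw [← hx]; exact addOrderOf_nsmul_eq_zero x
    rw [hW] at hxW
    have : x = 0 := by simpa using hxW
    rw [this, addOrderOf_zero] at hx
    exact hr.one_lt.ne hx
  · intro u
    have : u ∈ W := by rw [hW]; trivial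
    exact this

variable [Finite U]

/-- a normal `r`-subgroup acts trivially on a simple module of characteristic `r`. -/
theorem normal_rgroup_trivial [Nontrivial U] [FaithfulSMul N U] (h : Irred N U) {r : ℕ} (hr : r.Prime)
    (hU : ∀ u : U, r • u = 0) (P : Subgroup N) [P.Normal] (hP : IsPGroup r P) : P = ⊥ := by
  have := Fact.mk hr
  -- r divides card U
  have hUr : IsPGroup r (Multiplicative U) := by
    intro u
    refine ⟨1, ?_⟩
    rw [pow_one]
    exact hU (Multiplicative.toAdd u)
  obtain ⟨k, hk⟩ := (IsPGroup.iff_card.1 hUr)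
  have hcard : Nat.card U = r ^ k := hk
  have hd : r ∣ Nat.card U := by
    have h1 : 1 < Nat.card U := Finite.one_lt_card
    rw [hcard] at h1 ⊢
    have : k ≠ 0 := by rintro rfl; simp at h1
    exact dvd_pow_self r this
  obtain ⟨b, hb, hb0⟩ := hP.exists_fixed_point_of_prime_dvd_card_of_fixed_point U hd
    (a := (0 : U)) (by intro g; exact smul_zero _)
  have hF : (Fx P : AddSubgroup U) = ⊥ ∨ (Fx P : AddSubgroup U) = ⊤ := by
    apply h
    intro n u hu w hw
    have : n⁻¹ * w * n ∈ P := by
      have := Subgroup.Normal.conj_mem ‹P.Normal› w hw n⁻¹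
      simpa using this
    have h2 := hu _ this
    calc w • n • u = n • ((n⁻¹ * w * n) • u) := by simp only [smul_smul]; congr 1; group
      _ = n • u := by rw [h2]
  rcases hF with hF | hF
  · exfalso
    have : b ∈ (Fx P : AddSubgroup U) := by
      intro w hw
      exact hb ⟨w, hw⟩
    rw [hF] at this
    exact hb0 (by simpa using this.symm)
  · rw [eq_bot_iff]
    intro w hw
    rw [Subgroup.mem_bot]
    apply FaithfulSMul.eq_of_smul_eq_smul (α := U)
    intro u
    have : u ∈ (Fx P : AddSubgroup U) := by rw [hF]; trivial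
    rw [this w hw, one_smul]

/-- For an abelian normal subgroup `R`: either `U` is small, or all nontrivial elements of `R` are
fixed point free. -/
theorem abelian_normal_fpf [Finite N] [Group.IsSolvable N] [Nontrivial U] [FaithfulSMul N U] (h : Irred N U)
    (G : Set N) (hG : Subgroup.closure G = ⊤) (K : ℕ)
    (hK : ∀ g ∈ G, Nat.card (disp g : Set U) ≤ K)
    (R : Subgroup N) [R.Normal] (hR : ∀ x ∈ R, ∀ y ∈ R, x * y = y * x) :
    Nat.card U ≤ K ^ (4 * Nat.log 2 K) ∨ ∀ x ∈ R, x ≠ 1 → Fpf x U := by
  classical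
  obtain ⟨r, hr, hrU⟩ := h.exists_prime
  have := Fact.mk hr
  -- r does not divide card R
  have hcop : Nat.Coprime r (Nat.card R) := by
    rw [hr.coprime_iff_not_dvd]
    intro hd
    obtain ⟨x, hx⟩ := exists_prime_orderOf_dvd_card' r hd
    let P : Subgroup N :=
      { carrier := {y | y ∈ R ∧ y ^ r = 1}
        one_mem' := ⟨R.one_mem, one_pow _⟩
        mul_mem' := by
          rintro a b ⟨ha, ha'⟩ ⟨hb, hb'⟩
          refine ⟨R.mul_mem ha hb, ?_⟩
          rw [(show Commute a b from hR a ha b hb).mul_pow, ha', hb', one_mul]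
        inv_mem' := by
          rintro a ⟨ha, ha'⟩
          exact ⟨R.inv_mem ha, by rw [inv_pow, ha', inv_one]⟩ }
    have hPn : P.Normal := by
      constructor
      rintro y ⟨hy, hy'⟩ n
      refine ⟨Subgroup.Normal.conj_mem ‹R.Normal› y hy n, ?_⟩
      rw [conj_pow, hy']; simp
    have hPp : IsPGroup r P := by
      rintro ⟨y, hy, hy'⟩
      refine ⟨1, ?_⟩
      rw [pow_one]
      exact Subtype.ext hy'
    have hbot := normal_rgroup_trivial h hr hrU P hPp
    have hxP : (x : N) ∈ P := by
      refine ⟨x.2, ?_⟩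
      have := pow_orderOf_eq_one x
      rw [hx] at this
      exact congrArg Subtype.val this
    rw [hbot, Subgroup.mem_bot] at hxP
    have : x = 1 := Subtype.ext hxP
    rw [this, orderOf_one] at hx
    exact hr.one_lt.ne hx
  -- maximal subgroups with fixed vectors
  let good : Subgroup N → Prop := fun W => W ≤ R ∧ (Fx W : AddSubgroup U) ≠ ⊥
  let mx : Subgroup N → Prop := fun W => good W ∧ ∀ W', good W' → W ≤ W' → W' = W
  have hconj : ∀ (n : N) (W : Subgroup N) (u : U), u ∈ (Fx W : AddSubgroup U) →
      n • u ∈ (Fx (MulAut.conj n • W) : AddSubgroup U) := by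
    intro n W u hu w hw
    rw [Subgroup.mem_pointwise_smul_iff_inv_smul_mem] at hw
    have h2 := hu _ hw
    have e : ((MulAut.conj n)⁻¹ • w : N) = n⁻¹ * w * n := by
      rw [← map_inv]; simp [MulAut.smul_def]
    rw [e] at h2
    calc w • n • u = n • ((n⁻¹ * w * n) • u) := by simp only [smul_smul]; congr 1; group
      _ = n • u := by rw [h2]
  have hgoodconj : ∀ (n : N) (W : Subgroup N), good W → good (MulAut.conj n • W) := by
    rintro n W ⟨h1, h2⟩
    refine ⟨?_, ?_⟩
    · intro w hw
      rw [Subgroup.mem_pointwise_smul_iff_inv_smul_mem] at hw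
      have e : ((MulAut.conj n)⁻¹ • w : N) = n⁻¹ * w * n := by
        rw [← map_inv]; simp [MulAut.smul_def]
      rw [e] at hw
      have := Subgroup.Normal.conj_mem ‹R.Normal› _ (h1 hw) n
      have e2 : n * (n⁻¹ * w * n) * n⁻¹ = w := by group
      rwa [e2] at this
    · obtain ⟨u, hu⟩ := AddSubgroup.ne_bot_iff_exists_ne_zero.1 h2
      intro hb
      have := hconj n W u u.2
      rw [hb] at this
      have h0 : n • (u : U) = 0 := by simpa using this
      rw [smul_eq_zero_iff_eq] at h0
      exact hu (Subtype.ext h0)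
  have hmxconj : ∀ (n : N) (W : Subgroup N), mx W → mx (MulAut.conj n • W) := by
    rintro n W ⟨h1, h2⟩
    refine ⟨hgoodconj n W h1, ?_⟩
    intro W' hW' hle
    have h3 := hgoodconj n⁻¹ W' hW'
    have h4 : W ≤ MulAut.conj n⁻¹ • W' := by
      have := Subgroup.pointwise_smul_le_pointwise_smul_iff (a := MulAut.conj n⁻¹).2 hle
      rw [map_inv] at this ⊢
      rwa [inv_smul_smul] at this
    have h5 := h2 _ h3 h4
    rw [← h5, map_inv, smul_inv_smul]
  let I := {W : Subgroup N // mx W}
  let actI : MulAction N I :=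
    { smul := fun n W => ⟨MulAut.conj n • W.1, hmxconj n W.1 W.2⟩
      one_smul := by
        rintro ⟨W, hW⟩
        apply Subtype.ext
        show MulAut.conj (1 : N) • W = W
        rw [map_one, one_smul]
      mul_smul := by
        rintro a b ⟨W, hW⟩
        apply Subtype.ext
        show MulAut.conj (a * b) • W = MulAut.conj a • MulAut.conj b • W
        rw [map_mul, mul_smul] }
  have hsmul : ∀ (n : N) (W : I), (n • W).1 = MulAut.conj n • W.1 := fun n W => rfl
  let X : I → AddSubgroup U := fun W => Fx W.1
  have hXeq : ∀ (n : N) (i : I) (u : U), u ∈ X i → n • u ∈ X (n • i) := by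
    intro n i u hu
    exact hconj n i.1 u hu
  have hXne : ∀ i, X i ≠ ⊥ := fun i => i.2.1.2
  -- existence
  have hbotgood : good ⊥ := by
    refine ⟨bot_le, ?_⟩
    intro hb
    obtain ⟨u, hu⟩ := exists_ne (0 : U)
    have : u ∈ (Fx (⊥ : Subgroup N) : AddSubgroup U) := by
      intro w hw
      rw [Subgroup.mem_bot] at hw
      rw [hw, one_smul]
    rw [hb] at this
    exact hu (by simpa using this)
  obtain ⟨W₀, hW₀⟩ : ∃ W, mx W := by
    obtain ⟨W, hW⟩ := Set.Finite.exists_maximal (Set.toFinite {W : Subgroup N | good W}) ⟨⊥, hbotgood⟩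
    exact ⟨W, hW.1, fun W' h1 h2 => le_antisymm (hW.2 h1 h2) h2⟩
  -- independence
  have hind : iSupIndep X := by
    intro W₁
    rw [disjoint_iff_inf_le]
    rintro u ⟨hu1, hu2⟩
    -- trace operator
    have := Fintype.ofFinite W₁.1
    let T : U →+ U :=
      { toFun := fun u => ∑ x : W₁.1, (x : N) • u
        map_zero' := by simp
        map_add' := by intro a b; simp [Finset.sum_add_distrib] }
    have hT : ∀ u, T u = ∑ x : W₁.1, (x : N) • u := fun _ => rfl
    have hker : (⨆ j ≠ W₁, X j) ≤ T.ker := by
      refine iSup₂_le ?_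
      intro W hW v hv
      rw [AddMonoidHom.mem_ker]
      have hcomm : ∀ x ∈ W.1, ∀ y ∈ W₁.1, x * y = y * x := fun x hx y hy =>
        hR x (W.2.1.1 hx) y (W₁.2.1.1 hy)
      have hmem : T v ∈ (Fx (W.1 ⊔ W₁.1) : AddSubgroup U) := by
        have hfix1 : ∀ w ∈ W.1, w • T v = T v := by
          intro w hw
          rw [hT, Finset.smul_sum]
          apply Finset.sum_congr rfl
          intro x _
          rw [smul_smul, hcomm w hw x x.2, mul_smul, hv w hw]
        have hfix2 : ∀ w ∈ W₁.1, w • T v = T v := by
          intro w hw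
          rw [hT, Finset.smul_sum]
          have : ∀ x : W₁.1, w • (x : N) • v = ((⟨w, hw⟩ * x : W₁.1) : N) • v := by
            intro x; rw [smul_smul]; rfl
          simp only [this]
          exact Equiv.sum_comp (Equiv.mulLeft (⟨w, hw⟩ : W₁.1)) (fun x : W₁.1 => (x : N) • v)
        intro w hw
        have hw' : w ∈ Subgroup.closure ((W.1 : Set N) ∪ W₁.1) := by
          rwa [Subgroup.closure_union, Subgroup.closure_eq, Subgroup.closure_eq]
        induction hw' using Subgroup.closure_induction with
        | mem x hx =>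
          rcases hx with hx | hx
          · exact hfix1 x hx
          · exact hfix2 x hx
        | one => exact one_smul _ _
        | mul a b ha hb iha ihb =>
          have ha' : a ∈ W.1 ⊔ W₁.1 := by
            rwa [Subgroup.closure_union, Subgroup.closure_eq, Subgroup.closure_eq] at ha
          have hb' : b ∈ W.1 ⊔ W₁.1 := by
            rwa [Subgroup.closure_union, Subgroup.closure_eq, Subgroup.closure_eq] at hb
          rw [mul_smul, ihb hb', iha ha']
        | inv a ha iha =>
          have ha' : a ∈ W.1 ⊔ W₁.1 := by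
            rwa [Subgroup.closure_union, Subgroup.closure_eq, Subgroup.closure_eq] at ha
          rw [inv_smul_eq_iff, iha ha']
      by_contra hTv
      have hg : good (W.1 ⊔ W₁.1) := by
        refine ⟨sup_le W.2.1.1 W₁.2.1.1, ?_⟩
        intro hb
        rw [hb] at hmem
        exact hTv (by simpa using hmem)
      have e1 := W.2.2 _ hg le_sup_left
      have e2 := W₁.2.2 _ hg le_sup_right
      exact hW (Subtype.ext (e1.symm.trans e2))
    have hu2' : T u = 0 := hker hu2
    have hTu : T u = Nat.card W₁.1 • u := by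
      rw [hT, Finset.sum_congr rfl (fun (x : W₁.1) _ => hu1 (x : N) x.2), Finset.sum_const,
        Finset.card_univ, Nat.card_eq_fintype_card]
    rw [hTu] at hu2'
    have hcop2 : Nat.Coprime r (Nat.card W₁.1) :=
      Nat.Coprime.coprime_dvd_right (Subgroup.card_dvd_of_le W₁.2.1.1) hcop
    have h1 : (addOrderOf u) ∣ Nat.card W₁.1 := addOrderOf_dvd_of_nsmul_eq_zero hu2'
    have h2 : (addOrderOf u) ∣ r := addOrderOf_dvd_of_nsmul_eq_zero (hrU u)
    have h3 : addOrderOf u = 1 := Nat.dvd_one.1 (by
      have := Nat.dvd_gcd h2 h1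
      rwa [hcop2] at this)
    rw [AddMonoid.addOrderOf_eq_one_iff] at h3
    rw [h3]
    exact AddSubgroup.zero_mem _
  -- orbit sums are everything
  have horb : ∀ W : I, (⨆ n : N, X (n • W)) = ⊤ := by
    intro W
    rcases h (⨆ n : N, X (n • W)) (by
      intro n u hu
      have : (⨆ m : N, X (m • W)) ≤ (⨆ m : N, X (m • W)).comap (DistribSMul.toAddMonoidHom U n) := by
        apply iSup_le
        intro m v hv
        rw [AddSubgroup.mem_comap]
        have h1 := hXeq n (m • W) v hv
        rw [smul_smul] at h1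
        exact (le_iSup (fun k : N => X (k • W)) (n * m)) h1
      exact this hu) with hb | ht
    · exfalso
      apply hXne W
      rw [eq_bot_iff, ← hb]
      have := le_iSup (fun k : N => X (k • W)) 1
      rwa [one_smul] at this
    · exact ht
  have htrans : IsPretransitive N I := by
    constructor
    intro W₁ W₂
    by_contra hcon
    push Not at hcon
    have h1 : (⨆ n : N, X (n • W₁)) ≤ ⨆ j ≠ W₂, X j := by
      apply iSup_le
      intro n
      exact le_iSup₂_of_le (f := fun (j : I) (_ : j ≠ W₂) => X j) (n • W₁) (hcon n) le_rfl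
    rw [horb W₁] at h1
    have h2 := hind W₂
    have h3 : (⨆ j ≠ W₂, X j) = ⊤ := top_le_iff.1 h1
    rw [h3, disjoint_top] at h2
    exact hXne W₂ h2
  have htop : (⨆ i, X i) = ⊤ := by
    rw [eq_top_iff, ← horb ⟨W₀, hW₀⟩]
    apply iSup_le
    intro n
    exact le_iSup X _
  by_cases hnt : Nontrivial I
  · left
    exact imprim_bound X hXeq hind htop hXne G hG K hK
  · right
    rw [not_nontrivial_iff_subsingleton] at hnt
    -- the unique W is fixed
    have hfix : (Fx W₀ : AddSubgroup U) = ⊤ := by
      rw [eq_top_iff, ← horb ⟨W₀, hW₀⟩]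
      apply iSup_le
      intro n
      have : n • (⟨W₀, hW₀⟩ : I) = ⟨W₀, hW₀⟩ := Subsingleton.elim _ _
      rw [this]
    have hW₀bot : W₀ = ⊥ := by
      rw [eq_bot_iff]
      intro w hw
      rw [Subgroup.mem_bot]
      apply FaithfulSMul.eq_of_smul_eq_smul (α := U)
      intro u
      have : u ∈ (Fx W₀ : AddSubgroup U) := by rw [hfix]; trivial
      rw [this w hw, one_smul]
    intro x hx hx1 u hu
    by_contra hu0
    have hg : good (Subgroup.zpowers x) := by
      refine ⟨by rwa [Subgroup.zpowers_le], ?_⟩
      intro hb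
      have : u ∈ (Fx (Subgroup.zpowers x) : AddSubgroup U) := by
        intro w hw
        rw [Subgroup.mem_zpowers_iff] at hw
        obtain ⟨k, rfl⟩ := hw
        have hx' : x ∈ MulAction.stabilizer N u := hu
        exact (MulAction.stabilizer N u).zpow_mem hx' k
      rw [hb] at this
      exact hu0 (by simpa using this)
    have := hW₀.2 _ hg (by rw [hW₀bot]; exact bot_le)
    rw [hW₀bot, Subgroup.zpowers_eq_bot] at this
    exact hx1 this

/-- **Irreducible bound**. -/
theorem irred_bound [Finite N] [Group.IsSolvable N] [Nontrivial U] [Nontrivial N] [FaithfulSMul N U]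
    (h : Irred N U) (G : Set N) (hG : Subgroup.closure G = ⊤) (K : ℕ)
    (hK : ∀ g ∈ G, Nat.card (disp g : Set U) ≤ K) :
    Nat.card U ≤ K ^ (4 * Nat.log 2 K + 4) := by
  classical
  -- K ≥ 1
  have hGne : ∃ g ∈ G, g ≠ 1 := by
    by_contra hcon
    push Not at hcon
    have : Subgroup.closure G ≤ ⊥ := by
      rw [Subgroup.closure_le]
      intro g hg
      exact Subgroup.mem_bot.2 (hcon g hg)
    rw [hG] at this
    exact bot_ne_top (le_antisymm bot_le this)
  obtain ⟨g₀, hg₀, hg₀1⟩ := hGne
  have hKpos : 0 < K := by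
    have : Nonempty (disp g₀ : Set U) := disp_nonempty g₀
    exact lt_of_lt_of_le Nat.card_pos (hK g₀ hg₀)
  have hmono : ∀ {a b : ℕ}, a ≤ b → K ^ a ≤ K ^ b := fun hab => Nat.pow_le_pow_right hKpos hab
  by_cases hsmall : Nat.card U ≤ K ^ (4 * Nat.log 2 K)
  · exact hsmall.trans (hmono (by omega))
  have hP : ∀ (R : Subgroup N) [R.Normal], (∀ x ∈ R, ∀ y ∈ R, x * y = y * x) →
      ∀ x ∈ R, x ≠ 1 → Fpf x U := by
    intro R _ hR
    rcases abelian_normal_fpf h G hG K hK R hR with h1 | h1
    · exact absurd h1 hsmall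
    · exact h1
  have hsq : ∀ v : N, ∀ g ∈ G, Fpf (v * g * v⁻¹ * g⁻¹) U → Nat.card U ≤ K ^ (4 * Nat.log 2 K + 4) := by
    intro v g hg hf
    rw [← card_disp_of_fpf hf]
    refine (card_disp_comm v g).trans ((Nat.mul_le_mul (hK g hg) (hK g hg)).trans ?_)
    rw [← pow_two]
    exact hmono (by omega)
  by_contra hbig
  -- abelian normal subgroups are central
  have hcentral : ∀ (R : Subgroup N) [R.Normal], (∀ x ∈ R, ∀ y ∈ R, x * y = y * x) →
      R ≤ Subgroup.center N := by
    intro R hRn hR v hv
    rw [Subgroup.mem_center_iff]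
    have hgc : ∀ g ∈ G, g * v = v * g := by
      intro g hg
      by_contra hne
      apply hbig
      refine hsq v g hg (hP R hR _ ?_ ?_)
      · have : v * g * v⁻¹ * g⁻¹ = v * (g * v⁻¹ * g⁻¹) := by group
        rw [this]
        exact R.mul_mem hv (Subgroup.Normal.conj_mem hRn _ (R.inv_mem hv) g)
      · intro h1
        apply hne
        have : v * g = (v * g * v⁻¹ * g⁻¹) * (g * v) := by group
        rw [this, h1, one_mul]
    intro n
    have hn : n ∈ Subgroup.closure G := by rw [hG]; trivial
    have hcz : Subgroup.closure G ≤ Subgroup.centralizer {v} := by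
      rw [Subgroup.closure_le]
      intro g hg
      rw [SetLike.mem_coe, Subgroup.mem_centralizer_singleton_iff]
      exact hgc g hg
    have := hcz hn
    rwa [Subgroup.mem_centralizer_singleton_iff] at this
  have hcenter_fpf : ∀ z ∈ Subgroup.center N, z ≠ 1 → Fpf z U := by
    apply hP (Subgroup.center N)
    intro x _ y hy
    rw [Subgroup.mem_center_iff] at hy
    exact hy x
  -- last noncentral term of derived series
  obtain ⟨n, hn⟩ := (Group.isSolvable_def N).1 inferInstance
  have hex : ∃ k, derivedSeries N k ≤ Subgroup.center N := ⟨n, by rw [hn]; exact bot_le⟩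
  set k := Nat.find hex with hk
  have hk1 : derivedSeries N k ≤ Subgroup.center N := Nat.find_spec hex
  by_cases hk0 : k = 0
  · -- N abelian
    rw [hk0, derivedSeries_zero, top_le_iff] at hk1
    apply hbig
    have hf : Fpf g₀ U := hcenter_fpf g₀ (by rw [hk1]; trivial) hg₀1
    rw [← card_disp_of_fpf hf]
    refine (hK g₀ hg₀).trans ?_
    calc K = K ^ 1 := (pow_one K).symm
      _ ≤ _ := hmono (by omega)
  · obtain ⟨m, hm⟩ := Nat.exists_eq_succ_of_ne_zero hk0
    have hm1 : ¬ derivedSeries N m ≤ Subgroup.center N := by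
      intro hcon
      have := Nat.find_min' hex hcon
      omega
    rw [hm] at hk1
    set R := derivedSeries N m with hRdef
    have hRn : R.Normal := derivedSeries_normal N m
    have hRR : ∀ x ∈ R, ∀ y ∈ R, x * y * x⁻¹ * y⁻¹ ∈ Subgroup.center N := by
      intro x hx y hy
      apply hk1
      rw [derivedSeries_succ]
      exact Subgroup.commutator_mem_commutator hx hy
    -- find v, g not commuting
    have hvg : ∃ v ∈ R, ∃ g ∈ G, g * v ≠ v * g := by
      by_contra hcon
      push Not at hcon
      apply hm1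
      intro v hv
      rw [Subgroup.mem_center_iff]
      intro n
      have hn : n ∈ Subgroup.closure G := by rw [hG]; trivial
      have hcz : Subgroup.closure G ≤ Subgroup.centralizer {v} := by
        rw [Subgroup.closure_le]
        intro g hg
        rw [SetLike.mem_coe, Subgroup.mem_centralizer_singleton_iff]
        exact hcon v hv g hg
      have := hcz hn
      rwa [Subgroup.mem_centralizer_singleton_iff] at this
    obtain ⟨v, hv, g, hg, hvg⟩ := hvg
    set w := v * g * v⁻¹ * g⁻¹ with hw
    have hwR : w ∈ R := by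
      have : w = v * (g * v⁻¹ * g⁻¹) := by rw [hw]; group
      rw [this]
      exact R.mul_mem hv (Subgroup.Normal.conj_mem hRn _ (R.inv_mem hv) g)
    have hw1 : w ≠ 1 := by
      intro h1
      apply hvg
      have : v * g = w * (g * v) := by rw [hw]; group
      rw [this, h1, one_mul]
    by_cases hwc : w ∈ Subgroup.center N
    · exact hbig (hsq v g hg (hcenter_fpf w hwc hw1))
    · -- find u in R not commuting with w
      have hu : ∃ u ∈ R, w * u ≠ u * w := by
        by_contra hcon
        push Not at hcon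
        apply hwc
        -- center of R
        let ZR : Subgroup N := R ⊓ Subgroup.centralizer (R : Set N)
        have hZn : ZR.Normal := by
          constructor
          intro x hx n
          obtain ⟨hx1, hx2⟩ := Subgroup.mem_inf.1 hx
          refine Subgroup.mem_inf.2 ⟨Subgroup.Normal.conj_mem hRn x hx1 n, ?_⟩
          rw [Subgroup.mem_centralizer_iff] at hx2 ⊢
          intro y hy
          have hy' := hx2 (n⁻¹ * y * n) (by
            have := Subgroup.Normal.conj_mem hRn y hy n⁻¹
            simpa using this)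
          calc y * (n * x * n⁻¹) = n * ((n⁻¹ * y * n) * x) * n⁻¹ := by group
            _ = n * (x * (n⁻¹ * y * n)) * n⁻¹ := by rw [hy']
            _ = n * x * n⁻¹ * y := by group
        apply hcentral ZR
        · intro x hx y hy
          have hx2 := (Subgroup.mem_inf.1 hx).2
          have hy1 := (Subgroup.mem_inf.1 hy).1
          rw [Subgroup.mem_centralizer_iff] at hx2
          exact (hx2 y hy1).symm
        · refine Subgroup.mem_inf.2 ⟨hwR, ?_⟩
          rw [Subgroup.mem_centralizer_iff]
          intro y hy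
          exact (hcon y hy).symm
      obtain ⟨u, hu, hwu⟩ := hu
      set z := u * w * u⁻¹ * w⁻¹ with hz
      have hz1 : z ≠ 1 := by
        intro h1
        apply hwu
        have : u * w = z * (w * u) := by rw [hz]; group
        rw [this, h1, one_mul]
      have hzc : z ∈ Subgroup.center N := hRR u hu w hwR
      apply hbig
      rw [← card_disp_of_fpf (hcenter_fpf z hzc hz1)]
      refine (card_disp_comm u w).trans ?_
      have hw2 : Nat.card (disp w : Set U) ≤ K * K :=
        (card_disp_comm v g).trans (Nat.mul_le_mul (hK g hg) (hK g hg))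
      refine (Nat.mul_le_mul hw2 hw2).trans ?_
      have : K * K * (K * K) = K ^ 4 := by ring
      rw [this]
      exact hmono (by omega)

end Irr

end Pool.Agent.Helper99.Th
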