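import Mathlib
import Pool.Agent.Helper9.Th.Defs
import Pool.Agent.Helper9.Th.Basic
import Pool.Agent.Helper9.Th.Basic2
import Pool.Agent.Helper99.ThIrr

set_option autoImplicit false

namespace Pool.Agent.Helper99.Th

open Pool.Agent.Th

section Simple

variable {U : Type} [CommGroup U]

/-- action of a group of automorphisms on the additive version of the group. -/
@[reducible] def autAct (N : Subgroup (MulAut U)) : DistribMulAction N (Additive U) where
  smul n u := Additive.ofMul ((n : MulAut U) u.toMul)
  one_smul u := rfl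
  mul_smul a b u := rfl
  smul_zero n := by
    show Additive.ofMul ((n : MulAut U) 1) = 0
    rw [map_one]; rfl
  smul_add n a b := by
    show Additive.ofMul ((n : MulAut U) (a.toMul * b.toMul)) = _
    rw [map_mul]; rfl

/-- the constant for simple sections -/
def g0 (c : ℕ) : ℕ := (c ^ (4 * Nat.log 2 c + 4)) ^ (c ^ (4 * Nat.log 2 c + 4))

theorem simple_section {K : Type} [Group K] [Finite K] [Group.IsSolvable K] [Finite U] [Nontrivial U]
    (ψ : K →* MulAut U)
    (hirr : ∀ W : Subgroup U, (∀ (k : K) (u : U), u ∈ W → ψ k u ∈ W) → W = ⊥ ∨ W = ⊤)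
    (S : Set K) (hS : Subgroup.closure S = ⊤) (c : ℕ)
    (hc : ∀ s ∈ S, Nat.card (Set.range fun u : U => ψ s u * u⁻¹) ≤ c) :
    ∀ x ∈ res (g0 c) (⊤ : Subgroup K), ψ x = 1 := by
  classical
  by_cases htriv : ∀ x : K, ψ x = 1
  · intro x _; exact htriv x
  push Not at htriv
  obtain ⟨x₀, hx₀⟩ := htriv
  let N : Subgroup (MulAut U) := ψ.range
  have hNnt : Nontrivial N := ⟨⟨⟨ψ x₀, ⟨x₀, rfl⟩⟩, 1, fun h => hx₀ (congrArg Subtype.val h)⟩⟩
  let inst : DistribMulAction N (Additive U) := autAct N
  have hsm : ∀ (n : N) (u : Additive U), n • u = Additive.ofMul ((n : MulAut U) u.toMul) :=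
    fun _ _ => rfl
  have hfaith : FaithfulSMul N (Additive U) := by
    constructor
    intro a b hab
    apply Subtype.ext
    apply MulEquiv.ext
    intro u
    have := hab (Additive.ofMul u)
    rw [hsm, hsm] at this
    exact Additive.ofMul.injective this
  have hNsol : Group.IsSolvable N :=
    Group.isSolvable_of_surjective (f := ψ.rangeRestrict) ψ.rangeRestrict_surjective
  have hUnt : Nontrivial (Additive U) := inferInstance
  have hUfin : Finite (Additive U) := inferInstance
  have hI : Irred N (Additive U) := by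
    intro W hW
    let W' : Subgroup U := AddSubgroup.toSubgroup' W
    have hmem : ∀ u : U, u ∈ W' ↔ Additive.ofMul u ∈ W := fun u => Iff.rfl
    rcases hirr W' (by
      intro k u hu
      rw [hmem] at hu ⊢
      have := hW ⟨ψ k, ⟨k, rfl⟩⟩ _ hu
      exact this) with h | h
    · left
      rw [eq_bot_iff]
      intro u hu
      have : u.toMul ∈ W' := hu
      rw [h, Subgroup.mem_bot] at this
      rw [AddSubgroup.mem_bot]
      exact this
    · right
      rw [eq_top_iff]
      intro u _
      have : u.toMul ∈ W' := by rw [h]; trivial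
      exact this
  let G : Set N := {n | ∃ s ∈ S, (n : MulAut U) = ψ s}
  have hG : Subgroup.closure G = ⊤ := by
    have h1 : Subgroup.map ψ.rangeRestrict (Subgroup.closure S) = ⊤ := by
      rw [hS, ← MonoidHom.range_eq_map]
      exact MonoidHom.range_eq_top.2 ψ.rangeRestrict_surjective
    rw [eq_top_iff, ← h1, MonoidHom.map_closure]
    apply Subgroup.closure_mono
    rintro _ ⟨s, hs, rfl⟩
    exact ⟨s, hs, rfl⟩
  have hKG : ∀ g ∈ G, Nat.card (disp g : Set (Additive U)) ≤ c := by
    rintro g ⟨s, hs, hgs⟩
    refine le_trans (le_of_eq ?_) (hc s hs)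
    apply Nat.card_congr
    refine Equiv.subtypeEquiv Additive.toMul ?_
    intro x
    constructor
    · rintro ⟨u, rfl⟩
      refine ⟨u.toMul, ?_⟩
      show ψ s u.toMul * (u.toMul)⁻¹ = (g • u - u).toMul
      rw [hsm, hgs, sub_eq_add_neg]
      rfl
    · rintro ⟨u, hu⟩
      refine ⟨Additive.ofMul u, ?_⟩
      apply Additive.toMul.injective
      rw [← hu]
      show (g • Additive.ofMul u - Additive.ofMul u).toMul = ψ s u * u⁻¹
      rw [hsm, hgs, sub_eq_add_neg]
      rfl
  have hb : Nat.card (Additive U) ≤ c ^ (4 * Nat.log 2 c + 4) := irred_bound hI G hG c hKG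
  have hb' : Nat.card U ≤ c ^ (4 * Nat.log 2 c + 4) := hb
  have hUpos : 0 < Nat.card U := Nat.card_pos
  have hNcard : Nat.card N ≤ g0 c := by
    have h1 : Nat.card N ≤ Nat.card (U → U) := by
      refine Nat.card_le_card_of_injective (fun n : N => fun u => (n : MulAut U) u) ?_
      intro a b hab
      apply Subtype.ext
      apply MulEquiv.ext
      intro u
      exact congrFun hab u
    have h2 : Nat.card (U → U) = Nat.card U ^ Nat.card U := Nat.card_fun
    rw [h2] at h1
    refine h1.trans ?_
    calc Nat.card U ^ Nat.card U ≤ (c ^ (4 * Nat.log 2 c + 4)) ^ Nat.card U :=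
          Nat.pow_le_pow_left hb' _
      _ ≤ g0 c := Nat.pow_le_pow_right (lt_of_lt_of_le hUpos hb') hb'
  have hres : res (g0 c) (⊤ : Subgroup N) = ⊥ := by
    apply res_eq_bot_of_card_le
    rw [Subgroup.card_top]
    exact hNcard
  intro x hx
  have h1 : (res (g0 c) (⊤ : Subgroup K)).map ψ.rangeRestrict = res (g0 c) ⊤ :=
    res_top_map ψ.rangeRestrict ψ.rangeRestrict_surjective _
  rw [hres] at h1
  have h2 : ψ.rangeRestrict x ∈ (res (g0 c) (⊤ : Subgroup K)).map ψ.rangeRestrict :=
    Subgroup.mem_map_of_mem _ hx
  rw [h1, Subgroup.mem_bot] at h2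
  exact congrArg Subtype.val h2

end Simple

section Restrict

variable {K : Type} [Group K] {T : Type} [CommGroup T]

/-- restriction of an action to an invariant subgroup. -/
def restr (φ : K →* MulAut T) (U : Subgroup T) (hU : ∀ (k : K) (u : T), u ∈ U → φ k u ∈ U) :
    K →* MulAut U where
  toFun k :=
    { toFun := fun u => ⟨φ k u, hU k u u.2⟩
      invFun := fun u => ⟨φ k⁻¹ u, hU k⁻¹ u u.2⟩
      left_inv := by
        intro u
        apply Subtype.ext
        show φ k⁻¹ (φ k u) = u
        rw [← MulAut.mul_apply, ← map_mul, inv_mul_cancel, map_one, MulAut.one_apply]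
      right_inv := by
        intro u
        apply Subtype.ext
        show φ k (φ k⁻¹ u) = u
        rw [← MulAut.mul_apply, ← map_mul, mul_inv_cancel, map_one, MulAut.one_apply]
      map_mul' := by
        intro a b
        apply Subtype.ext
        show φ k (a * b) = φ k a * φ k b
        rw [map_mul] }
  map_one' := by
    apply MulEquiv.ext
    intro u
    apply Subtype.ext
    show φ 1 u = u
    rw [map_one, MulAut.one_apply]
  map_mul' := by
    intro a b
    apply MulEquiv.ext
    intro u
    apply Subtype.ext
    show φ (a * b) u = φ a (φ b u)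
    rw [map_mul, MulAut.mul_apply]

theorem restr_apply (φ : K →* MulAut T) (U : Subgroup T)
    (hU : ∀ (k : K) (u : T), u ∈ U → φ k u ∈ U) (k : K) (u : U) :
    ((restr φ U hU k u : U) : T) = φ k u := rfl

/-- action on the quotient by an invariant subgroup. -/
def quot (φ : K →* MulAut T) (U : Subgroup T) (hU : ∀ (k : K) (u : T), u ∈ U → φ k u ∈ U) :
    K →* MulAut (T ⧸ U) where
  toFun k :=
    { toFun := QuotientGroup.map U U (φ k).toMonoidHom (fun u hu => hU k u hu)
      invFun := QuotientGroup.map U U (φ k⁻¹).toMonoidHom (fun u hu => hU k⁻¹ u hu)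
      left_inv := by
        intro u
        induction u using QuotientGroup.induction_on with
        | H u =>
          show ((φ k⁻¹ (φ k u) : T) : T ⧸ U) = u
          rw [← MulAut.mul_apply, ← map_mul, inv_mul_cancel, map_one, MulAut.one_apply]
      right_inv := by
        intro u
        induction u using QuotientGroup.induction_on with
        | H u =>
          show ((φ k (φ k⁻¹ u) : T) : T ⧸ U) = u
          rw [← MulAut.mul_apply, ← map_mul, mul_inv_cancel, map_one, MulAut.one_apply]
      map_mul' := by
        intro a b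
        exact map_mul _ a b }
  map_one' := by
    apply MulEquiv.ext
    intro u
    induction u using QuotientGroup.induction_on with
    | H u =>
      show ((φ 1 u : T) : T ⧸ U) = u
      rw [map_one, MulAut.one_apply]
  map_mul' := by
    intro a b
    apply MulEquiv.ext
    intro u
    induction u using QuotientGroup.induction_on with
    | H u =>
      show ((φ (a * b) u : T) : T ⧸ U) = ((φ a (φ b u) : T) : T ⧸ U)
      rw [map_mul, MulAut.mul_apply]

theorem quot_apply (φ : K →* MulAut T) (U : Subgroup T)
    (hU : ∀ (k : K) (u : T), u ∈ U → φ k u ∈ U) (k : K) (u : T) :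
    quot φ U hU k (u : T ⧸ U) = ((φ k u : T) : T ⧸ U) := rfl

end Restrict

/-- the case of an `r`-group: elements of the residual act with order a power of `r`. -/
theorem rgroup_case {K : Type} [Group K] [Finite K] [Group.IsSolvable K] (r : ℕ) [Fact r.Prime] (c : ℕ)
    (S : Set K) (hS : Subgroup.closure S = ⊤) :
    ∀ (n : ℕ) (T : Type) [CommGroup T] [Finite T], Nat.card T ≤ n → IsPGroup r T →
      ∀ φ : K →* MulAut T, (∀ s ∈ S, Nat.card (Set.range fun t : T => φ s t * t⁻¹) ≤ c) →
      ∀ x ∈ res (g0 c) (⊤ : Subgroup K), ∃ m : ℕ, (φ x) ^ (r ^ m) = 1 := by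
  classical
  intro n
  induction n with
  | zero =>
    intro T _ _ hT
    have : 0 < Nat.card T := Nat.card_pos
    omega
  | succ n ih =>
    intro T _ _ hT hr φ hc x hx
    by_cases hnt : Nontrivial T
    · -- minimal invariant nontrivial subgroup
      let P : Subgroup T → Prop := fun U => U ≠ ⊥ ∧ ∀ (k : K) (u : T), u ∈ U → φ k u ∈ U
      have hPtop : P ⊤ := ⟨top_ne_bot, fun _ _ _ => trivial⟩
      obtain ⟨U, hU⟩ := Set.Finite.exists_minimal (Set.toFinite {U : Subgroup T | P U}) ⟨⊤, hPtop⟩
      have hU1 : U ≠ ⊥ := hU.1.1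
      have hU2 := hU.1.2
      have hUnt : Nontrivial U := (Subgroup.nontrivial_iff_ne_bot U).2 hU1
      -- trivial on U
      have hψ : ∀ x ∈ res (g0 c) (⊤ : Subgroup K), restr φ U hU2 x = 1 := by
        apply simple_section (restr φ U hU2) ?_ S hS c ?_
        · intro W hW
          let W' : Subgroup T := W.map U.subtype
          by_cases hWb : W = ⊥
          · left; exact hWb
          · right
            have hW'le : W' ≤ U := by
              rintro _ ⟨w, _, rfl⟩
              exact w.2
            have hPW : P W' := by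
              refine ⟨?_, ?_⟩
              · intro h
                apply hWb
                exact (Subgroup.map_eq_bot_iff_of_injective W U.subtype_injective).1 h
              · rintro k _ ⟨w, hw, rfl⟩
                exact ⟨restr φ U hU2 k w, hW k w hw, rfl⟩
            have hUW : U ≤ W' := hU.2 hPW hW'le
            rw [eq_top_iff]
            intro u _
            obtain ⟨w, hw, hwu⟩ := hUW u.2
            have : w = u := Subtype.ext hwu
            rwa [this] at hw
        · intro s hs
          refine le_trans ?_ (hc s hs)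
          refine Nat.card_le_card_of_injective
            (fun z : (Set.range fun u : U => restr φ U hU2 s u * u⁻¹) =>
              (⟨(z.1 : T), by
                obtain ⟨u, hu⟩ := z.2
                exact ⟨(u : T), congrArg Subtype.val hu⟩⟩ :
                (Set.range fun t : T => φ s t * t⁻¹))) ?_
          intro a b hab
          have h := Subtype.mk.inj hab
          exact Subtype.ext (Subtype.ext h)
      -- induction on T / U
      have hcardQ : Nat.card (T ⧸ U) ≤ n := by
        have h1 := Subgroup.card_eq_card_quotient_mul_card_subgroup U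
        have h2 : 1 < Nat.card U := Finite.one_lt_card
        have h3 : 0 < Nat.card (T ⧸ U) := Nat.card_pos
        have h4 : 2 * Nat.card (T ⧸ U) ≤ Nat.card T := by rw [h1]; nlinarith
        omega
      obtain ⟨m, hm⟩ := ih (T ⧸ U) hcardQ (hr.to_quotient U) (quot φ U hU2) (by
        intro s hs
        refine le_trans ?_ (hc s hs)
        have hsub : (Set.range fun t : T ⧸ U => quot φ U hU2 s t * t⁻¹) =
            (fun t : T => (t : T ⧸ U)) '' (Set.range fun t : T => φ s t * t⁻¹) := by
          ext z
          constructor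
          · rintro ⟨t, rfl⟩
            induction t using QuotientGroup.induction_on with
            | H t => exact ⟨_, ⟨t, rfl⟩, rfl⟩
          · rintro ⟨_, ⟨t, rfl⟩, rfl⟩
            exact ⟨(t : T ⧸ U), rfl⟩
        rw [hsub]
        exact Nat.card_image_le (Set.toFinite _)) x hx
      -- y = x^(r^m)
      set y : K := x ^ (r ^ m) with hy
      have hyQ : quot φ U hU2 y = 1 := by rw [hy, map_pow, hm]
      have hyU : restr φ U hU2 y = 1 := by rw [hy, map_pow, hψ x hx, one_pow]
      -- exponent of U
      obtain ⟨a, ha⟩ := IsPGroup.iff_card.1 (hr.to_subgroup U)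
      have hexp : ∀ u ∈ U, u ^ (r ^ a) = 1 := by
        intro u hu
        have : (⟨u, hu⟩ : U) ^ (Nat.card U) = 1 := pow_card_eq_one'
        rw [ha] at this
        exact congrArg Subtype.val this
      have hδ : ∀ t : T, ∃ d ∈ U, φ y t = d * t := by
        intro t
        have h1 : ((φ y t : T) : T ⧸ U) = t := by
          rw [← quot_apply φ U hU2, hyQ, MulAut.one_apply]
        rw [eq_comm, QuotientGroup.eq] at h1
        refine ⟨φ y t * t⁻¹, ?_, by group⟩
        rwa [mul_comm] at h1
      have hfixU : ∀ u ∈ U, φ y u = u := by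
        intro u hu
        have : restr φ U hU2 y ⟨u, hu⟩ = ⟨u, hu⟩ := by rw [hyU]; rfl
        exact congrArg Subtype.val this
      have hpow : ∀ t d : T, d ∈ U → φ y t = d * t → ∀ k : ℕ, ((φ y) ^ k) t = d ^ k * t := by
        intro t d hd hdt k
        induction k with
        | zero => simp
        | succ k ihk =>
          rw [pow_succ', MulAut.mul_apply, ihk, map_mul, hdt, hfixU _ (U.pow_mem hd k), pow_succ]
          rw [mul_assoc]
      refine ⟨m + a, ?_⟩
      have e1 : (φ x) ^ (r ^ (m + a)) = (φ y) ^ (r ^ a) := by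
        rw [hy, map_pow, ← pow_mul, pow_add]
      rw [e1]
      apply MulEquiv.ext
      intro t
      obtain ⟨d, hd, hdt⟩ := hδ t
      rw [hpow t d hd hdt, hexp d hd, one_mul, MulAut.one_apply]
    · rw [not_nontrivial_iff_subsingleton] at hnt
      refine ⟨0, ?_⟩
      apply MulEquiv.ext
      intro t
      exact Subsingleton.elim _ _

/-- every element fixed on all primary components is fixed. -/
theorem fixed_of_primary {T : Type} [CommGroup T] [Finite T] (F : Subgroup T)
    (h : ∀ r : ℕ, r.Prime → ∀ t : T, (∃ k : ℕ, t ^ (r ^ k) = 1) → t ∈ F) : F = ⊤ := by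
  classical
  by_contra hF
  have hQ : Nat.card (T ⧸ F) ≠ 1 := by
    intro h1
    apply hF
    rw [← Subgroup.index_eq_one]
    exact h1
  obtain ⟨r, hr, hd⟩ := Nat.exists_prime_and_dvd hQ
  have := Fact.mk hr
  obtain ⟨y, hy⟩ := exists_prime_orderOf_dvd_card' r hd
  obtain ⟨t, rfl⟩ := QuotientGroup.mk_surjective y
  have hyr : t ^ r ∈ F := by
    rw [← QuotientGroup.eq_one_iff, QuotientGroup.mk_pow, ← hy]
    exact pow_orderOf_eq_one _
  have htF : t ∉ F := by
    intro h1
    rw [← QuotientGroup.eq_one_iff] at h1
    rw [h1, orderOf_one] at hy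
    exact hr.one_lt.ne hy
  have hn : orderOf t ≠ 0 := (orderOf_pos t).ne'
  obtain ⟨a, m, hm, hom⟩ := Nat.exists_eq_pow_mul_and_not_dvd hn r hr.ne_one
  have htm : t ^ m ∈ F := by
    apply h r hr
    refine ⟨a, ?_⟩
    rw [← pow_mul, mul_comm, ← hom]
    exact pow_orderOf_eq_one t
  have hcop : Nat.Coprime r m := (hr.coprime_iff_not_dvd).2 hm
  apply htF
  have h1 : t = (t ^ r) ^ (Nat.gcdA r m) * (t ^ m) ^ (Nat.gcdB r m) := by
    have := Nat.gcd_eq_gcd_ab r m
    rw [hcop] at this
    rw [← zpow_natCast t r, ← zpow_natCast t m, ← zpow_mul, ← zpow_mul, ← zpow_add, ← this]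
    simp
  rw [h1]
  exact F.mul_mem (F.zpow_mem hyr _) (F.zpow_mem htm _)

theorem bc : BC := by
  classical
  intro c
  refine ⟨g0 c + 1, ?_⟩
  intro K _ _ _ T _ _ φ S hS hc x hx
  -- fixed subgroup
  let F : Subgroup T :=
    { carrier := {t | φ x t = t}
      one_mem' := map_one _
      mul_mem' := by
        intro a b ha hb
        show φ x (a * b) = a * b
        rw [map_mul]
        rw [show φ x a = a from ha, show φ x b = b from hb]
      inv_mem' := by
        intro a ha
        show φ x a⁻¹ = a⁻¹
        rw [map_inv, show φ x a = a from ha] }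
  have hF : F = ⊤ := by
    apply fixed_of_primary
    intro r hr t ht
    have := Fact.mk hr
    let U : Subgroup T := CommGroup.primaryComponent T r
    have htU : t ∈ U := ht
    have hU : ∀ (k : K) (u : T), u ∈ U → φ k u ∈ U := by
      rintro k u ⟨n, hn⟩
      refine ⟨n, ?_⟩
      rw [← map_pow, hn, map_one]
    have hUr : IsPGroup r U := by
      rintro ⟨u, n, hn⟩
      exact ⟨n, Subtype.ext hn⟩
    have hcase := rgroup_case r c S hS (Nat.card U) U le_rfl hUr (restr φ U hU) (by
      intro s hs
      refine le_trans ?_ (hc s hs)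
      refine Nat.card_le_card_of_injective
        (fun z : (Set.range fun u : U => restr φ U hU s u * u⁻¹) =>
          (⟨(z.1 : T), by
            obtain ⟨u, hu⟩ := z.2
            exact ⟨(u : T), congrArg Subtype.val hu⟩⟩ :
            (Set.range fun t : T => φ s t * t⁻¹))) ?_
      intro a b hab
      have h := Subtype.mk.inj hab
      exact Subtype.ext (Subtype.ext h))
    -- image M
    let M : Subgroup (MulAut U) := (res (g0 c) (⊤ : Subgroup K)).map (restr φ U hU)
    have hM : ∀ y ∈ M, ∃ m : ℕ, y ^ (r ^ m) = 1 := by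
      rintro _ ⟨k, hk, rfl⟩
      exact hcase k hk
    have hres1 : res 1 M = ⊥ := by
      by_cases h2 : r = 2
      · apply res_one_eq_bot_of_isPGroup
        rintro ⟨y, hy⟩
        obtain ⟨m, hm⟩ := hM y hy
        refine ⟨m, Subtype.ext ?_⟩
        rw [h2] at hm
        exact hm
      · have hEv : res 0 M = ⊥ := by
          rw [res_zero, eq_bot_iff, Ev_le_iff]
          intro y hy h2y
          rw [Subgroup.mem_bot]
          obtain ⟨m, hm⟩ := hM y hy
          apply eq_one_of_two_odd h2y
          have hodd : Odd (r ^ m) := (hr.odd_of_ne_two h2).pow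
          obtain ⟨j, hj⟩ := hodd
          exact ⟨j, by rw [← hj]; exact hm⟩
        exact le_bot_iff.1 (hEv ▸ res_antitone M (Nat.zero_le 1))
    have hxM : restr φ U hU x ∈ res 1 M := by
      have h1 : res (g0 c + 1) (⊤ : Subgroup K) = res 1 (res (g0 c) ⊤) := res_add _ _ _
      rw [h1] at hx
      have h2 : res 1 M = (res 1 (res (g0 c) (⊤ : Subgroup K))).map (restr φ U hU) :=
        res_map (restr φ U hU) 1 _
      rw [h2]
      exact Subgroup.mem_map_of_mem _ hx
    rw [hres1, Subgroup.mem_bot] at hxM
    have := restr_apply φ U hU x ⟨t, htU⟩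
    rw [hxM] at this
    exact this.symm
  apply MulEquiv.ext
  intro t
  have : t ∈ F := by rw [hF]; trivial
  exact this

end Pool.Agent.Helper99.Th
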