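import Mathlib
import Pool.Agent.Helper35.YG.CoverDefs
import Pool.Agent.Helper99.QTools

set_option autoImplicit false

namespace Pool.Agent.Helper99.YGOdd

open QuadraticMap Pool.Agent.Helper99.QT Pool.Agent.Helper35.YG

/-! ### walks -/
section walks
variable {V Ω : Type*} {X : Set V} {Adj : V → V → Prop} {E : Ω → Ω → Prop} {π : Ω → V}

/-- all lifts of the walk `v0 v1 v2 v3` have near end points -/
def P3 (E : Ω → Ω → Prop) (π : Ω → V) (v0 v1 v2 v3 : V) : Prop :=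
  ∀ ω0 ω1 ω2 ω3, π ω0 = v0 → π ω1 = v1 → π ω2 = v2 → π ω3 = v3 → E ω0 ω1 → E ω1 ω2 → E ω2 ω3 →
    Near E ω0 ω3

lemma near_symm (hs : ∀ a b, E a b → E b a) {a b : Ω} (h : Near E a b) : Near E b a := by
  rcases h with h | h | ⟨x, h1, h2⟩
  · exact Or.inl h.symm
  · exact Or.inr (Or.inl (hs _ _ h))
  · exact Or.inr (Or.inr ⟨x, hs _ _ h2, hs _ _ h1⟩)

lemma P3.rev (hc : Cover X Adj E π) {v0 v1 v2 v3 : V} (h : P3 E π v3 v2 v1 v0) :
    P3 E π v0 v1 v2 v3 := fun ω0 ω1 ω2 ω3 h0 h1 h2 h3 h01 h12 h23 =>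
  near_symm hc.symm (h ω3 ω2 ω1 ω0 h3 h2 h1 h0 (hc.symm _ _ h23) (hc.symm _ _ h12)
    (hc.symm _ _ h01))

lemma P3.direct (hc : Cover X Adj E π) (symm : ∀ v w, Adj v w → Adj w v) {v0 v1 v2 v3 x : V}
    (hx : x ∈ X) (a0 : Adj x v0) (a1 : Adj x v1) (a2 : Adj x v2) (a3 : Adj x v3) :
    P3 E π v0 v1 v2 v3 := by
  rintro ω0 ω1 ω2 ω3 rfl rfl rfl rfl h01 h12 h23
  obtain ⟨ω', h1', rfl⟩ := hc.lift ω1 x hx (symm _ _ a1)
  have h0' : E ω0 ω' := hc.tri _ _ _ h01 h1' (symm _ _ a0)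
  have h2' : E ω' ω2 := hc.tri _ _ _ (hc.symm _ _ h1') h12 a2
  have h3' : E ω' ω3 := hc.tri _ _ _ h2' h23 a3
  exact Or.inr (Or.inr ⟨ω', h0', h3'⟩)

lemma P3.move1 (hc : Cover X Adj E π) (symm : ∀ v w, Adj v w → Adj w v) {v0 v1 v2 v3 y : V}
    (hy : y ∈ X) (a0 : Adj y v0) (a1 : Adj y v1) (a2 : Adj y v2) (h : P3 E π v0 y v2 v3) :
    P3 E π v0 v1 v2 v3 := by
  rintro ω0 ω1 ω2 ω3 rfl rfl rfl rfl h01 h12 h23
  obtain ⟨ω', h1', rfl⟩ := hc.lift ω1 y hy (symm _ _ a1)
  have h0' : E ω0 ω' := hc.tri _ _ _ h01 h1' (symm _ _ a0)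
  have h2' : E ω' ω2 := hc.tri _ _ _ (hc.symm _ _ h1') h12 a2
  exact h ω0 ω' ω2 ω3 rfl rfl rfl rfl h0' h2' h23

lemma P3.move2 (hc : Cover X Adj E π) (symm : ∀ v w, Adj v w → Adj w v) {v0 v1 v2 v3 y : V}
    (hy : y ∈ X) (a1 : Adj y v1) (a2 : Adj y v2) (a3 : Adj y v3) (h : P3 E π v0 v1 y v3) :
    P3 E π v0 v1 v2 v3 :=
  P3.rev hc (P3.move1 hc symm hy a3 a2 a1 (P3.rev hc h))

lemma P3.triv02 (hc : Cover X Adj E π) {v0 v1 v2 v3 : V} (h : v0 = v2) : P3 E π v0 v1 v2 v3 := by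
  rintro ω0 ω1 ω2 ω3 h0 h1 h2 h3 h01 h12 h23
  have : ω0 = ω2 := hc.uniq ω1 _ _ (hc.symm _ _ h01) h12 (by rw [h0, h2, h])
  rw [this]
  exact Or.inr (Or.inl h23)

lemma P3.triv13 (hc : Cover X Adj E π) {v0 v1 v2 v3 : V} (h : v1 = v3) : P3 E π v0 v1 v2 v3 :=
  P3.rev hc (P3.triv02 hc h.symm)

lemma P3.adj02 (hc : Cover X Adj E π) {v0 v1 v2 v3 : V} (h : Adj v0 v2) : P3 E π v0 v1 v2 v3 := by
  rintro ω0 ω1 ω2 ω3 rfl rfl rfl rfl h01 h12 h23
  exact Or.inr (Or.inr ⟨ω2, hc.tri _ _ _ h01 h12 h, h23⟩)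

lemma P3.adj13 (hc : Cover X Adj E π) {v0 v1 v2 v3 : V} (h : Adj v3 v1) : P3 E π v0 v1 v2 v3 :=
  P3.rev hc (P3.adj02 hc h)

end walks

/-! ### linear algebra -/
section lin
variable {K V : Type*} [Field K] [AddCommGroup V] [Module K V] {Q : QuadraticForm K V}

/-- a walk in the graph -/
structure Wk (Q : QuadraticForm K V) (κ : K) (v0 v1 v2 v3 : V) : Prop where
  q0 : Q v0 = κ
  q1 : Q v1 = κ
  q2 : Q v2 = κ
  q3 : Q v3 = κ
  h01 : polar Q v0 v1 = 1
  h12 : polar Q v1 v2 = 1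
  h23 : polar Q v2 v3 = 1

lemma Wk.rev {κ : K} {v0 v1 v2 v3 : V} (h : Wk Q κ v0 v1 v2 v3) : Wk Q κ v3 v2 v1 v0 :=
  ⟨h.q3, h.q2, h.q1, h.q0, by rw [p_comm]; exact h.h23, by rw [p_comm]; exact h.h12,
    by rw [p_comm]; exact h.h01⟩

lemma comb {x0 e f v : V} {t : K} (hx : polar Q x0 v = t) (he : polar Q e v = 0)
    (hf : polar Q f v = 0) (α β : K) : polar Q (x0 + (α • e + β • f)) v = t := by
  rw [p_add_left, p_add_left, p_smul_left, p_smul_left, hx, he, hf]; ring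

lemma v0'_polar {v0 v1 v2 : V} (y : V) :
    polar Q y (v0 + polar Q v0 v2 • v1 + v2) =
      polar Q y v0 + polar Q v0 v2 * polar Q y v1 + polar Q y v2 := by
  simp only [p_add_right, p_smul_right]

lemma v3'_polar {v1 v2 v3 : V} (y : V) :
    polar Q y (v3 + v1 + polar Q v1 v3 • v2) =
      polar Q y v3 + polar Q y v1 + polar Q v1 v3 * polar Q y v2 := by
  simp only [p_add_right, p_smul_right]

variable [CharP K 2]

lemma v0'_Q {κ : K} {v0 v1 v2 v3 : V} (h : Wk Q κ v0 v1 v2 v3) :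
    Q (v0 + polar Q v0 v2 • v1 + v2) = polar Q v0 v2 * (κ * polar Q v0 v2 + 1) := by
  simp only [Q_add, Q_smul, p_add_left, p_smul_left, p_smul_right, h.q0, h.q1, h.q2, h.h01, h.h12]
  linear_combination (κ + polar Q v0 v2) * two0 K

lemma v3'_Q {κ : K} {v0 v1 v2 v3 : V} (h : Wk Q κ v0 v1 v2 v3) :
    Q (v3 + v1 + polar Q v1 v3 • v2) = polar Q v1 v3 * (κ * polar Q v1 v3 + 1) := by
  have h32 : polar Q v3 v2 = 1 := by rw [p_comm]; exact h.h23
  have h31 : polar Q v3 v1 = polar Q v1 v3 := p_comm Q _ _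
  simp only [Q_add, Q_smul, p_add_left, p_smul_right, h.q3, h.q1, h.q2, h.h12, h32,
    h31]
  linear_combination (κ + polar Q v1 v3) * two0 K

/-- independence of four vectors -/
lemma indep4 {κ : K} {v0 v1 v2 v3 : V} (h : Wk Q κ v0 v1 v2 v3)
    (h0 : v0 + polar Q v0 v2 • v1 + v2 ≠ 0)
    (h3 : ∀ τ : K, v3 + v1 + polar Q v1 v3 • v2 ≠ τ • (v0 + polar Q v0 v2 • v1 + v2)) :
    LinearIndependent K ![v0, v1, v2, v3] := by
  have h2 := two0 K
  rw [Fintype.linearIndependent_iff]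
  intro c hc
  simp only [Fin.sum_univ_four, Matrix.cons_val] at hc
  have e1 : c 0 + c 2 + c 3 * polar Q v1 v3 = 0 := by
    have := congrArg (fun x => polar Q v1 x) hc
    simp only [p_add_right, p_smul_right, polar_xx, p_zero_right, h.h12, p_comm Q v1 v0,
      h.h01] at this
    linear_combination this
  have e2 : polar Q v0 v2 * c 0 + c 1 + c 3 = 0 := by
    have := congrArg (fun x => polar Q v2 x) hc
    simp only [p_add_right, p_smul_right, polar_xx, p_zero_right, h.h23, p_comm Q v2 v0,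
      p_comm Q v2 v1, h.h12] at this
    linear_combination this
  have f2 : c 2 = c 0 + polar Q v1 v3 * c 3 := by
    linear_combination e1 - (c 0 + polar Q v1 v3 * c 3) * h2
  have f1 : c 1 = polar Q v0 v2 * c 0 + c 3 := by
    linear_combination e2 - (c 3 + polar Q v0 v2 * c 0) * h2
  have key : c 0 • (v0 + polar Q v0 v2 • v1 + v2) + c 3 • (v3 + v1 + polar Q v1 v3 • v2) = 0 := by
    rw [← hc, f1, f2]; module
  have c3 : c 3 = 0 := by
    by_contra hne
    apply h3 (-(c 3)⁻¹ * c 0)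
    have : (c 3)⁻¹ • (c 0 • (v0 + polar Q v0 v2 • v1 + v2) +
        c 3 • (v3 + v1 + polar Q v1 v3 • v2)) = 0 := by rw [key, smul_zero]
    rw [smul_add, smul_smul (c 3)⁻¹ (c 3), inv_mul_cancel₀ hne, one_smul] at this
    rw [eq_comm, ← sub_eq_zero]
    rw [← neg_eq_zero, ← this]
    module
  have c0 : c 0 = 0 := by
    rw [c3, zero_smul, add_zero] at key
    exact (smul_eq_zero.mp key).resolve_right h0
  intro i
  fin_cases i
  · exact c0
  · simpa [c0, c3] using f1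
  · simpa [c0, c3] using f2
  · exact c3

/-- independence of three vectors -/
lemma indep3 {κ : K} {v0 v1 v2 v3 : V} (h : Wk Q κ v0 v1 v2 v3)
    (h0 : v0 + polar Q v0 v2 • v1 + v2 ≠ 0) :
    LinearIndependent K ![v0, v1, v2] := by
  have h2 := two0 K
  rw [Fintype.linearIndependent_iff]
  intro c hc
  simp only [Fin.sum_univ_three, Matrix.cons_val] at hc
  have e1 : c 0 + c 2 = 0 := by
    have := congrArg (fun x => polar Q v1 x) hc
    simp only [p_add_right, p_smul_right, polar_xx, p_zero_right, h.h12, p_comm Q v1 v0,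
      h.h01] at this
    linear_combination this
  have e2 : polar Q v0 v2 * c 0 + c 1 = 0 := by
    have := congrArg (fun x => polar Q v2 x) hc
    simp only [p_add_right, p_smul_right, polar_xx, p_zero_right, p_comm Q v2 v0,
      p_comm Q v2 v1, h.h12] at this
    linear_combination this
  have f2 : c 2 = c 0 := by
    linear_combination e1 - (c 0) * h2
  have f1 : c 1 = polar Q v0 v2 * c 0 := by
    linear_combination e2 - (polar Q v0 v2 * c 0) * h2
  have key : c 0 • (v0 + polar Q v0 v2 • v1 + v2) = 0 := by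
    rw [← hc, f1, f2]; module
  have c0 : c 0 = 0 := (smul_eq_zero.mp key).resolve_right h0
  intro i
  fin_cases i
  · exact c0
  · simpa [c0] using f1
  · simpa [c0] using f2

variable [Fintype K] [FiniteDimensional K V]

/-- case 1 -/
lemma case1 (hnd : ∀ x, (∀ y, polar Q x y = 0) → x = 0) (hdim : 6 ≤ Module.finrank K V)
    {κ : K} {v0 v1 v2 v3 : V} (h : Wk Q κ v0 v1 v2 v3)
    (hP : 1 + polar Q v0 v2 * polar Q v1 v3 + polar Q v0 v3 ≠ 0) :
    ∃ x, Q x = κ ∧ polar Q x v0 = 1 ∧ polar Q x v1 = 1 ∧ polar Q x v2 = 1 ∧ polar Q x v3 = 1 := by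
  have h2 := two0 K
  have p30 : polar Q (v3 + v1 + polar Q v1 v3 • v2) (v0 + polar Q v0 v2 • v1 + v2) =
      1 + polar Q v0 v2 * polar Q v1 v3 + polar Q v0 v3 := by
    rw [v0'_polar]
    simp only [p_add_left, p_smul_left, polar_xx, p_comm Q v1 v0, h.h01, p_comm Q v3 v0,
      p_comm Q v2 v0, p_comm Q v3 v1, p_comm Q v2 v1, h.h12, p_comm Q v3 v2, h.h23]
    linear_combination (1 + polar Q v0 v2 * polar Q v1 v3) * h2
  have hv0 : v0 + polar Q v0 v2 • v1 + v2 ≠ 0 := by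
    intro h0
    rw [h0, p_zero_right] at p30
    exact hP p30.symm
  have hv3 : ∀ τ : K, v3 + v1 + polar Q v1 v3 • v2 ≠ τ • (v0 + polar Q v0 v2 • v1 + v2) := by
    intro τ hτ
    rw [hτ, p_smul_left, polar_xx, mul_zero] at p30
    exact hP p30.symm
  have hind := indep4 h hv0 hv3
  obtain ⟨x0, hx0⟩ := exists_sol Q hnd _ hind (fun _ => 1)
  have x00 := hx0 0
  have x01 := hx0 1
  have x02 := hx0 2
  have x03 := hx0 3
  simp only [Matrix.cons_val] at x00 x01 x02 x03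
  -- hyperbolic pair in the orthogonal complement
  obtain ⟨e, f, he, hf, hef⟩ : ∃ e f : V, (∀ i, polar Q e (![v0, v1, v2, v3] i) = 0) ∧
      (∀ i, polar Q f (![v0, v1, v2, v3] i) = 0) ∧ polar Q e f ≠ 0 := by
    by_contra hno
    push Not at hno
    obtain ⟨d, hd0, hd⟩ := exists_orth_not_mem Q ![v0, v1, v2, v3] ⊥ (by simp; omega)
    obtain ⟨c, hc⟩ := mem_span_of_orth Q hnd ![v0, v1, v2, v3] d (fun y hy => by
      exact hno y d hy hd)
    apply hd0
    simp only [Fin.sum_univ_four, Matrix.cons_val] at hc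
    have d0 := hd 0
    have d1 := hd 1
    have d2 := hd 2
    have d3 := hd 3
    simp only [Matrix.cons_val] at d0 d1 d2 d3
    rw [hc] at d0 d1 d2 d3
    simp only [p_add_left, p_smul_left, polar_xx, p_comm Q v1 v0, h.h01, p_comm Q v3 v0,
      p_comm Q v2 v0, p_comm Q v3 v1, p_comm Q v2 v1, h.h12, p_comm Q v3 v2, h.h23] at d0 d1 d2 d3
    have c0 : c 0 * (1 + polar Q v0 v2 * polar Q v1 v3 + polar Q v0 v3) = 0 := by
      linear_combination d1 + polar Q v1 v3 * d2 + d3 - (c 2 + polar Q v1 v3 * c 3 +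
        polar Q v1 v3 * c 1) * h2
    have c3 : c 3 * (1 + polar Q v0 v2 * polar Q v1 v3 + polar Q v0 v3) = 0 := by
      linear_combination d2 + polar Q v0 v2 * d1 + d0 - (c 1 + polar Q v0 v2 * c 0 +
        polar Q v0 v2 * c 2) * h2
    have c0' := (mul_eq_zero.mp c0).resolve_right hP
    have c3' := (mul_eq_zero.mp c3).resolve_right hP
    rw [c0', c3'] at d1 d2
    have c2' : c 2 = 0 := by linear_combination d1
    have c1' : c 1 = 0 := by linear_combination d2
    rw [hc, c0', c1', c2', c3']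
    simp
  obtain ⟨α, β, hαβ⟩ := solve Q hef x0 κ
  refine ⟨_, hαβ, ?_, ?_, ?_, ?_⟩
  · exact comb x00 (he 0) (hf 0) α β
  · exact comb x01 (he 1) (hf 1) α β
  · exact comb x02 (he 2) (hf 2) α β
  · exact comb x03 (he 3) (hf 3) α β

/-- in the degenerate three dimensional case every consistent system is solvable -/
lemma case3 (hnd : ∀ x, (∀ y, polar Q x y = 0) → x = 0) (hdim : 6 ≤ Module.finrank K V)
    {κ : K} {v0 v1 v2 v3 : V} (h : Wk Q κ v0 v1 v2 v3)
    (hv0 : v0 + polar Q v0 v2 • v1 + v2 ≠ 0) (t0 t1 t2 : K) :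
    ∃ x, Q x = κ ∧ polar Q x v0 = t0 ∧ polar Q x v1 = t1 ∧ polar Q x v2 = t2 := by
  have h2 := two0 K
  have hind := indep3 h hv0
  obtain ⟨x0, hx0⟩ := exists_sol Q hnd _ hind ![t0, t1, t2]
  have x00 := hx0 0
  have x01 := hx0 1
  have x02 := hx0 2
  simp only [Matrix.cons_val] at x00 x01 x02
  obtain ⟨e, f, he, hf, hef⟩ : ∃ e f : V, (∀ i, polar Q e (![v0, v1, v2] i) = 0) ∧
      (∀ i, polar Q f (![v0, v1, v2] i) = 0) ∧ polar Q e f ≠ 0 := by
    by_contra hno
    push Not at hno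
    have hfr : Module.finrank K (Submodule.span K {v0 + polar Q v0 v2 • v1 + v2}) + 3 <
        Module.finrank K V := by
      have := finrank_span_le_card (R := K) ({v0 + polar Q v0 v2 • v1 + v2} : Set V)
      simp at this
      omega
    obtain ⟨d, hd0, hd⟩ := exists_orth_not_mem Q ![v0, v1, v2] _ hfr
    obtain ⟨c, hc⟩ := mem_span_of_orth Q hnd ![v0, v1, v2] d (fun y hy => by
      exact hno y d hy hd)
    apply hd0
    simp only [Fin.sum_univ_three, Matrix.cons_val] at hc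
    have d1 := hd 1
    have d2 := hd 2
    simp only [Matrix.cons_val] at d1 d2
    rw [hc] at d1 d2
    simp only [p_add_left, p_smul_left, polar_xx, h.h01, p_comm Q v2 v1, h.h12] at d1 d2
    have c2' : c 2 = c 0 := by linear_combination d1 - c 0 * h2
    have c1' : c 1 = polar Q v0 v2 * c 0 := by
      linear_combination d2 - polar Q v0 v2 * c 0 * h2
    rw [hc, c2', c1', Submodule.mem_span_singleton]
    exact ⟨c 0, by module⟩
  obtain ⟨α, β, hαβ⟩ := solve Q hef x0 κ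
  refine ⟨_, hαβ, ?_, ?_, ?_⟩
  · exact comb x00 (he 0) (hf 0) α β
  · exact comb x01 (he 1) (hf 1) α β
  · exact comb x02 (he 2) (hf 2) α β

end lin

/-! ### the argument -/
section main
variable {K V : Type*} [Field K] [Fintype K] [CharP K 2] [AddCommGroup V] [Module K V]
  [FiniteDimensional K V] {Q : QuadraticForm K V} {κ : K}
  {Ω : Type*} {E : Ω → Ω → Prop} {π : Ω → V}

lemma vv (K : Type*) {V : Type*} [Field K] [CharP K 2] [AddCommGroup V] [Module K V] (v : V) :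
    v + v = 0 := by
  have : v + v = (2 : K) • v := by rw [two_smul]
  rw [this, two0, zero_smul]

omit [Fintype K] [CharP K 2] [FiniteDimensional K V] in
lemma ne0 {x v : V} (h : polar Q x v = 1) : x ≠ 0 := by
  rintro rfl
  rw [p_zero_left] at h
  exact zero_ne_one h

omit [Fintype K] [CharP K 2] [FiniteDimensional K V] in
lemma asymm : ∀ v w : V, polar Q v w = 1 → polar Q w v = 1 := fun v w h => by
  rw [p_comm]; exact h

lemma ns1 (hnd : ∀ x, (∀ y, polar Q x y = 0) → x = 0) (hdim : 6 ≤ Module.finrank K V)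
    (hc : Cover {v : V | Q v = κ ∧ v ≠ 0} (fun v w => polar Q v w = 1) E π)
    {v0 v1 v2 v3 : V} (h : Wk Q κ v0 v1 v2 v3)
    (hP : 1 + polar Q v0 v2 * polar Q v1 v3 + polar Q v0 v3 ≠ 0) : P3 E π v0 v1 v2 v3 := by
  obtain ⟨x, hx, a0, a1, a2, a3⟩ := case1 hnd hdim h hP
  exact P3.direct hc asymm ⟨hx, ne0 a0⟩ a0 a1 a2 a3

lemma ns2a (hnd : ∀ x, (∀ y, polar Q x y = 0) → x = 0) (hdim : 6 ≤ Module.finrank K V)
    (hc : Cover {v : V | Q v = κ ∧ v ≠ 0} (fun v w => polar Q v w = 1) E π)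
    {d : K} (hd0 : d ≠ 0) (hd1 : d ≠ 1)
    {v0 v1 v2 v3 : V} (h : Wk Q κ v0 v1 v2 v3)
    (hP : 1 + polar Q v0 v2 * polar Q v1 v3 + polar Q v0 v3 = 0)
    (hb : polar Q v1 v3 ≠ 0) (ha : κ * polar Q v0 v2 ≠ 1)
    (hind : LinearIndependent K ![v0, v1, v2, v3]) : P3 E π v0 v1 v2 v3 := by
  have h2 := two0 K
  -- orthogonality of v0'
  have o0 : polar Q (v0 + polar Q v0 v2 • v1 + v2) v0 = 0 := by
    simp only [p_add_left, p_smul_left, polar_xx, p_comm Q v1 v0, h.h01, p_comm Q v2 v0]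
    linear_combination (polar Q v0 v2) * h2
  have o1 : polar Q (v0 + polar Q v0 v2 • v1 + v2) v1 = 0 := by
    simp only [p_add_left, p_smul_left, polar_xx, p_comm Q v2 v1, h.h01, h.h12]
    linear_combination h2
  have o2 : polar Q (v0 + polar Q v0 v2 • v1 + v2) v2 = 0 := by
    simp only [p_add_left, p_smul_left, polar_xx, h.h12]
    linear_combination (polar Q v0 v2) * h2
  have o3 : polar Q (v0 + polar Q v0 v2 • v1 + v2) v3 = 0 := by
    simp only [p_add_left, p_smul_left, h.h23]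
    linear_combination hP
  obtain ⟨δ, hδ, y0, hy, b0, b1, b2, b3⟩ : ∃ δ : K, δ ≠ 0 ∧ ∃ y : V, Q y = κ ∧
      polar Q y v0 = polar Q v0 v2 + δ ∧ polar Q y v1 = 1 ∧ polar Q y v2 = 1 ∧
      polar Q y v3 = 1 := by
    have fin : ∀ (δ x : K) (y0 : V), (∀ i, polar Q y0 (![v0, v1, v2, v3] i) =
        ![polar Q v0 v2 + δ, 1, 1, 1] i) →
        Q (y0 + x • (v0 + polar Q v0 v2 • v1 + v2)) = κ → ∃ y : V, Q y = κ ∧
      polar Q y v0 = polar Q v0 v2 + δ ∧ polar Q y v1 = 1 ∧ polar Q y v2 = 1 ∧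
      polar Q y v3 = 1 := by
      intro δ x y0 hy0 hQ
      have z0 := hy0 0
      have z1 := hy0 1
      have z2 := hy0 2
      have z3 := hy0 3
      simp only [Matrix.cons_val] at z0 z1 z2 z3
      refine ⟨_, hQ, ?_, ?_, ?_, ?_⟩
      · rw [p_add_left, p_smul_left, o0, z0]; ring
      · rw [p_add_left, p_smul_left, o1, z1]; ring
      · rw [p_add_left, p_smul_left, o2, z2]; ring
      · rw [p_add_left, p_smul_left, o3, z3]; ring
    by_cases ha0 : polar Q v0 v2 = 0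
    · obtain ⟨y0, hy0⟩ := exists_sol Q hnd _ hind ![polar Q v0 v2 + d, 1, 1, 1]
      have hd1' : 1 + d ≠ 0 := by
        intro h3
        apply hd1
        linear_combination h3 - h2
      refine ⟨d, hd0, fin d ((κ - Q y0) / (1 + d)) y0 hy0 ?_⟩
      have z0 := hy0 0
      have z1 := hy0 1
      have z2 := hy0 2
      simp only [Matrix.cons_val] at z0 z1 z2
      rw [Q_add, Q_smul, p_smul_right, v0'_Q h, v0'_polar, z0, z1, z2, ha0]
      field_simp
      ring
    · obtain ⟨y0, hy0⟩ := exists_sol Q hnd _ hind ![polar Q v0 v2 + 1, 1, 1, 1]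
      have z0 := hy0 0
      have z1 := hy0 1
      have z2 := hy0 2
      simp only [Matrix.cons_val] at z0 z1 z2
      have hne : κ * polar Q v0 v2 + 1 ≠ 0 := by
        intro h3
        apply ha
        linear_combination h3 - h2
      obtain ⟨r, hr⟩ := exists_sq ((κ - Q y0) / (polar Q v0 v2 * (κ * polar Q v0 v2 + 1)))
      refine ⟨1, one_ne_zero, fin 1 r y0 hy0 ?_⟩
      rw [Q_add, Q_smul, p_smul_right, v0'_Q h, v0'_polar, z0, z1, z2, hr]
      have e1 : r * (polar Q v0 v2 + 1 + polar Q v0 v2 * 1 + 1) = 0 := by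
        linear_combination r * (polar Q v0 v2 + 1) * h2
      rw [e1]
      field_simp
      ring
  refine P3.move2 hc asymm ⟨hy, ne0 b1⟩ b1 b2 b3 (ns1 hnd hdim hc
    ⟨h.q0, h.q1, hy, h.q3, h.h01, asymm _ _ b1, b3⟩ ?_)
  rw [p_comm Q v0 y0, b0]
  have : 1 + (polar Q v0 v2 + δ) * polar Q v1 v3 + polar Q v0 v3 = δ * polar Q v1 v3 := by
    linear_combination hP
  rw [this]
  exact mul_ne_zero hδ hb

lemma ns3 (hnd : ∀ x, (∀ y, polar Q x y = 0) → x = 0) (hdim : 6 ≤ Module.finrank K V)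
    (hc : Cover {v : V | Q v = κ ∧ v ≠ 0} (fun v w => polar Q v w = 1) E π)
    {v0 v1 v2 v3 : V} (h : Wk Q κ v0 v1 v2 v3)
    (hP : 1 + polar Q v0 v2 * polar Q v1 v3 + polar Q v0 v3 = 0)
    (ha : κ * polar Q v0 v2 ≠ 1) (hb : κ * polar Q v1 v3 ≠ 1)
    (hbad : ¬ (κ = 0 ∧ ∃ c : K, v3 = c • v0)) (hκ : κ = 0 ∨ κ = 1)
    (hv0 : v0 + polar Q v0 v2 • v1 + v2 ≠ 0) (hv3 : v3 + v1 + polar Q v1 v3 • v2 ≠ 0)
    {τ : K} (hτ : v3 + v1 + polar Q v1 v3 • v2 = τ • (v0 + polar Q v0 v2 • v1 + v2)) :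
    P3 E π v0 v1 v2 v3 := by
  have h2 := two0 K
  have hτ0 : τ ≠ 0 := by
    rintro rfl
    rw [zero_smul] at hτ
    exact hv3 hτ
  have rel : ∀ y, polar Q y v3 + polar Q y v1 + polar Q v1 v3 * polar Q y v2 =
      τ * (polar Q y v0 + polar Q v0 v2 * polar Q y v1 + polar Q y v2) := by
    intro y
    rw [← v3'_polar, ← v0'_polar, ← p_smul_right, hτ]
  set a := polar Q v0 v2 with hadef
  set b := polar Q v1 v3 with hbdef
  by_cases hbt : b = τ * a
  · obtain ⟨x, hx, x0, x1, x2⟩ := case3 hnd hdim h hv0 1 1 1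
    have x3 : polar Q x v3 = 1 := by
      have := rel x
      rw [x0, x1, x2] at this
      linear_combination this + (τ - 1) * h2 - hbt
    exact P3.direct hc asymm ⟨hx, ne0 x0⟩ x0 x1 x2 x3
  by_cases hm1 : a * (1 + τ * a) = 0
  swap
  · obtain ⟨y, hy, x0, x1, x2⟩ := case3 hnd hdim h hv0 1 1 1
    have x3 : polar Q y v3 = b + (1 + τ * a) := by
      have := rel y
      rw [x0, x1, x2] at this
      linear_combination this + (τ - b - 1) * h2
    refine P3.move1 hc asymm ⟨hy, ne0 x0⟩ x0 x1 x2 (ns1 hnd hdim hc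
      ⟨h.q0, hy, h.q2, h.q3, asymm _ _ x0, x2, h.h23⟩ ?_)
    rw [x3, ← hadef]
    have : 1 + a * (b + (1 + τ * a)) + polar Q v0 v3 = a * (1 + τ * a) := by
      linear_combination hP
    rw [this]
    exact hm1
  by_cases hm2 : b * (1 + b / τ) = 0
  swap
  · obtain ⟨y, hy, x0, x1, x2⟩ := case3 hnd hdim h hv0 (a + (1 + b / τ)) 1 1
    have x3 : polar Q y v3 = 1 := by
      have := rel y
      rw [x0, x1, x2] at this
      have e : τ * (b / τ) = b := by field_simp
      linear_combination this + e + (τ * a + τ - 1) * h2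
    refine P3.move2 hc asymm ⟨hy, ne0 x1⟩ x1 x2 x3 (ns1 hnd hdim hc
      ⟨h.q0, h.q1, hy, h.q3, h.h01, asymm _ _ x1, x3⟩ ?_)
    rw [p_comm Q v0 y, x0, ← hbdef]
    have : 1 + (a + (1 + b / τ)) * b + polar Q v0 v3 = b * (1 + b / τ) := by
      linear_combination hP
    rw [this]
    exact hm2
  exfalso
  have hQ : b * (κ * b + 1) = τ * τ * (a * (κ * a + 1)) := by
    rw [← v0'_Q h, ← v3'_Q h, ← Q_smul, hτ]
  rcases mul_eq_zero.mp hm1 with h1 | h1 <;> rcases mul_eq_zero.mp hm2 with h3 | h3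
  · apply hbt; rw [h1, h3]; ring
  · -- a = 0, b = τ
    have hbτ : b = τ := by
      have : 1 + b / τ = (τ + b) / τ := by field_simp
      rw [this, div_eq_zero_iff] at h3
      have h4 := h3.resolve_right hτ0
      linear_combination h4 - τ * h2
    rw [h1, zero_mul, mul_zero] at hQ
    rcases mul_eq_zero.mp hQ with h4 | h4
    · exact hτ0 (hbτ ▸ h4)
    · apply hb; linear_combination h4 - h2
  · -- τ a = 1, b = 0
    rw [h3, zero_mul] at hQ
    have ha0 : a ≠ 0 := by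
      intro h4; rw [h4, mul_zero, add_zero] at h1; exact one_ne_zero h1
    have h4 : κ * a + 1 = 0 := by
      have := hQ.symm
      simpa [hτ0, ha0] using this
    apply ha; linear_combination h4 - h2
  · have hbτ : b = τ := by
      have : 1 + b / τ = (τ + b) / τ := by field_simp
      rw [this, div_eq_zero_iff] at h3
      have h4 := h3.resolve_right hτ0
      linear_combination h4 - τ * h2
    have hta : τ * a = 1 := by linear_combination h1 - h2
    rcases hκ with hκ | hκ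
    · apply hbad
      refine ⟨hκ, τ, ?_⟩
      have e1 : v3 + v1 + τ • v2 = τ • v0 + v1 + τ • v2 := by
        rw [hbτ] at hτ
        rw [hτ, smul_add, smul_add, smul_smul, hta, one_smul]
      have := add_right_cancel e1
      exact add_right_cancel this
    · rw [hκ, hbτ] at hQ
      have h5 : (τ - 1) * (τ - 1) = 0 := by
        linear_combination hQ + (τ * a + 1 + τ) * hta + (1 - τ) * h2
      have h6 : τ - 1 = 0 := by
        rcases mul_eq_zero.mp h5 with h6 | h6 <;> exact h6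
      apply hb
      rw [hκ, hbτ]
      linear_combination h6

lemma ns2 (hnd : ∀ x, (∀ y, polar Q x y = 0) → x = 0) (hdim : 6 ≤ Module.finrank K V)
    (hc : Cover {v : V | Q v = κ ∧ v ≠ 0} (fun v w => polar Q v w = 1) E π)
    {d : K} (hd0 : d ≠ 0) (hd1 : d ≠ 1)
    {v0 v1 v2 v3 : V} (h : Wk Q κ v0 v1 v2 v3)
    (hP : 1 + polar Q v0 v2 * polar Q v1 v3 + polar Q v0 v3 = 0)
    (ha : κ * polar Q v0 v2 ≠ 1) (hb : κ * polar Q v1 v3 ≠ 1)
    (hbad : ¬ (κ = 0 ∧ ∃ c : K, v3 = c • v0)) (hκ : κ = 0 ∨ κ = 1)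
    (hv0 : v0 + polar Q v0 v2 • v1 + v2 ≠ 0)
    (hind : LinearIndependent K ![v0, v1, v2, v3]) :
    P3 E π v0 v1 v2 v3 := by
  have h2 := two0 K
  by_cases hb0 : polar Q v1 v3 = 0
  swap
  · exact ns2a hnd hdim hc hd0 hd1 h hP hb0 ha hind
  by_cases ha0 : polar Q v0 v2 = 0
  swap
  · apply P3.rev hc
    refine ns2a hnd hdim hc hd0 hd1 h.rev ?_ ?_ ?_ ?_
    · rw [p_comm Q v3 v1, p_comm Q v2 v0, p_comm Q v3 v0]
      linear_combination hP
    · rw [p_comm]; exact ha0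
    · rw [p_comm]; exact hb
    · have := hind.comp ![3, 2, 1, 0] (by decide)
      convert this using 1
      ext i
      fin_cases i <;> rfl
  -- a = b = 0
  have hc03 : polar Q v0 v3 = 1 := by
    rw [ha0, hb0] at hP
    linear_combination hP - h2
  have hd1' : 1 + d ≠ 0 := by
    intro h3
    apply hd1
    linear_combination h3 - h2
  obtain ⟨y0, hy0⟩ := exists_sol Q hnd _ hind ![1, 1, 1, d]
  have z0 := hy0 0
  have z1 := hy0 1
  have z2 := hy0 2
  have z3 := hy0 3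
  simp only [Matrix.cons_val] at z0 z1 z2 z3
  -- v3' = v3 + v1
  have o0 : polar Q (v3 + v1) v0 = 0 := by
    rw [p_add_left, p_comm Q v3 v0, p_comm Q v1 v0, hc03, h.h01]; linear_combination h2
  have o1 : polar Q (v3 + v1) v1 = 0 := by
    rw [p_add_left, p_comm Q v3 v1, hb0, polar_xx]; ring
  have o2 : polar Q (v3 + v1) v2 = 0 := by
    rw [p_add_left, p_comm Q v3 v2, h.h23, h.h12]; linear_combination h2
  have o3 : polar Q (v3 + v1) v3 = 0 := by
    rw [p_add_left, hb0, polar_xx]; ring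
  have hQ3 : Q (v3 + v1) = 0 := by
    rw [Q_add, h.q3, h.q1, p_comm Q v3 v1, hb0]; linear_combination κ * h2
  obtain ⟨y, hy, y0', y1', y2', y3'⟩ : ∃ y : V, Q y = κ ∧ polar Q y v0 = 1 ∧ polar Q y v1 = 1 ∧
      polar Q y v2 = 1 ∧ polar Q y v3 = d := by
    refine ⟨y0 + ((κ - Q y0) / (1 + d)) • (v3 + v1), ?_, ?_, ?_, ?_, ?_⟩
    · rw [Q_add, Q_smul, p_smul_right, hQ3, p_add_right, z3, z1]
      field_simp
      ring
    · rw [p_add_left, p_smul_left, o0, z0]; ring
    · rw [p_add_left, p_smul_left, o1, z1]; ring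
    · rw [p_add_left, p_smul_left, o2, z2]; ring
    · rw [p_add_left, p_smul_left, o3, z3]; ring
  have hw : Wk Q κ v0 y v2 v3 := ⟨h.q0, hy, h.q2, h.q3, asymm _ _ y0', y2', h.h23⟩
  refine P3.move1 hc asymm ⟨hy, ne0 y0'⟩ y0' y1' y2' ?_
  have hP' : 1 + polar Q v0 v2 * polar Q y v3 + polar Q v0 v3 = 0 := by
    rw [ha0, hc03]; linear_combination h2
  have hκd : κ * d ≠ 1 := by
    rcases hκ with h3 | h3
    · rw [h3, zero_mul]; exact zero_ne_one
    · rw [h3, one_mul]; exact hd1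
  have hv0' : v0 + polar Q v0 v2 • y + v2 ≠ 0 := by
    rw [ha0, zero_smul, add_zero] at hv0 ⊢
    exact hv0
  by_cases hdep : ∃ τ : K, v3 + y + polar Q y v3 • v2 = τ • (v0 + polar Q v0 v2 • y + v2)
  · obtain ⟨τ, hτ⟩ := hdep
    refine ns3 hnd hdim hc hw hP' ha (by rw [y3']; exact hκd) hbad hκ hv0' ?_ hτ
    intro h3
    have h4 := v3'_Q hw
    rw [h3, map_zero, y3'] at h4
    rcases mul_eq_zero.mp h4.symm with h5 | h5
    · exact hd0 h5
    · apply hκd; linear_combination h5 - h2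
  · push Not at hdep
    exact ns2a hnd hdim hc hd0 hd1 hw hP' (by rw [y3']; exact hd0) ha
      (indep4 hw hv0' hdep)

omit [CharP K 2] in
lemma exists_d (hq : 4 ≤ Fintype.card K) : ∃ d : K, d ≠ 0 ∧ d ≠ 1 := by
  classical
  by_contra hno
  push Not at hno
  have h1 : (Finset.univ : Finset K) ⊆ {0, 1} := by
    intro x _
    by_cases hx : x = 0
    · simp [hx]
    · simp [hno x hx]
  have h3 := Finset.card_le_card h1
  have h4 : ({0, 1} : Finset K).card ≤ 2 := Finset.card_le_two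
  rw [Finset.card_univ] at h3
  omega

lemma ns (hq : 4 ≤ Fintype.card K)
    (hnd : ∀ x, (∀ y, polar Q x y = 0) → x = 0) (hdim : 6 ≤ Module.finrank K V)
    (hc : Cover {v : V | Q v = κ ∧ v ≠ 0} (fun v w => polar Q v w = 1) E π)
    {v0 v1 v2 v3 : V} (h : Wk Q κ v0 v1 v2 v3) (hκ : κ = 0 ∨ κ = 1)
    (hbad : ¬ (κ = 0 ∧ ∃ c : K, v3 = c • v0)) :
    P3 E π v0 v1 v2 v3 := by
  have h2 := two0 K
  obtain ⟨d, hd0, hd1⟩ := exists_d hq
  by_cases hP : 1 + polar Q v0 v2 * polar Q v1 v3 + polar Q v0 v3 = 0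
  swap
  · exact ns1 hnd hdim hc h hP
  by_cases h02 : v0 = v2
  · exact P3.triv02 hc h02
  by_cases h13 : v1 = v3
  · exact P3.triv13 hc h13
  by_cases ha1 : polar Q v0 v2 = 1
  · exact P3.adj02 hc ha1
  by_cases hb1 : polar Q v1 v3 = 1
  · exact P3.adj13 hc (asymm _ _ hb1)
  have hκ1 : ∀ x : K, x ≠ 1 → κ * x ≠ 1 := by
    intro x hx
    rcases hκ with h3 | h3
    · rw [h3, zero_mul]; exact zero_ne_one
    · rw [h3, one_mul]; exact hx
  have ha := hκ1 _ ha1
  have hb := hκ1 _ hb1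
  have hv0 : v0 + polar Q v0 v2 • v1 + v2 ≠ 0 := by
    intro h0
    have h4 := v0'_Q h
    rw [h0, map_zero] at h4
    rcases mul_eq_zero.mp h4.symm with h5 | h5
    · rw [h5, zero_smul, add_zero] at h0
      apply h02
      have := vv K v2
      rw [← sub_eq_zero]
      have e : v0 - v2 = (v0 + v2) - (v2 + v2) := by abel
      rw [e, h0, this, sub_zero]
    · apply ha; linear_combination h5 - h2
  have hv3 : v3 + v1 + polar Q v1 v3 • v2 ≠ 0 := by
    intro h0
    have h4 := v3'_Q h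
    rw [h0, map_zero] at h4
    rcases mul_eq_zero.mp h4.symm with h5 | h5
    · rw [h5, zero_smul, add_zero] at h0
      apply h13
      have := vv K v3
      rw [← sub_eq_zero]
      have e : v1 - v3 = (v3 + v1) - (v3 + v3) := by abel
      rw [e, h0, this, sub_zero]
    · apply hb; linear_combination h5 - h2
  by_cases hdep : ∃ τ : K, v3 + v1 + polar Q v1 v3 • v2 = τ • (v0 + polar Q v0 v2 • v1 + v2)
  · obtain ⟨τ, hτ⟩ := hdep
    exact ns3 hnd hdim hc h hP ha hb hbad hκ hv0 hv3 hτ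
  · push Not at hdep
    exact ns2 hnd hdim hc hd0 hd1 h hP ha hb hbad hκ hv0 (indep4 h hv0 hdep)

/-- `(A)` of the offer -/
theorem SC_odd {K V : Type*} [Field K] [Fintype K] [CharP K 2] (hq : 4 ≤ Fintype.card K)
    [AddCommGroup V] [Module K V] [FiniteDimensional K V] (Q : QuadraticForm K V)
    (hnd : ∀ x, (∀ y, QuadraticMap.polar Q x y = 0) → x = 0) (hdim : 6 ≤ Module.finrank K V)
    (κ : K) (hκ : κ = 0 ∨ κ = 1) {Ω : Type*} {E : Ω → Ω → Prop} {π : Ω → V}
    (hc : Cover {v : V | Q v = κ ∧ v ≠ 0} (fun v w => QuadraticMap.polar Q v w = 1) E π) :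
    Function.Injective π := by
  have h2 := two0 K
  refine cover_injective hc (fun v w => κ = 0 ∧ ∃ c : K, w = c • v) ?_ asymm ?_ ?_ ?_
  · intro v _ h
    rw [polar_xx] at h
    exact zero_ne_one h
  · rintro v w h ⟨_, c, rfl⟩
    rw [p_smul_right, polar_xx, mul_zero] at h
    exact zero_ne_one h
  · intro ω0 ω1 ω2 ω3 h01 h12 h23 hbad
    exact ns hq hnd hdim hc ⟨(hc.mem ω0).1, (hc.mem ω1).1, (hc.mem ω2).1, (hc.mem ω3).1,
      hc.adj _ _ h01, hc.adj _ _ h12, hc.adj _ _ h23⟩ hκ hbad ω0 ω1 ω2 ω3 rfl rfl rfl rfl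
      h01 h12 h23
  · rintro v0 hv0 v1 hv1 v2 hv2 v4 hv4 h01 h12 ⟨hκ0, c, hc4⟩
    -- an isotropic vector orthogonal to v0, v1, v2
    obtain ⟨x, hx0, hx⟩ := exists_orth_not_mem Q ![v0, v1, v2] ⊥ (by simp; omega)
    obtain ⟨u, hu0, hu, hQu⟩ : ∃ u : V, u ≠ 0 ∧ (∀ i, polar Q u (![v0, v1, v2] i) = 0) ∧
        Q u = 0 := by
      by_cases hQx : Q x = 0
      · exact ⟨x, hx0, hx, hQx⟩
      · have hfr : Module.finrank K (Submodule.span K {x}) + 4 < Module.finrank K V := by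
          have := finrank_span_le_card (R := K) ({x} : Set V)
          simp at this
          omega
        obtain ⟨y, hy0, hy⟩ := exists_orth_not_mem Q ![v0, v1, v2, x] _ hfr
        have y0 := hy 0
        have y1 := hy 1
        have y2 := hy 2
        have y3 := hy 3
        simp only [Matrix.cons_val] at y0 y1 y2 y3
        obtain ⟨r, hr⟩ := exists_sq (Q y / Q x)
        refine ⟨y + r • x, ?_, ?_, ?_⟩
        · intro h0
          apply hy0
          rw [Submodule.mem_span_singleton]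
          exact ⟨-r, by rw [neg_smul]; exact (eq_neg_of_add_eq_zero_left h0).symm⟩
        · intro i
          rw [p_add_left, p_smul_left, hx i]
          fin_cases i
          · change polar Q y v0 + _ = 0; rw [y0]; ring
          · change polar Q y v1 + _ = 0; rw [y1]; ring
          · change polar Q y v2 + _ = 0; rw [y2]; ring
        · rw [Q_add, Q_smul, p_smul_right, y3, hr]
          field_simp
          linear_combination Q y * h2
    have u0 := hu 0
    have u1 := hu 1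
    have u2 := hu 2
    simp only [Matrix.cons_val] at u0 u1 u2
    have w0 : polar Q v0 (v1 + u) = 1 := by
      rw [p_add_right, h01, p_comm Q v0 u, u0, add_zero]
    refine ⟨v1 + u, ⟨?_, ?_⟩, w0, ?_, ?_⟩
    · rw [Q_add, hv1.1, hQu, p_comm, u1, hκ0]; ring
    · exact ne0 (asymm _ _ w0)
    · rw [p_add_left, h12, u2, add_zero]
    · rintro ⟨_, c', hc'⟩
      have e1 : polar Q v0 v4 = c := by rw [hc4, p_smul_right, h01, mul_one]
      have e2 : polar Q v0 v4 = c' := by rw [hc', p_smul_right, w0, mul_one]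
      have e3 : c = c' := e1.symm.trans e2
      rw [hc4, smul_add, ← e3] at hc'
      have e4 : c • u = 0 := by
        have := hc'.symm
        rwa [add_eq_left] at this
      rcases smul_eq_zero.mp e4 with h5 | h5
      · apply hv4.2
        rw [hc4, h5, zero_smul]
      · exact hu0 h5

end main

end Pool.Agent.Helper99.YGOdd
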